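import Pool.Agent.Lib.MP_d9da44_co.FC.Defs

/-!
Module CritR: if sq G m ≠ 0 on ML L then the product of the squares of the linear forms
lin L g = sum of (e g) x_e has a squarefree monomial with nonzero coefficient.

Proof.  `I` = ideal of the polynomials without squarefree monomials.  `pol L m` is the polynomial of
`m`: `pol [] a = C a`, `pol (e :: L) (a, b) = pol L a + X_n * pol L b`, `n = L.length`.  Then
`pol (act h m) - lin L h * pol m ∈ I`, and `pol m ∈ I` implies `m = 0`.
-/

set_option autoImplicit false

namespace Pool.Agent.Lib.MP_d9da44_co.FC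

open Polynomial

variable {K H : Type} [Field K] [AddCommGroup H] [Module K H]

/-- the linear form of `h`; the variable of the head has index the length of the tail -/
noncomputable def lin : List (H →ₗ[K] K) → H → MvPolynomial ℕ K
  | [], _ => 0
  | e :: L, h => MvPolynomial.C (e h) * MvPolynomial.X L.length + lin L h

private noncomputable def sqI (K : Type) [Field K] : Ideal (MvPolynomial ℕ K) where
  carrier := {p | ∀ t : ℕ →₀ ℕ, (∀ i, t i ≤ 1) → MvPolynomial.coeff t p = 0}
  add_mem' := by
    intro a b ha hb t ht
    rw [MvPolynomial.coeff_add, ha t ht, hb t ht, add_zero]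
  zero_mem' := fun t _ => MvPolynomial.coeff_zero t
  smul_mem' := by
    classical
    intro c p hp t ht
    rw [smul_eq_mul, MvPolynomial.coeff_mul]
    refine Finset.sum_eq_zero fun x hx => ?_
    rw [Finset.HasAntidiagonal.mem_antidiagonal] at hx
    rw [hp x.2 fun i => ?_, mul_zero]
    have h1 : x.1 i + x.2 i = t i := by rw [← hx]; rfl
    have h2 := ht i
    omega

private theorem mem_sqI {K : Type} [Field K] {p : MvPolynomial ℕ K} :
    p ∈ sqI K ↔ ∀ t : ℕ →₀ ℕ, (∀ i, t i ≤ 1) → MvPolynomial.coeff t p = 0 := Iff.rfl

private theorem X_sq_mem (n : ℕ) :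
    (MvPolynomial.X n : MvPolynomial ℕ K) * MvPolynomial.X n ∈ sqI K := by
  classical
  intro t ht
  rw [← sq, MvPolynomial.coeff_X_pow, if_neg]
  intro h
  have := ht n
  rw [← h, Finsupp.single_eq_same] at this
  omega

private noncomputable def pol [CharP K 3] : (L : List (H →ₗ[K] K)) → (ML L).X → MvPolynomial ℕ K
  | [], a => MvPolynomial.C (show K from a)
  | _ :: L, m => pol L (show (ML L).X × (ML L).X from m).1 +
      MvPolynomial.X L.length * pol L (show (ML L).X × (ML L).X from m).2

private theorem pol_add [CharP K 3] (L : List (H →ₗ[K] K)) (a b : (ML L).X) :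
    pol L (a + b) = pol L a + pol L b := by
  induction L with
  | nil => exact map_add MvPolynomial.C (show K from a) (show K from b)
  | cons e L ih =>
    obtain ⟨a1, a2⟩ := a
    obtain ⟨b1, b2⟩ := b
    show pol L (a1 + b1) + MvPolynomial.X L.length * pol L (a2 + b2) =
      (pol L a1 + MvPolynomial.X L.length * pol L a2) +
        (pol L b1 + MvPolynomial.X L.length * pol L b2)
    rw [ih, ih]
    ring

private theorem pol_smul [CharP K 3] (L : List (H →ₗ[K] K)) (c : K) (a : (ML L).X) :
    pol L (c • a) = MvPolynomial.C c * pol L a := by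
  induction L with
  | nil => exact map_mul MvPolynomial.C c (show K from a)
  | cons e L ih =>
    obtain ⟨a1, a2⟩ := a
    show pol L (c • a1) + MvPolynomial.X L.length * pol L (c • a2) =
      MvPolynomial.C c * (pol L a1 + MvPolynomial.X L.length * pol L a2)
    rw [ih, ih]
    ring

private theorem pol_act [CharP K 3] (L : List (H →ₗ[K] K)) (h : H) (m : (ML L).X) :
    pol L ((ML L).act h m) - lin L h * pol L m ∈ sqI K := by
  induction L with
  | nil =>
    have e0 : pol ([] : List (H →ₗ[K] K)) ((ML ([] : List (H →ₗ[K] K))).act h m) = 0 := by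
      show MvPolynomial.C (0 : K) = 0
      exact map_zero _
    rw [e0]
    show (0 : MvPolynomial ℕ K) - 0 * _ ∈ sqI K
    rw [zero_mul, sub_zero]
    exact Ideal.zero_mem _
  | cons e L ih =>
    obtain ⟨a, b⟩ := m
    show pol L ((ML L).act h a) + MvPolynomial.X L.length *
        pol L ((ML L).act h b + algebraMap K K (e h) • a) -
      (MvPolynomial.C (e h) * MvPolynomial.X L.length + lin L h) *
        (pol L a + MvPolynomial.X L.length * pol L b) ∈ sqI K
    rw [pol_add, pol_smul, Algebra.algebraMap_self, RingHom.id_apply]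
    have e1 : pol L ((ML L).act h a) + MvPolynomial.X L.length *
        (pol L ((ML L).act h b) + MvPolynomial.C (e h) * pol L a) -
      (MvPolynomial.C (e h) * MvPolynomial.X L.length + lin L h) *
        (pol L a + MvPolynomial.X L.length * pol L b) =
        (pol L ((ML L).act h a) - lin L h * pol L a) +
        MvPolynomial.X L.length * (pol L ((ML L).act h b) - lin L h * pol L b) -
        (MvPolynomial.C (e h) * pol L b) * (MvPolynomial.X L.length * MvPolynomial.X L.length) := by
      ring
    rw [e1]
    exact Ideal.sub_mem _ (Ideal.add_mem _ (ih a) (Ideal.mul_mem_left _ _ (ih b)))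
      (Ideal.mul_mem_left _ _ (X_sq_mem _))

private theorem pol_supp [CharP K 3] (L : List (H →ₗ[K] K)) (m : (ML L).X) (t : ℕ →₀ ℕ) (i : ℕ)
    (hi : L.length ≤ i) (hti : t i ≠ 0) : MvPolynomial.coeff t (pol L m) = 0 := by
  classical
  induction L generalizing t with
  | nil =>
    show MvPolynomial.coeff t (MvPolynomial.C (show K from m)) = 0
    rw [MvPolynomial.coeff_C, if_neg]
    intro h
    rw [← h] at hti
    exact hti rfl
  | cons e L ih =>
    obtain ⟨a, b⟩ := m
    rw [List.length_cons] at hi
    show MvPolynomial.coeff t (pol L a + MvPolynomial.X L.length * pol L b) = 0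
    rw [MvPolynomial.coeff_add, ih a t (by omega) hti, zero_add, mul_comm,
      MvPolynomial.coeff_mul_X']
    split_ifs with h
    · refine ih b _ (by omega) ?_
      rw [Finsupp.coe_tsub, Pi.sub_apply, Finsupp.single_eq_of_ne (by omega)]
      simpa using hti
    · rfl

private theorem pol_inj [CharP K 3] (L : List (H →ₗ[K] K)) (m : (ML L).X)
    (hm : pol L m ∈ sqI K) : m = 0 := by
  classical
  induction L with
  | nil =>
    have h0 := hm 0 (fun i => by simp)
    have h1 : MvPolynomial.coeff (0 : ℕ →₀ ℕ) (MvPolynomial.C (show K from m)) = 0 := h0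
    rw [MvPolynomial.coeff_zero_C] at h1
    exact h1
  | cons e L ih =>
    obtain ⟨a, b⟩ := m
    have hm' : pol L a + MvPolynomial.X L.length * pol L b ∈ sqI K := hm
    have ha : pol L a ∈ sqI K := by
      intro t ht
      by_cases h : t L.length = 0
      · have h1 := hm' t ht
        rw [MvPolynomial.coeff_add, mul_comm, MvPolynomial.coeff_mul_X', if_neg, add_zero] at h1
        · exact h1
        · rw [Finsupp.mem_support_iff, not_not]
          exact h
      · exact pol_supp L a t L.length le_rfl h
    have hb : pol L b ∈ sqI K := by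
      intro t ht
      by_cases h : t L.length = 0
      · have h2 : MvPolynomial.X L.length * pol L b ∈ sqI K := by
          have := Ideal.sub_mem _ hm' ha
          rwa [add_sub_cancel_left] at this
        have h1 := h2 (t + Finsupp.single L.length 1) (by
          intro i
          rw [Finsupp.add_apply]
          by_cases hi : i = L.length
          · rw [hi, h, Finsupp.single_eq_same]
          · rw [Finsupp.single_eq_of_ne hi, add_zero]
            exact ht i)
        rw [mul_comm, MvPolynomial.coeff_mul_X] at h1
        exact h1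
      · exact pol_supp L b t L.length le_rfl h
    have h1 := ih a ha
    have h2 := ih b hb
    rw [h1, h2]
    rfl

private theorem pol_sq [CharP K 3] (L : List (H →ₗ[K] K)) (G : List H) (m : (ML L).X) :
    pol L ((ML L).sq G m) - (G.map fun g => lin L g ^ 2).prod * pol L m ∈ sqI K := by
  induction G with
  | nil =>
    show pol L m - 1 * pol L m ∈ sqI K
    rw [one_mul, sub_self]
    exact Ideal.zero_mem _
  | cons g G ih =>
    rw [List.map_cons, List.prod_cons]
    show pol L ((ML L).act g ((ML L).act g ((ML L).sq G m))) -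
      lin L g ^ 2 * (G.map fun g => lin L g ^ 2).prod * pol L m ∈ sqI K
    have h1 := pol_act L g ((ML L).act g ((ML L).sq G m))
    have h2 := pol_act L g ((ML L).sq G m)
    have e1 : pol L ((ML L).act g ((ML L).act g ((ML L).sq G m))) -
      lin L g ^ 2 * (G.map fun g => lin L g ^ 2).prod * pol L m =
      (pol L ((ML L).act g ((ML L).act g ((ML L).sq G m))) -
        lin L g * pol L ((ML L).act g ((ML L).sq G m))) +
      lin L g * (pol L ((ML L).act g ((ML L).sq G m)) - lin L g * pol L ((ML L).sq G m)) +
      lin L g ^ 2 * (pol L ((ML L).sq G m) -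
        (G.map fun g => lin L g ^ 2).prod * pol L m) := by
      ring
    rw [e1]
    exact Ideal.add_mem _ (Ideal.add_mem _ h1 (Ideal.mul_mem_left _ _ h2))
      (Ideal.mul_mem_left _ _ ih)

theorem crit_ring [CharP K 3] (L : List (H →ₗ[K] K)) (G : List H) (m : (ML L).X)
    (hm : (ML L).sq G m ≠ 0) :
    ∃ t : ℕ →₀ ℕ, (∀ i, t i ≤ 1) ∧
      MvPolynomial.coeff t (G.map fun g => lin L g ^ 2).prod ≠ 0 := by
  by_contra hcon
  push Not at hcon
  apply hm
  apply pol_inj
  have h1 := pol_sq L G m
  have h2 : (G.map fun g => lin L g ^ 2).prod ∈ sqI K := fun t ht => hcon t ht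
  have h3 := Ideal.add_mem _ h1 (Ideal.mul_mem_right (pol L m) _ h2)
  rwa [sub_add_cancel] at h3

end Pool.Agent.Lib.MP_d9da44_co.FC
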