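import Pool.Agent.Lib.MP_d9da44_co.FC.Defs

/-!
Vectors over F_3 as functionals on `V →ₗ[ZMod 3] K`.
-/

set_option autoImplicit false

namespace Pool.Agent.Lib.MP_d9da44_co.FC

open Polynomial

variable {K V : Type} [Field K] [Algebra (ZMod 3) K] [AddCommGroup V] [Module (ZMod 3) V]

/-- evaluation at `v` -/
def evf (K : Type) {V : Type} [Field K] [Algebra (ZMod 3) K] [AddCommGroup V] [Module (ZMod 3) V]
    (v : V) : (V →ₗ[ZMod 3] K) →ₗ[K] K where
  toFun φ := φ v
  map_add' _ _ := rfl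
  map_smul' _ _ := rfl

/-- functionals with values in `F_3` as functionals with values in `K` -/
def emb (K : Type) {V : Type} [Field K] [Algebra (ZMod 3) K] [AddCommGroup V] [Module (ZMod 3) V]
    (g : V →ₗ[ZMod 3] ZMod 3) : V →ₗ[ZMod 3] K :=
  (Algebra.linearMap (ZMod 3) K) ∘ₗ g

theorem evf_emb (v : V) (g : V →ₗ[ZMod 3] ZMod 3) :
    evf K v (emb K g) = algebraMap (ZMod 3) K (g v) := rfl

end Pool.Agent.Lib.MP_d9da44_co.FC
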