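import Pool.Agent.Lib.MP_d9da44_co.FC.Defs
import Pool.Agent.Lib.MP_d9da44_co.FC.CritR
import Pool.Agent.Lib.MP_d9da44_co.FC.VDefs

/-!
Module CritN: Combinatorial Nullstellensatz.
P = ∏_(g ∈ G) lin g ^ 2 is homogeneous of degree 2 |G| (lin g homogeneous of degree 1:
MvPolynomial.IsHomogeneous), so t.degree = 2 |G|.  Let F = ∏_(g ∈ G) (1 - (lin g - C (g v))²)
(g v in K through algebraMap).  F - (-1)^|G| P has total degree < 2 |G| (induction on G:
1 - (l - b)² = -l² + (2bl + 1 - b²); or: homogeneousComponent (2|G|) F = (-1)^|G| P), so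
F.coeff t = ± P.coeff t ≠ 0 and F.totalDegree = 2 |G| = t.degree.
MvPolynomial.combinatorial_nullstellensatz_exists_eval_nonzero with S i = {0,1} (t i ≤ 1 < 2) gives
s : ℕ → K with values 0, 1 and eval s F ≠ 0, so for every g in G: (eval s (lin g) - g v)² ≠ 1.
By induction on Z there is a sublist S of Z with eval s (lin (Z.map evf) (emb g)) = g (S.sum) for all g
(take z iff s (length of the tail) = 1), so (g S.sum - g v)² ≠ 1 in F_3 (algebraMap injective), hence
g S.sum = g v (decide).
-/

set_option autoImplicit false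

namespace Pool.Agent.Lib.MP_d9da44_co.FC

open Polynomial

variable {K V : Type} [Field K] [Algebra (ZMod 3) K] [AddCommGroup V] [Module (ZMod 3) V]

/-- the combinatorial Nullstellensatz with infinitely many variables -/
private theorem cn_nat {K : Type} [Field K] (F : MvPolynomial ℕ K) (t : ℕ →₀ ℕ)
    (ht : MvPolynomial.coeff t F ≠ 0) (hdeg : F.totalDegree ≤ t.degree) (ht1 : ∀ i, t i ≤ 1) :
    ∃ s : ℕ → K, (∀ i, s i = 0 ∨ s i = 1) ∧ MvPolynomial.eval s F ≠ 0 := by
  classical
  obtain ⟨S, q, rfl⟩ := MvPolynomial.exists_finset_rename F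
  obtain ⟨u, rfl, hu⟩ := MvPolynomial.coeff_rename_ne_zero _ _ _ ht
  have hinj : Function.Injective (Subtype.val : {x // x ∈ S} → ℕ) := Subtype.val_injective
  rw [Finsupp.degree_mapDomain, ← MvPolynomial.weightedTotalDegree_one,
    MvPolynomial.weightedTotalDegree_rename_of_injective hinj] at hdeg
  have hdeg2 : q.totalDegree ≤ u.degree := by
    rw [← MvPolynomial.weightedTotalDegree_one]
    exact hdeg
  have hdeg3 : q.totalDegree = u.degree := by
    refine le_antisymm hdeg2 ?_
    exact MvPolynomial.le_totalDegree (MvPolynomial.mem_support_iff.2 hu)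
  have hu1 : ∀ i, u i ≤ 1 := by
    intro i
    have := ht1 i
    rwa [Finsupp.mapDomain_apply hinj] at this
  obtain ⟨s, hs, hs2⟩ := MvPolynomial.combinatorial_nullstellensatz_exists_eval_nonzero q u hu hdeg3
    (fun _ => ({0, 1} : Finset K)) (fun i => by
      rw [Finset.card_pair zero_ne_one]
      have := hu1 i
      omega)
  refine ⟨fun i => if h : i ∈ S then s ⟨i, h⟩ else 0, ?_, ?_⟩
  · intro i
    by_cases h : i ∈ S
    · have := hs ⟨i, h⟩
      rw [Finset.mem_insert, Finset.mem_singleton] at this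
      simpa [h] using this
    · left
      simp [h]
  · rw [MvPolynomial.eval_rename]
    have : ((fun i => if h : i ∈ S then s ⟨i, h⟩ else 0) ∘ Subtype.val : {x // x ∈ S} → K) = s := by
      ext ⟨i, hi⟩
      simp [hi]
    rw [this]
    exact hs2

private theorem lin_hom {K H : Type} [Field K] [AddCommGroup H] [Module K H]
    (L : List (H →ₗ[K] K)) (h : H) : (lin L h).IsHomogeneous 1 := by
  induction L with
  | nil => exact MvPolynomial.isHomogeneous_zero _ _ _
  | cons e L ih => exact (MvPolynomial.isHomogeneous_C_mul_X _ _).add ih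

private theorem prod_hom {K : Type} [Field K] (l : List (MvPolynomial ℕ K × K))
    (hl : ∀ p ∈ l, p.1.IsHomogeneous 1) :
    (l.map fun p : MvPolynomial ℕ K × K => p.1 ^ 2).prod.IsHomogeneous (2 * l.length) := by
  induction l with
  | nil => exact MvPolynomial.isHomogeneous_one _ _
  | cons p l ih =>
    rw [List.map_cons, List.prod_cons, List.length_cons]
    have h1 := (hl p List.mem_cons_self).pow 2
    have h2 := h1.mul (ih fun q hq => hl q (List.mem_cons_of_mem _ hq))
    have e : 2 * (l.length + 1) = 1 * 2 + 2 * l.length := by ring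
    rw [e]
    exact h2

private theorem coeff_top {K : Type} [Field K] (l : List (MvPolynomial ℕ K × K))
    (hl : ∀ p ∈ l, p.1.IsHomogeneous 1) :
    (l.map fun p : MvPolynomial ℕ K × K => 1 - (p.1 - MvPolynomial.C p.2) ^ 2).prod.totalDegree ≤ 2 * l.length ∧
      ∀ t : ℕ →₀ ℕ, t.degree = 2 * l.length →
        MvPolynomial.coeff t (l.map fun p : MvPolynomial ℕ K × K => 1 - (p.1 - MvPolynomial.C p.2) ^ 2).prod =
          (-1) ^ l.length * MvPolynomial.coeff t (l.map fun p : MvPolynomial ℕ K × K => p.1 ^ 2).prod := by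
  classical
  induction l with
  | nil =>
    refine ⟨by simp, ?_⟩
    intro t _
    simp
  | cons p l ih =>
    obtain ⟨ih1, ih2⟩ := ih fun q hq => hl q (List.mem_cons_of_mem _ hq)
    have hp := hl p List.mem_cons_self
    rw [List.map_cons, List.prod_cons, List.length_cons, List.map_cons, List.prod_cons]
    generalize (l.map fun p : MvPolynomial ℕ K × K => 1 - (p.1 - MvPolynomial.C p.2) ^ 2).prod = F at *
    generalize (l.map fun p : MvPolynomial ℕ K × K => p.1 ^ 2).prod = P at *
    obtain ⟨q, b⟩ := p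
    dsimp only at *
    have hq2 := hp.pow 2
    rw [one_mul] at hq2
    set Aq : MvPolynomial ℕ K := MvPolynomial.C (2 * b) * q + MvPolynomial.C (1 - b ^ 2) with hA
    have e1 : (1 : MvPolynomial ℕ K) - (q - MvPolynomial.C b) ^ 2 = Aq - q ^ 2 := by
      rw [hA]
      simp only [map_sub, map_mul, map_pow, map_one, map_ofNat]
      ring
    have hAdeg : Aq.totalDegree ≤ 1 := by
      rw [hA]
      refine (MvPolynomial.totalDegree_add _ _).trans (max_le ?_ ?_)
      · refine (MvPolynomial.totalDegree_mul _ _).trans ?_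
        rw [MvPolynomial.totalDegree_C, zero_add]
        exact hp.totalDegree_le
      · rw [MvPolynomial.totalDegree_C]
        exact Nat.zero_le _
    have hAF : (Aq * F).totalDegree ≤ 1 + 2 * l.length :=
      (MvPolynomial.totalDegree_mul _ _).trans (add_le_add hAdeg ih1)
    have hqF : (q ^ 2 * F).totalDegree ≤ 2 + 2 * l.length :=
      (MvPolynomial.totalDegree_mul _ _).trans (add_le_add hq2.totalDegree_le ih1)
    rw [e1, sub_mul]
    constructor
    · refine (MvPolynomial.totalDegree_sub _ _).trans (max_le ?_ ?_)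
      · omega
      · omega
    · intro t ht
      have h0 : MvPolynomial.coeff t (Aq * F) = 0 := by
        refine MvPolynomial.coeff_eq_zero_of_totalDegree_lt ?_
        rw [← Finsupp.degree_apply]
        omega
      rw [MvPolynomial.coeff_sub, h0, zero_sub, MvPolynomial.coeff_mul, MvPolynomial.coeff_mul,
        pow_succ (-1 : K), mul_neg_one, neg_mul, Finset.mul_sum]
      congr 1
      refine Finset.sum_congr rfl fun x hx => ?_
      rw [Finset.HasAntidiagonal.mem_antidiagonal] at hx
      by_cases h2 : x.1.degree = 2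
      · have h3 : x.2.degree = 2 * l.length := by
          have h4 : x.1.degree + x.2.degree = t.degree := by
            rw [← hx, map_add]
          omega
        rw [ih2 x.2 h3]
        ring
      · rw [hq2.coeff_eq_zero h2, zero_mul, zero_mul, mul_zero]

private theorem sub_exists (s : ℕ → K) (hs : ∀ i, s i = 0 ∨ s i = 1) (Z : List V) :
    ∃ S : List V, S.Sublist Z ∧ ∀ g : V →ₗ[ZMod 3] ZMod 3,
      MvPolynomial.eval s (lin (Z.map (evf K)) (emb K g)) = algebraMap (ZMod 3) K (g S.sum) := by
  induction Z with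
  | nil =>
    refine ⟨[], List.Sublist.refl _, ?_⟩
    intro g
    simp [lin]
  | cons z Z ih =>
    obtain ⟨S, hS, hg⟩ := ih
    rcases hs Z.length with h | h
    · refine ⟨S, hS.cons _, ?_⟩
      intro g
      rw [List.map_cons]
      show MvPolynomial.eval s (MvPolynomial.C (evf K z (emb K g)) *
        MvPolynomial.X (Z.map (evf K)).length + lin (Z.map (evf K)) (emb K g)) = _
      rw [map_add, map_mul, MvPolynomial.eval_C, MvPolynomial.eval_X, List.length_map, h, mul_zero,
        zero_add, hg]
    · refine ⟨z :: S, hS.cons_cons _, ?_⟩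
      intro g
      rw [List.map_cons]
      show MvPolynomial.eval s (MvPolynomial.C (evf K z (emb K g)) *
        MvPolynomial.X (Z.map (evf K)).length + lin (Z.map (evf K)) (emb K g)) = _
      rw [map_add, map_mul, MvPolynomial.eval_C, MvPolynomial.eval_X, List.length_map, h, mul_one,
        hg, evf_emb, List.sum_cons, map_add, map_add]

theorem crit_cn (Z : List V) (G : List (V →ₗ[ZMod 3] ZMod 3)) (t : ℕ →₀ ℕ) (ht : ∀ i, t i ≤ 1)
    (hc : MvPolynomial.coeff t
      ((G.map (emb K)).map fun g => lin (Z.map (evf K)) g ^ 2).prod ≠ 0) (v : V) :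
    ∃ S : List V, S.Sublist Z ∧ ∀ g ∈ G, g S.sum = g v := by
  set l : List (MvPolynomial ℕ K × K) :=
    G.map fun g => (lin (Z.map (evf K)) (emb K g), algebraMap (ZMod 3) K (g v)) with hl
  have hhom : ∀ p ∈ l, p.1.IsHomogeneous 1 := by
    intro p hp
    rw [hl, List.mem_map] at hp
    obtain ⟨g, _, rfl⟩ := hp
    exact lin_hom _ _
  have e1 : ((G.map (emb K)).map fun g => lin (Z.map (evf K)) g ^ 2) = l.map fun p => p.1 ^ 2 := by
    rw [hl, List.map_map, List.map_map]
    rfl
  rw [e1] at hc
  have hdeg : t.degree = 2 * l.length := by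
    by_contra hne
    exact hc ((prod_hom l hhom).coeff_eq_zero hne)
  obtain ⟨h1, h2⟩ := coeff_top l hhom
  have hc2 : MvPolynomial.coeff t (l.map fun p : MvPolynomial ℕ K × K => 1 - (p.1 - MvPolynomial.C p.2) ^ 2).prod ≠ 0 := by
    rw [h2 t hdeg]
    exact mul_ne_zero (pow_ne_zero _ (neg_ne_zero.2 one_ne_zero)) hc
  obtain ⟨s, hs, hs2⟩ := cn_nat _ t hc2 (by rw [hdeg]; exact h1) ht
  obtain ⟨S, hS, hSg⟩ := sub_exists (V := V) s hs Z
  refine ⟨S, hS, ?_⟩
  intro g hg
  rw [map_list_prod] at hs2
  have h3 : MvPolynomial.eval s (1 - (lin (Z.map (evf K)) (emb K g) -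
      MvPolynomial.C (algebraMap (ZMod 3) K (g v))) ^ 2) ≠ 0 := by
    intro h0
    apply hs2
    apply List.prod_eq_zero
    rw [List.map_map, List.mem_map]
    refine ⟨(lin (Z.map (evf K)) (emb K g), algebraMap (ZMod 3) K (g v)), ?_, h0⟩
    rw [hl, List.mem_map]
    exact ⟨g, hg, rfl⟩
  rw [map_sub, map_one, map_pow, map_sub, MvPolynomial.eval_C, hSg, ← map_sub, ← map_pow,
    ← map_one (algebraMap (ZMod 3) K), ← map_sub] at h3
  have h4 : (1 : ZMod 3) - (g S.sum - g v) ^ 2 ≠ 0 := by
    intro h0
    rw [h0, map_zero] at h3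
    exact h3 rfl
  have key : ∀ a b : ZMod 3, 1 - (a - b) ^ 2 ≠ 0 → a = b := by decide
  exact key _ _ h4

end Pool.Agent.Lib.MP_d9da44_co.FC
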