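import Pool.Agent.Lib.MP_d9da44_co.FC.Defs

/-!
Module IsoB: elementary facts on isomorphisms.
All proofs: explicit linear equivalences.  `Iso.cone`: `LinearEquiv.prodCongr e e`;
`Iso.kon`: induction on the list generalizing `C C'`; `Iso.Ex`: transport with `e` and `e.symm`.
`Iso.Om`: again `prodCongr e e`, using `e (r • x) = r • e x`.
-/

set_option autoImplicit false

namespace Pool.Agent.Lib.MP_d9da44_co.FC

open Polynomial

variable {K H A : Type} [Field K] [AddCommGroup H] [Module K H] [CommRing A] [Algebra K A]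

theorem HM.Iso.refl (C : HM K H A) : C.Iso C :=
  ⟨LinearEquiv.refl A C.X, fun _ => rfl, fun _ _ => Iff.rfl, fun _ _ => rfl⟩

theorem HM.Iso.symm {C C' : HM K H A} (h : C.Iso C') : C'.Iso C := by
  obtain ⟨e, hd, hF, ha⟩ := h
  refine ⟨e.symm, fun x => ?_, fun u x => ?_, fun h x => ?_⟩
  · apply e.injective
    rw [e.apply_symm_apply, hd, e.apply_symm_apply]
  · rw [hF u (e.symm x), e.apply_symm_apply]
  · apply e.injective
    rw [e.apply_symm_apply, ha, e.apply_symm_apply]

theorem HM.Iso.trans {C C' C'' : HM K H A} (h : C.Iso C') (h' : C'.Iso C'') : C.Iso C'' := by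
  obtain ⟨e, hd, hF, ha⟩ := h
  obtain ⟨e', hd', hF', ha'⟩ := h'
  refine ⟨e.trans e', fun x => ?_, fun u x => ?_, fun h x => ?_⟩
  · rw [LinearEquiv.trans_apply, LinearEquiv.trans_apply, hd, hd']
  · rw [LinearEquiv.trans_apply, hF, hF']
  · rw [LinearEquiv.trans_apply, LinearEquiv.trans_apply, ha, ha']

theorem HM.Iso.cone {C C' : HM K H A} (e : C.Iso C') (h : H) (c : A) :
    (C.cone h c).Iso (C'.cone h c) := by
  obtain ⟨e, hd, hF, ha⟩ := e
  refine ⟨LinearEquiv.prodCongr e e, ?_, ?_, ?_⟩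
  · rintro ⟨a, b⟩
    refine Prod.ext ?_ ?_
    · change e (C.d a + c • C.act h (C.act h b)) = C'.d (e a) + c • C'.act h (C'.act h (e b))
      rw [map_add, map_smul, hd, ha, ha]
    · change e (C.act h a - C.d b) = C'.act h (e a) - C'.d (e b)
      rw [map_sub, hd, ha]
  · rintro u ⟨a, b⟩
    exact and_congr (hF u a) (hF (u - 1) b)
  · rintro k ⟨a, b⟩
    exact Prod.ext (ha k a) (ha k b)

theorem HM.Iso.kon {C C' : HM K H A} (e : C.Iso C') (l : List (H × A)) :
    (C.kon l).Iso (C'.kon l) := by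
  induction l generalizing C C' with
  | nil => exact e
  | cons p l ih => exact ih (e.cone p.1 p.2)

theorem HM.Iso.Om [CharP K 3] {C C' : HM K H A} (e : C.Iso C') (f : H →ₗ[K] K) :
    (C.Om f).Iso (C'.Om f) := by
  obtain ⟨e, hd, hF, ha⟩ := e
  refine ⟨LinearEquiv.prodCongr e e, ?_, ?_, ?_⟩
  · rintro ⟨a, b⟩
    exact Prod.ext (hd a) (hd b)
  · rintro u ⟨a, b⟩
    exact and_congr (hF (u + 1) a) (hF (u - 1) b)
  · rintro k ⟨a, b⟩
    refine Prod.ext (ha k a) ?_
    change e (C.act k b + algebraMap K A (f k) • a) =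
      C'.act k (e b) + algebraMap K A (f k) • e a
    rw [map_add, map_smul, ha]

theorem HM.Iso.Ex {C C' : HM K H A} (e : C.Iso C') {v : ℤ} (h : C.Ex v) : C'.Ex v := by
  obtain ⟨e, hd, hF, ha⟩ := e
  intro u hu x hx hdx
  obtain ⟨w, hw, hwx⟩ := h u hu (e.symm x) (by rw [hF, e.apply_symm_apply]; exact hx) (by
    apply e.injective
    rw [hd, e.apply_symm_apply, hdx, map_zero])
  refine ⟨e w, (hF _ _).1 hw, ?_⟩
  rw [← hd, hwx, e.apply_symm_apply]

theorem kon_append (C : HM K H A) (l l' : List (H × A)) :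
    C.kon (l ++ l') = (C.kon l).kon l' := by
  induction l generalizing C with
  | nil => rfl
  | cons p l ih => exact ih _

theorem kon_snoc (C : HM K H A) (l : List (H × A)) (p : H × A) :
    C.kon (l ++ [p]) = (C.kon l).cone p.1 p.2 := by
  rw [kon_append]
  rfl

end Pool.Agent.Lib.MP_d9da44_co.FC
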