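import Pool.Agent.Lib.MP_d9da44_co.FC.Defs
import Pool.Agent.Lib.MP_d9da44_co.FC.IsoB

/-!
Module MLf: facts on ML.
-/

set_option autoImplicit false

namespace Pool.Agent.Lib.MP_d9da44_co.FC

open Polynomial

variable {K H : Type} [Field K] [CharP K 3] [AddCommGroup H] [Module K H]

theorem ML_d (L : List (H →ₗ[K] K)) (x : (ML L).X) : (ML L).d x = 0 := by
  induction L with
  | nil => rfl
  | cons e L ih =>
    obtain ⟨a, b⟩ := x
    exact Prod.ext (ih a) (ih b)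

theorem Om_swap {A : Type} [CommRing A] [Algebra K A] (C : HM K H A) (e f : H →ₗ[K] K) :
    ((C.Om e).Om f).Iso ((C.Om f).Om e) := by
  refine ⟨
    { toFun := fun (x : (C.X × C.X) × (C.X × C.X)) => ((x.1.1, x.2.1), (x.1.2, x.2.2))
      invFun := fun (x : (C.X × C.X) × (C.X × C.X)) => ((x.1.1, x.2.1), (x.1.2, x.2.2))
      map_add' := ?_
      map_smul' := ?_
      left_inv := ?_
      right_inv := ?_ }, ?_, ?_, ?_⟩
  · rintro ⟨⟨a, b⟩, ⟨p, q⟩⟩ ⟨⟨a', b'⟩, ⟨p', q'⟩⟩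
    rfl
  · rintro r ⟨⟨a, b⟩, ⟨p, q⟩⟩
    rfl
  · rintro ⟨⟨a, b⟩, ⟨p, q⟩⟩
    rfl
  · rintro ⟨⟨a, b⟩, ⟨p, q⟩⟩
    rfl
  · rintro ⟨⟨a, b⟩, ⟨p, q⟩⟩
    rfl
  · rintro u ⟨⟨a, b⟩, ⟨p, q⟩⟩
    have e1 : u + 1 - 1 = u - 1 + 1 := by ring
    constructor
    · rintro ⟨⟨ha, hb⟩, ⟨hp, hq⟩⟩
      have hb' : b ∈ C.F (u + 1 - 1) := hb
      have hp' : p ∈ C.F (u - 1 + 1) := hp
      rw [e1] at hb'
      rw [← e1] at hp'
      exact ⟨⟨ha, hp'⟩, ⟨hb', hq⟩⟩
    · rintro ⟨⟨ha, hp⟩, ⟨hb, hq⟩⟩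
      have hb' : b ∈ C.F (u - 1 + 1) := hb
      have hp' : p ∈ C.F (u + 1 - 1) := hp
      rw [← e1] at hb'
      rw [e1] at hp'
      exact ⟨⟨ha, hb'⟩, ⟨hp', hq⟩⟩
  · rintro h ⟨⟨a, b⟩, ⟨p, q⟩⟩
    refine Prod.ext (Prod.ext ?_ ?_) (Prod.ext ?_ ?_)
    · rfl
    · rfl
    · rfl
    · show (C.act h q + algebraMap K A (e h) • p) + algebraMap K A (f h) • b =
        (C.act h q + algebraMap K A (f h) • b) + algebraMap K A (e h) • p
      abel

theorem ML_perm {L L' : List (H →ₗ[K] K)} (h : L.Perm L') : (ML L).Iso (ML L') := by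
  induction h with
  | nil => exact HM.Iso.refl _
  | cons x _ ih => exact ih.Om x
  | swap x y l => exact Om_swap (ML l) x y
  | trans _ _ ih1 ih2 => exact ih1.trans ih2

theorem ML_act_zero (Z : List (H →ₗ[K] K)) (y : H) (hy : ∀ e ∈ Z, e y = 0) (x : (ML Z).X) :
    (ML Z).act y x = 0 := by
  induction Z with
  | nil => rfl
  | cons e Z ih =>
    have h1 := ih (fun e' he' => hy e' (List.mem_cons_of_mem _ he'))
    obtain ⟨a, b⟩ := x
    refine Prod.ext (h1 a) ?_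
    show (ML Z).act y b + algebraMap K K (e y) • a = 0
    rw [h1 b, hy e List.mem_cons_self, map_zero, zero_smul, add_zero]

theorem ML_nil_Ex : (ML ([] : List (H →ₗ[K] K))).Ex 1 := by
  intro u hu x hx _
  have hx' : x ∈ (if u ≤ 0 then (⊤ : Submodule K K) else ⊥) := hx
  rw [if_neg (by omega)] at hx'
  have hx0 : x = 0 := (Submodule.mem_bot K).1 hx'
  exact ⟨0, Submodule.zero_mem _, by rw [hx0, map_zero]⟩

/-- the top element `x_L` -/
def xtop : (L : List (H →ₗ[K] K)) → (ML L).X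
  | [] => (1 : K)
  | _ :: L => (0, xtop L)

theorem xtop_ne (L : List (H →ₗ[K] K)) : xtop L ≠ 0 := by
  induction L with
  | nil => exact one_ne_zero (α := K)
  | cons e L ih => exact fun h => ih (congrArg Prod.snd h)

theorem xtop_F (L : List (H →ₗ[K] K)) : xtop L ∈ (ML L).F (L.length : ℤ) := by
  induction L with
  | nil =>
    show (1 : K) ∈ (if ((0 : ℕ) : ℤ) ≤ 0 then (⊤ : Submodule K K) else ⊥)
    rw [if_pos (by norm_num)]
    exact Submodule.mem_top
  | cons e L ih =>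
    refine ⟨Submodule.zero_mem _, ?_⟩
    show xtop L ∈ (ML L).F (((e :: L).length : ℤ) - 1)
    have e1 : ((e :: L).length : ℤ) - 1 = (L.length : ℤ) := by
      rw [List.length_cons]
      push_cast
      ring
    rw [e1]
    exact ih

theorem xtop_act (L : List (H →ₗ[K] K)) (h : H) : (ML L).act h (xtop L) = 0 := by
  induction L with
  | nil => rfl
  | cons e L ih =>
    refine Prod.ext (map_zero _) ?_
    show (ML L).act h (xtop L) + algebraMap K K (e h) • (0 : (ML L).X) = 0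
    rw [ih, smul_zero, add_zero]

theorem ML_finite (L : List (H →ₗ[K] K)) : Module.Finite K (ML L).X := by
  induction L with
  | nil => exact inferInstanceAs (Module.Finite K K)
  | cons e L ih =>
    have := ih
    exact inferInstanceAs (Module.Finite K ((ML L).X × (ML L).X))

end Pool.Agent.Lib.MP_d9da44_co.FC
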