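import Pool.Agent.Lib.MP_d9da44_co.FC.Defs
import Pool.Agent.Lib.MP_d9da44_co.FC.IsoB

/-!
Module NHm: null-homotopic operators.
-/

set_option autoImplicit false

namespace Pool.Agent.Lib.MP_d9da44_co.FC

open Polynomial

variable {K H A : Type} [Field K] [AddCommGroup H] [Module K H] [CommRing A] [Algebra K A]

theorem act_zero (C : HM K H A) (x : C.X) : C.act 0 x = 0 := by
  have := C.act_smul 0 0 x
  rw [zero_smul, map_zero, zero_smul] at this
  exact this

theorem act_neg (C : HM K H A) (h : H) (x : C.X) : C.act (-h) x = - C.act h x := by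
  have := C.act_smul (-1) h x
  rw [neg_one_smul, map_neg, map_one, neg_one_smul] at this
  exact this

/-- the homotopy `(a, b) ↦ (b, 0)` -/
private def nhS {M : Type} [AddCommGroup M] [Module A M] : (M × M) →ₗ[A] (M × M) where
  toFun p := (p.2, 0)
  map_add' := by
    rintro ⟨a, b⟩ ⟨a', b'⟩
    exact Prod.ext rfl (add_zero (0 : M)).symm
  map_smul' := by
    rintro r ⟨a, b⟩
    exact Prod.ext rfl (smul_zero r).symm

theorem NH_self (C : HM K H A) (h : H) (c : A) : (C.cone h c).NH h := by
  refine ⟨(nhS : (C.X × C.X) →ₗ[A] (C.X × C.X)), ?_, ?_, ?_⟩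
  · rintro u ⟨a, b⟩ ⟨ha, hb⟩
    exact ⟨hb, Submodule.zero_mem _⟩
  · rintro ⟨a, b⟩
    refine Prod.ext ?_ ?_
    · show (C.d b + c • C.act h (C.act h 0)) + (C.act h a - C.d b) = C.act h a
      rw [map_zero, map_zero, smul_zero]
      abel
    · show (C.act h b - C.d 0) + 0 = C.act h b
      rw [map_zero, sub_zero, add_zero]
  · rintro k ⟨a, b⟩
    refine Prod.ext rfl ?_
    show (0 : C.X) = C.act k 0
    rw [map_zero]

theorem HM.NH.cone {C : HM K H A} {k : H} (hk : C.NH k) (h : H) (c : A) :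
    (C.cone h c).NH k := by
  obtain ⟨s, hs1, hs2, hs3⟩ := hk
  refine ⟨(LinearMap.prodMap s (-s) : (C.X × C.X) →ₗ[A] (C.X × C.X)), ?_, ?_, ?_⟩
  · rintro u ⟨a, b⟩ ⟨ha, hb⟩
    exact ⟨hs1 u a ha, Submodule.neg_mem _ (hs1 (u - 1) b hb)⟩
  · rintro ⟨a, b⟩
    refine Prod.ext ?_ ?_
    · show (C.d (s a) + c • C.act h (C.act h (-s b))) +
        s (C.d a + c • C.act h (C.act h b)) = C.act k a
      rw [← hs2 a, map_add, map_smul, hs3, hs3, map_neg, map_neg, smul_neg]
      abel
    · show (C.act h (s a) - C.d (-s b)) + -s (C.act h a - C.d b) = C.act k b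
      rw [← hs2 b, map_sub, hs3, map_neg]
      abel
  · rintro k' ⟨a, b⟩
    refine Prod.ext (hs3 k' a) ?_
    show -s (C.act k' b) = C.act k' (-s b)
    rw [hs3, map_neg]

theorem NH_zero_act {C : HM K H A} {k : H} (hk : ∀ x, C.act k x = 0) : C.NH k := by
  refine ⟨0, ?_, ?_, ?_⟩
  · intro u x _
    exact Submodule.zero_mem _
  · intro x
    rw [hk]
    simp
  · intro h x
    simp

theorem NH_span {C : HM K H A} {S : Set H} (hS : ∀ k ∈ S, C.NH k) {k : H}
    (hk : k ∈ Submodule.span K S) : C.NH k := by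
  induction hk using Submodule.span_induction with
  | mem x hx => exact hS x hx
  | zero => exact NH_zero_act (act_zero C)
  | add x y _ _ hx hy =>
    obtain ⟨s, hs1, hs2, hs3⟩ := hx
    obtain ⟨t, ht1, ht2, ht3⟩ := hy
    refine ⟨s + t, ?_, ?_, ?_⟩
    · intro u z hz
      exact Submodule.add_mem _ (hs1 u z hz) (ht1 u z hz)
    · intro z
      rw [C.act_add, ← hs2, ← ht2, LinearMap.add_apply, LinearMap.add_apply, map_add]
      abel
    · intro h z
      rw [LinearMap.add_apply, LinearMap.add_apply, hs3, ht3, map_add]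
  | smul c x _ hx =>
    obtain ⟨s, hs1, hs2, hs3⟩ := hx
    refine ⟨algebraMap K A c • s, ?_, ?_, ?_⟩
    · intro u z hz
      exact Submodule.smul_mem _ _ (hs1 u z hz)
    · intro z
      rw [C.act_smul, ← hs2, LinearMap.smul_apply, LinearMap.smul_apply, map_smul, smul_add]
    · intro h z
      rw [LinearMap.smul_apply, LinearMap.smul_apply, hs3, map_smul]

theorem NH_kon {C : HM K H A} {k : H} (hk : C.NH k) (l : List (H × A)) : (C.kon l).NH k := by
  induction l generalizing C with
  | nil => exact hk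
  | cons p l ih => exact ih (hk.cone p.1 p.2)

theorem NH_kon_mem (C : HM K H A) (l : List (H × A)) (p : H × A) (hp : p ∈ l) :
    (C.kon l).NH p.1 := by
  induction l generalizing C with
  | nil => exact absurd hp List.not_mem_nil
  | cons q l ih =>
    rcases List.mem_cons.1 hp with h | h
    · subst h
      exact NH_kon (NH_self C p.1 p.2) l
    · exact ih (C.cone q.1 q.2) h

/-- the shear `(a, b) ↦ (a, b + s a)` -/
private def nhShear {M : Type} [AddCommGroup M] [Module A M] (s : M →ₗ[A] M) :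
    (M × M) ≃ₗ[A] (M × M) where
  toFun p := (p.1, p.2 + s p.1)
  invFun p := (p.1, p.2 - s p.1)
  map_add' := by
    rintro ⟨a, b⟩ ⟨a', b'⟩
    refine Prod.ext rfl ?_
    show b + b' + s (a + a') = b + s a + (b' + s a')
    rw [map_add]
    abel
  map_smul' := by
    rintro r ⟨a, b⟩
    refine Prod.ext rfl ?_
    show r • b + s (r • a) = r • (b + s a)
    rw [map_smul, smul_add]
  left_inv := by
    rintro ⟨a, b⟩
    exact Prod.ext rfl (add_sub_cancel_right _ _)
  right_inv := by
    rintro ⟨a, b⟩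
    exact Prod.ext rfl (sub_add_cancel _ _)

theorem cone_shear {C : HM K H A} {k : H} (hk : C.NH k) (h : H) :
    (C.cone h 0).Iso (C.cone (h + k) 0) := by
  obtain ⟨s, hs1, hs2, hs3⟩ := hk
  refine ⟨(nhShear s : (C.X × C.X) ≃ₗ[A] (C.X × C.X)), ?_, ?_, ?_⟩
  · rintro ⟨a, b⟩
    refine Prod.ext ?_ ?_
    · show C.d a + (0 : A) • C.act h (C.act h b) =
        C.d a + (0 : A) • C.act (h + k) (C.act (h + k) (b + s a))
      rw [zero_smul, zero_smul]
    · show C.act h a - C.d b + s (C.d a + (0 : A) • C.act h (C.act h b)) =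
        C.act (h + k) a - C.d (b + s a)
      rw [zero_smul, add_zero, C.act_add, ← hs2 a, map_add]
      abel
  · rintro u ⟨a, b⟩
    constructor
    · rintro ⟨ha, hb⟩
      exact ⟨ha, Submodule.add_mem _ hb (hs1 u a ha)⟩
    · rintro ⟨ha, hb⟩
      exact ⟨ha, (Submodule.add_mem_iff_left _ (hs1 u a ha)).1 hb⟩
  · rintro h' ⟨a, b⟩
    refine Prod.ext rfl ?_
    show C.act h' b + s (C.act h' a) = C.act h' (b + s a)
    rw [hs3, map_add]

theorem unkos {C : HM K H A} (l : List H) (hl : ∀ k ∈ l, C.NH k) {v : ℤ}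
    (h : (C.kos l).Ex (v + l.length)) : C.Ex v := by
  induction l generalizing C v with
  | nil =>
    simpa [HM.kos, HM.kon] using h
  | cons k l ih =>
    have h1 : (C.cone k 0).Ex (v + 1) := by
      refine ih (C := C.cone k 0) (v := v + 1) (fun k' hk' => (hl k' (List.mem_cons_of_mem _ hk')).cone k 0) ?_
      have e1 : v + 1 + (l.length : ℤ) = v + ((k :: l).length : ℤ) := by
        rw [List.length_cons]
        push_cast
        ring
      rw [e1]
      exact h
    have hkn : C.NH (-k) := by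
      refine NH_span (S := {k}) ?_ ?_
      · intro k' hk'
        rw [Set.mem_singleton_iff.1 hk']
        exact hl k List.mem_cons_self
      · exact Submodule.neg_mem _ (Submodule.mem_span_singleton_self k)
    have h2 : (C.cone (k + -k) 0).Ex (v + 1) := (cone_shear hkn k).Ex h1
    rw [add_neg_cancel] at h2
    intro u hu x hx hdx
    have h3 := h2 (u + 1) (by omega) ((0, x) : C.X × C.X) ?_ ?_
    · obtain ⟨⟨a, b⟩, ⟨ha, hb⟩, hw⟩ := h3
      have h4 : C.act 0 a - C.d b = x := congrArg Prod.snd hw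
      refine ⟨-b, ?_, ?_⟩
      · have e1 : u + 1 - 3 - 1 = u - 3 := by ring
        have hb' : b ∈ C.F (u + 1 - 3 - 1) := hb
        rw [e1] at hb'
        exact Submodule.neg_mem _ hb'
      · rw [act_zero, zero_sub] at h4
        rw [map_neg]
        exact h4
    · refine ⟨Submodule.zero_mem _, ?_⟩
      have e1 : u + 1 - 1 = u := by ring
      show x ∈ C.F (u + 1 - 1)
      rw [e1]
      exact hx
    · refine Prod.ext ?_ ?_
      · show C.d 0 + (0 : A) • C.act 0 (C.act 0 x) = 0
        rw [map_zero, zero_smul, add_zero]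
      · show C.act 0 0 - C.d x = 0
        rw [map_zero, hdx, sub_zero]

end Pool.Agent.Lib.MP_d9da44_co.FC
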