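import Pool.Agent.Lib.MP_d9da44_co.FC.Defs
import Pool.Agent.Lib.MP_d9da44_co.FC.NHm

/-!
Module Mono: if sq G = 0 on C then sq f = 0 for every list f with f.length ≥ G.length whose
elements lie in span G ⊔ {h | act h = 0}.
pr l m = product of the operators of the list l applied to m (permutation invariant by act_comm).
(1) sq f m = pr (f ++ f) m up to permutation (induction).
(2) if all elements of l lie in G and l.length ≥ 2 G.length then pr l m = 0: if some g occurs ≥ 3
times, l is a permutation of g :: g :: g :: l' and act_cube; otherwise every element of G.dedup occurs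
at most twice, so l.length ≤ 2 G.dedup.length ≤ 2 G.length, hence equality everywhere and l is a
permutation of G ++ G (List.perm_iff_count), pr l m = sq G m = 0.
(3) pr w (pr l m) = 0 if w is a list of elements of span G ⊔ N, l a list of elements of G,
w.length + l.length ≥ 2 G.length: induction on w: for x :: w the statement is linear in x (act_add,
act_smul), so x ∈ N (act x = 0: move act x) or x = g ∈ G: act g (pr w (pr l m)) = pr w (pr (g :: l) m) = 0.
(Submodule.mem_sup, span_induction.)
-/

set_option autoImplicit false

namespace Pool.Agent.Lib.MP_d9da44_co.FC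

open Polynomial

variable {K H A : Type} [Field K] [AddCommGroup H] [Module K H] [CommRing A] [Algebra K A]

private def pr (C : HM K H A) : List H → C.X → C.X
  | [], m => m
  | h :: l, m => C.act h (pr C l m)

private theorem pr_act (C : HM K H A) (l : List H) (h : H) (m : C.X) :
    pr C l (C.act h m) = C.act h (pr C l m) := by
  induction l with
  | nil => rfl
  | cons g l ih =>
    show C.act g (pr C l (C.act h m)) = C.act h (C.act g (pr C l m))
    rw [ih, C.act_comm]

private theorem pr_append (C : HM K H A) (l l' : List H) (m : C.X) :
    pr C (l ++ l') m = pr C l (pr C l' m) := by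
  induction l with
  | nil => rfl
  | cons g l ih =>
    show C.act g (pr C (l ++ l') m) = C.act g (pr C l (pr C l' m))
    rw [ih]

private theorem pr_perm (C : HM K H A) {l l' : List H} (h : l.Perm l') (m : C.X) :
    pr C l m = pr C l' m := by
  induction h with
  | nil => rfl
  | cons x _ ih =>
    show C.act x _ = C.act x _
    rw [ih]
  | swap x y l =>
    show C.act y (C.act x _) = C.act x (C.act y _)
    rw [C.act_comm]
  | trans _ _ h1 h2 => exact h1.trans h2

private theorem pr_zero (C : HM K H A) (l : List H) : pr C l 0 = 0 := by
  induction l with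
  | nil => rfl
  | cons x l ih =>
    show C.act x (pr C l 0) = 0
    rw [ih, map_zero]

private theorem sq_eq_pr (C : HM K H A) (f : List H) (m : C.X) : C.sq f m = pr C (f ++ f) m := by
  induction f with
  | nil => rfl
  | cons x f ih =>
    have h1 : ((x :: f) ++ (x :: f)).Perm (x :: x :: (f ++ f)) := by
      rw [List.cons_append]
      exact List.Perm.cons x List.perm_middle
    rw [pr_perm C h1]
    show C.act x (C.act x (C.sq f m)) = C.act x (C.act x (pr C (f ++ f) m))
    rw [ih]

/-- (2) -/
private theorem pr_mem (C : HM K H A) (G : List H) (hG : ∀ m, C.sq G m = 0) (l : List H)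
    (hl : ∀ x ∈ l, x ∈ G) (hlen : 2 * G.length ≤ l.length) (m : C.X) : pr C l m = 0 := by
  classical
  by_cases h3 : ∃ g, 3 ≤ l.count g
  · obtain ⟨g, hg⟩ := h3
    have e1 : g ∈ l := List.count_pos_iff.1 (by omega)
    have c1 : (l.erase g).count g = l.count g - 1 := List.count_erase_self
    have e2 : g ∈ l.erase g := List.count_pos_iff.1 (by omega)
    have c2 : ((l.erase g).erase g).count g = (l.erase g).count g - 1 := List.count_erase_self
    have e3 : g ∈ (l.erase g).erase g := List.count_pos_iff.1 (by omega)
    have hp : l.Perm (g :: g :: g :: ((l.erase g).erase g).erase g) :=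
      (List.perm_cons_erase e1).trans (List.Perm.cons g ((List.perm_cons_erase e2).trans
        (List.Perm.cons g (List.perm_cons_erase e3))))
    rw [pr_perm C hp]
    exact C.act_cube g _
  · push Not at h3
    have hsub : ∀ a ∈ (l : Multiset H), a ∈ G.toFinset := by
      intro a ha
      exact List.mem_toFinset.2 (hl a (Multiset.mem_coe.1 ha))
    have hsum : ∑ a ∈ G.toFinset, l.count a = l.length := by
      have := Multiset.sum_count_eq_card hsub
      simpa using this
    have hle : ∀ a ∈ G.toFinset, l.count a ≤ 2 := fun a _ => by
      have := h3 a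
      omega
    have hb : ∑ a ∈ G.toFinset, l.count a ≤ G.toFinset.card * 2 := by
      rw [← smul_eq_mul]
      exact Finset.sum_le_card_nsmul _ _ _ hle
    have hc : G.toFinset.card ≤ G.length := List.toFinset_card_le G
    have hnod : G.Nodup := by
      rw [← List.dedup_eq_self]
      have h5 : G.dedup.length = G.length := by
        rw [← List.card_toFinset]
        omega
      exact (List.dedup_sublist G).eq_of_length h5
    have heq : ∀ a ∈ G.toFinset, l.count a = 2 := by
      by_contra hcon
      push Not at hcon
      obtain ⟨a, ha, hne⟩ := hcon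
      have hlt : ∑ a ∈ G.toFinset, l.count a < ∑ _a ∈ G.toFinset, 2 :=
        Finset.sum_lt_sum hle ⟨a, ha, lt_of_le_of_ne (hle a ha) hne⟩
      rw [Finset.sum_const, smul_eq_mul] at hlt
      omega
    have hp : l.Perm (G ++ G) := by
      rw [List.perm_iff_count]
      intro a
      rw [List.count_append]
      by_cases ha : a ∈ G
      · rw [heq a (List.mem_toFinset.2 ha), List.count_eq_one_of_mem hnod ha]
      · rw [List.count_eq_zero_of_not_mem ha, List.count_eq_zero_of_not_mem
          (fun h => ha (hl a h))]
    rw [pr_perm C hp, ← sq_eq_pr]
    exact hG m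

theorem mono (C : HM K H A) (G f : List H) (N : Submodule K H)
    (hN : ∀ h ∈ N, ∀ x, C.act h x = 0) (hlen : G.length ≤ f.length)
    (hf : ∀ x ∈ f, x ∈ Submodule.span K {x | x ∈ G} ⊔ N)
    (hG : ∀ m, C.sq G m = 0) (m : C.X) : C.sq f m = 0 := by
  rw [sq_eq_pr]
  have key : ∀ (w l : List H), (∀ x ∈ w, x ∈ Submodule.span K {x | x ∈ G} ⊔ N) →
      (∀ x ∈ l, x ∈ G) → 2 * G.length ≤ w.length + l.length → ∀ m, pr C w (pr C l m) = 0 := by
    intro w
    induction w with
    | nil =>
      intro l _ hl hlen m
      exact pr_mem C G hG l hl (by simpa using hlen) m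
    | cons x w ih =>
      intro l hw hl hlen m
      have hx := hw x (List.mem_cons_self)
      have hw' : ∀ y ∈ w, y ∈ Submodule.span K {x | x ∈ G} ⊔ N := fun y hy =>
        hw y (List.mem_cons_of_mem _ hy)
      rw [List.length_cons] at hlen
      show C.act x (pr C w (pr C l m)) = 0
      obtain ⟨a, ha, b, hb, rfl⟩ := Submodule.mem_sup.1 hx
      rw [C.act_add, hN b hb, add_zero]
      clear hx hw
      induction ha using Submodule.span_induction with
      | mem g hg =>
        rw [← pr_act]
        exact ih (g :: l) hw' (by
          intro y hy
          rcases List.mem_cons.1 hy with rfl | hy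
          · exact hg
          · exact hl y hy) (by rw [List.length_cons]; omega) m
      | zero =>
        have := C.act_smul (0 : K) (0 : H) (pr C w (pr C l m))
        rw [zero_smul, map_zero, zero_smul] at this
        exact this
      | add p q _ _ hp hq => rw [C.act_add, hp, hq, add_zero]
      | smul c p _ hp => rw [C.act_smul, hp, smul_zero]
  have := key (f ++ f) [] (by
    intro x hx
    rcases List.mem_append.1 hx with h | h
    · exact hf x h
    · exact hf x h) (by intro x hx; exact absurd hx List.not_mem_nil)
    (by rw [List.length_append, List.length_nil]; omega) m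
  exact this

end Pool.Agent.Lib.MP_d9da44_co.FC
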