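import Pool.Agent.Lib.MP_d9da44_co.FC.Defs
import Pool.Agent.Lib.MP_d9da44_co.FC.MLf
import Pool.Agent.Lib.MP_d9da44_co.FC.Mono
import Pool.Agent.Lib.MP_d9da44_co.FC.CritR
import Pool.Agent.Lib.MP_d9da44_co.FC.VDefs
import Pool.Agent.Lib.MP_d9da44_co.FC.CritN

/-!
Module CritA: a list Z of vectors that is not unfree has all of span Z as subset sums.
ρ = finrank of span Z, b a basis of span Z indexed by Fin ρ, g_j : V → F_3 linear extending the
coordinate functionals (LinearMap.exists_extend), G = List.ofFn g, G' = G.map emb.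
Every φ ∈ H = (V →ₗ K) lies in span_K G' ⊔ perp (Z.map evf): φ - ∑ φ(b_j) • emb g_j vanishes on
span Z.  ¬ Unfree gives f with ⊤ ≤ span f ⊔ perp and m with sq f m ≠ 0.  f.length ≥ ρ: the K-linear map
H → (Fin ρ → K), φ ↦ (φ (b_j)) is surjective (emb g_i ↦ e_i) and kills perp, so the images of the
elements of f span K^ρ (finrank_span_le_card or similar).  Module Mono (N = perp, ML_act_zero) gives m'
with sq G' m' ≠ 0.  crit_ring and crit_cn: for v there is a sublist S with g_j (S.sum) = g_j v for all
j; if v ∈ span Z both v and S.sum are in span Z with the same coordinates, so S.sum = v.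
-/

set_option autoImplicit false

namespace Pool.Agent.Lib.MP_d9da44_co.FC

open Polynomial

variable {K V : Type} [Field K] [CharP K 3] [Algebra (ZMod 3) K] [AddCommGroup V]
  [Module (ZMod 3) V] [FiniteDimensional (ZMod 3) V]

theorem crit_A (Z : List V) (hZ : ¬ Unfree (Z.map (evf K)) ⊤) (v : V)
    (hv : v ∈ Submodule.span (ZMod 3) {x | x ∈ Z}) :
    ∃ S : List V, S.Sublist Z ∧ S.sum = v := by
  unfold Unfree at hZ
  push Not at hZ
  obtain ⟨f, -, hf, m, hm⟩ := hZ
  set W : Submodule (ZMod 3) V := Submodule.span (ZMod 3) {x | x ∈ Z} with hW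
  set b := Module.finBasis (ZMod 3) W with hb
  have hext : ∀ j, ∃ g : V →ₗ[ZMod 3] ZMod 3, g ∘ₗ W.subtype = b.coord j :=
    fun j => LinearMap.exists_extend (b.coord j)
  choose g hg using hext
  have hgc : ∀ j (z : W), g j (z : V) = b.repr z j := by
    intro j z
    have h1 := LinearMap.congr_fun (hg j) z
    simpa using h1
  have hexp : ∀ (φ : V →ₗ[ZMod 3] K) (z : W), φ (z : V) =
      ∑ j, algebraMap (ZMod 3) K (b.repr z j) * φ (b j : V) := by
    intro φ z
    conv_lhs => rw [← b.sum_repr z]
    rw [AddSubmonoidClass.coe_finsetSum, map_sum]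
    refine Finset.sum_congr rfl fun j _ => ?_
    rw [Submodule.coe_smul, map_smul, Algebra.smul_def]
  -- every functional lies in `span G' ⊔ perp`
  have hdec : ∀ φ : V →ₗ[ZMod 3] K,
      φ - ∑ j, φ (b j : V) • emb K (g j) ∈ perp (Z.map (evf K)) := by
    intro φ e he
    obtain ⟨z, hz, rfl⟩ := List.mem_map.1 he
    have hzW : z ∈ W := Submodule.subset_span hz
    have h1 := hexp φ ⟨z, hzW⟩
    rw [map_sub, map_sum, sub_eq_zero]
    refine h1.trans (Finset.sum_congr rfl fun j _ => ?_)
    rw [map_smul, evf_emb, smul_eq_mul, mul_comm, ← hgc j ⟨z, hzW⟩]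
  set G : List (V →ₗ[ZMod 3] ZMod 3) := List.ofFn g with hG
  have hmemG : ∀ j, emb K (g j) ∈ G.map (emb K) := fun j =>
    List.mem_map.2 ⟨g j, (List.mem_ofFn' g (g j)).2 ⟨j, rfl⟩, rfl⟩
  -- the length of `f`
  set T : (V →ₗ[ZMod 3] K) →ₗ[K] (Fin (Module.finrank (ZMod 3) W) → K) :=
    { toFun := fun φ j => φ (b j : V)
      map_add' := fun _ _ => rfl
      map_smul' := fun _ _ => rfl } with hT
  have hTemb : ∀ i, T (emb K (g i)) = Pi.single i 1 := by
    intro i
    funext j
    show algebraMap (ZMod 3) K (g i (b j : V)) = _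
    rw [hgc i (b j), b.repr_self, Finsupp.single_apply, Pi.single_apply]
    by_cases h : i = j
    · subst h; simp
    · rw [if_neg (Ne.symm h), if_neg (Ne.symm h), map_zero]
  have hTperp : ∀ φ ∈ perp (Z.map (evf K)), T φ = 0 := by
    intro φ hφ
    have h1 : ∀ z ∈ W, φ z = 0 := by
      intro z hz
      refine Submodule.span_induction (p := fun z _ => φ z = 0) ?_ ?_ ?_ ?_ hz
      · intro x hx
        exact hφ (evf K x) (List.mem_map.2 ⟨x, hx, rfl⟩)
      · exact map_zero φ
      · intro x y _ _ hx hy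
        rw [map_add, hx, hy, add_zero]
      · intro a x _ hx
        rw [map_smul, hx, smul_zero]
    funext j
    exact h1 _ (b j).2
  have hTtop : ∀ c : Fin (Module.finrank (ZMod 3) W) → K,
      c ∈ Submodule.span K (Set.range fun i : Fin f.length => T (f.get i)) := by
    have hmem : ∀ φ : V →ₗ[ZMod 3] K,
        T φ ∈ Submodule.span K (Set.range fun i : Fin f.length => T (f.get i)) := by
      intro φ
      have h1 := hf (Submodule.mem_top (x := φ))
      obtain ⟨a, ha, c, hc, hac⟩ := Submodule.mem_sup.1 h1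
      rw [← hac, map_add, hTperp c hc, add_zero]
      refine Submodule.span_induction (p := fun z _ => T z ∈
        Submodule.span K (Set.range fun i : Fin f.length => T (f.get i))) ?_ ?_ ?_ ?_ ha
      · intro x hx
        obtain ⟨i, hi⟩ := List.get_of_mem hx
        exact Submodule.subset_span ⟨i, by show T (f.get i) = T x; rw [hi]⟩
      · rw [map_zero]; exact Submodule.zero_mem _
      · intro x y _ _ hx hy
        rw [map_add]; exact Submodule.add_mem _ hx hy
      · intro a x _ hx
        rw [map_smul]; exact Submodule.smul_mem _ _ hx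
    intro c
    have h2 : c = T (∑ i, c i • emb K (g i)) := by
      rw [map_sum]
      simp only [map_smul, hTemb]
      funext j
      simp [Finset.sum_apply, Pi.single_apply]
    rw [h2]
    exact hmem _
  have hlen : (G.map (emb K)).length ≤ f.length := by
    have h1 := finrank_le_of_span_eq_top (R := K)
      (v := fun i : Fin f.length => T (f.get i)) ((Submodule.eq_top_iff').2 hTtop)
    rw [Module.finrank_fin_fun, Fintype.card_fin] at h1
    rw [List.length_map, hG, List.length_ofFn]
    exact h1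
  -- some `m'` with `sq G' m' ≠ 0`
  have hex : ∃ m' : (ML (Z.map (evf K))).X, (ML (Z.map (evf K))).sq (G.map (emb K)) m' ≠ 0 := by
    by_contra hcon
    push Not at hcon
    refine hm (mono (ML (Z.map (evf K))) (G.map (emb K)) f (perp (Z.map (evf K)))
      (fun h hh x => ML_act_zero _ h hh x) hlen ?_ hcon m)
    intro φ _
    have h1 := hdec φ
    have h2 : φ = (∑ j, φ (b j : V) • emb K (g j)) + (φ - ∑ j, φ (b j : V) • emb K (g j)) := by
      abel
    rw [h2]
    refine Submodule.add_mem_sup (Submodule.sum_mem _ fun j _ =>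
      Submodule.smul_mem _ _ (Submodule.subset_span (hmemG j))) h1
  obtain ⟨m', hm'⟩ := hex
  obtain ⟨t, ht, hc⟩ := crit_ring (Z.map (evf K)) (G.map (emb K)) m' hm'
  obtain ⟨S, hS, hSg⟩ := crit_cn Z G t ht hc v
  refine ⟨S, hS, ?_⟩
  have hSW : S.sum ∈ W := by
    refine list_sum_mem fun x hx => Submodule.subset_span ?_
    exact hS.subset hx
  have h1 : (⟨S.sum, hSW⟩ : W) = ⟨v, hv⟩ := by
    apply b.repr.injective
    ext j
    have h2 := hSg (g j) ((List.mem_ofFn' g (g j)).2 ⟨j, rfl⟩)
    rw [← hgc j ⟨S.sum, hSW⟩, ← hgc j ⟨v, hv⟩]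
    exact h2
  exact congrArg Subtype.val h1

end Pool.Agent.Lib.MP_d9da44_co.FC
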