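import Pool.Agent.Lib.MP_d9da44_co.FC.Defs
import Pool.Agent.Lib.MP_d9da44_co.FC.NHm

/-!
Module ExM: moves for exactness.
`Ex_cone` (F1): (a,b) in F_u, u ≥ v+1, da = 0 (c = 0) and ha = db.  a = da', a' in F_(u-3);
d(b - ha') = db - h da' = 0 and b - ha' in F_(u-1), so b - ha' = db'', b'' in F_(u-1-3);
D(a', -b'') = (da', ha' + db'') = (a, b).
`Ex_kos`: iterate.  `Ex_cone_zero` (M5'): act h = 0, so D(a,b) = (da, -db) componentwise.
`Ex_mono`: clear.
-/

set_option autoImplicit false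

namespace Pool.Agent.Lib.MP_d9da44_co.FC

open Polynomial

variable {K H A : Type} [Field K] [AddCommGroup H] [Module K H] [CommRing A] [Algebra K A]

theorem Ex_mono {C : HM K H A} {v v' : ℤ} (h : C.Ex v) (hv : v ≤ v') : C.Ex v' :=
  fun u hu => h u (le_trans hv hu)

theorem Ex_cone {C : HM K H A} {v : ℤ} (hC : C.Ex v) (h : H) : (C.cone h 0).Ex (v + 1) := by
  rintro u hu ⟨a, b⟩ ⟨ha, hb⟩ hD
  have h1 : C.d a + (0 : A) • C.act h (C.act h b) = 0 := congrArg Prod.fst hD
  have h2 : C.act h a - C.d b = 0 := congrArg Prod.snd hD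
  rw [zero_smul, add_zero] at h1
  obtain ⟨a', ha', hda'⟩ := hC u (by omega) a ha h1
  have h3 : C.d (b - C.act h a') = 0 := by
    rw [map_sub, ← C.act_d, hda', ← neg_sub, h2, neg_zero]
  have h4 : b - C.act h a' ∈ C.F (u - 1) := by
    refine Submodule.sub_mem _ hb ?_
    have h5 := C.act_F h ha'
    have e1 : u - 3 + 2 = u - 1 := by ring
    rw [e1] at h5
    exact h5
  obtain ⟨b', hb', hdb'⟩ := hC (u - 1) (by omega) _ h4 h3
  refine ⟨(a', -b'), ⟨ha', ?_⟩, ?_⟩
  · have e1 : u - 1 - 3 = u - 3 - 1 := by ring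
    rw [e1] at hb'
    exact Submodule.neg_mem _ hb'
  · apply Prod.ext
    · show C.d a' + (0 : A) • C.act h (C.act h (-b')) = a
      rw [zero_smul, add_zero, hda']
    · show C.act h a' - C.d (-b') = b
      rw [map_neg, hdb']
      abel

theorem Ex_kos {C : HM K H A} {v : ℤ} (hC : C.Ex v) (l : List H) :
    (C.kos l).Ex (v + l.length) := by
  induction l generalizing C v with
  | nil =>
    have e : v + (([] : List H).length : ℤ) = v := by simp
    rw [e]
    exact hC
  | cons h l ih =>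
    have h1 := ih (Ex_cone hC h)
    have e : v + 1 + (l.length : ℤ) = v + ((h :: l).length : ℤ) := by
      rw [List.length_cons]
      push_cast
      ring
    rw [e] at h1
    exact h1

theorem Ex_cone_zero {C : HM K H A} {v : ℤ} (hC : C.Ex v) (h : H) (hh : ∀ x, C.act h x = 0)
    (c : A) : (C.cone h c).Ex (v + 1) := by
  rintro u hu ⟨a, b⟩ ⟨ha, hb⟩ hD
  have h1 : C.d a + c • C.act h (C.act h b) = 0 := congrArg Prod.fst hD
  have h2 : C.act h a - C.d b = 0 := congrArg Prod.snd hD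
  rw [hh, smul_zero, add_zero] at h1
  rw [hh, zero_sub, neg_eq_zero] at h2
  obtain ⟨a', ha', hda'⟩ := hC u (by omega) a ha h1
  obtain ⟨b', hb', hdb'⟩ := hC (u - 1) (by omega) b hb h2
  refine ⟨(a', -b'), ⟨ha', ?_⟩, ?_⟩
  · have e1 : u - 1 - 3 = u - 3 - 1 := by ring
    rw [e1] at hb'
    exact Submodule.neg_mem _ hb'
  · apply Prod.ext
    · show C.d a' + c • C.act h (C.act h (-b')) = a
      rw [hh, smul_zero, add_zero, hda']
    · show C.act h a' - C.d (-b') = b
      rw [map_neg, hdb', hh, zero_sub, neg_neg]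

end Pool.Agent.Lib.MP_d9da44_co.FC
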