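import Pool.Agent.Lib.MP_d9da44_co.FC.Defs
import Pool.Agent.Lib.MP_d9da44_co.FC.IsoB

/-!
Module Swap.
`cone_swap`: the isomorphism is `((a, b), (p, q)) ↦ ((a, p), (b, -q))`.  With
`D(a,b) = (da + β g²b, ga - db)` the differential of `(C.cone g β).cone h γ` is
`((da + β g²b + γ h²p, ga - db + γ h²q), (ha - dp - β g²q, hb - gp + dq))`, and that of
`(C.cone h γ).cone g β` on `((a,p),(b',q'))` is
`((da + γ h²p + β g²b', ha - dp + β g²q'), (ga - db' - γ h²q', gp - hb' + dq'))`;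
put b' = b, q' = -q.  Filtration: a in F_u, b and p in F_(u-1), q in F_(u-1-1) on both sides.
`kon_perm`: `List.Perm` induction (nil: refl, cons: ih applied to the cone (generalize C),
swap: cone_swap and Iso.kon, trans).
-/

set_option autoImplicit false

namespace Pool.Agent.Lib.MP_d9da44_co.FC

open Polynomial

variable {K H A : Type} [Field K] [AddCommGroup H] [Module K H] [CommRing A] [Algebra K A]

private def SwapE (C : HM K H A) : ((C.X × C.X) × (C.X × C.X)) ≃ₗ[A] ((C.X × C.X) × (C.X × C.X)) where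
  toFun x := ((x.1.1, x.2.1), (x.1.2, -x.2.2))
  invFun x := ((x.1.1, x.2.1), (x.1.2, -x.2.2))
  map_add' := by
    rintro ⟨⟨a, b⟩, ⟨p, q⟩⟩ ⟨⟨a', b'⟩, ⟨p', q'⟩⟩
    refine Prod.ext (Prod.ext rfl rfl) (Prod.ext rfl ?_)
    show -(q + q') = -q + -q'
    abel
  map_smul' := by
    rintro r ⟨⟨a, b⟩, ⟨p, q⟩⟩
    refine Prod.ext (Prod.ext rfl rfl) (Prod.ext rfl ?_)
    show -(r • q) = r • -q
    rw [smul_neg]
  left_inv := by
    rintro ⟨⟨a, b⟩, ⟨p, q⟩⟩
    refine Prod.ext (Prod.ext rfl rfl) (Prod.ext rfl ?_)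
    exact neg_neg q
  right_inv := by
    rintro ⟨⟨a, b⟩, ⟨p, q⟩⟩
    refine Prod.ext (Prod.ext rfl rfl) (Prod.ext rfl ?_)
    exact neg_neg q

theorem cone_swap (C : HM K H A) (g h : H) (b c : A) :
    ((C.cone g b).cone h c).Iso ((C.cone h c).cone g b) := by
  refine ⟨SwapE C, ?_, ?_, ?_⟩
  · rintro ⟨⟨x, y⟩, ⟨p, q⟩⟩
    refine Prod.ext (Prod.ext ?_ ?_) (Prod.ext ?_ ?_)
    · show C.d x + b • C.act g (C.act g y) + c • C.act h (C.act h p) =
        C.d x + c • C.act h (C.act h p) + b • C.act g (C.act g y)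
      abel
    · show C.act h x - (C.d p + b • C.act g (C.act g q)) =
        C.act h x - C.d p + b • C.act g (C.act g (-q))
      rw [map_neg, map_neg, smul_neg]
      abel
    · show C.act g x - C.d y + c • C.act h (C.act h q) =
        C.act g x - (C.d y + c • C.act h (C.act h (-q)))
      rw [map_neg, map_neg, smul_neg]
      abel
    · show -(C.act h y - (C.act g p - C.d q)) = C.act g p - (C.act h y - C.d (-q))
      rw [map_neg]
      abel
  · rintro u ⟨⟨x, y⟩, ⟨p, q⟩⟩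
    constructor
    · rintro ⟨⟨h1, h2⟩, ⟨h3, h4⟩⟩
      exact ⟨⟨h1, h3⟩, ⟨h2, Submodule.neg_mem _ h4⟩⟩
    · rintro ⟨⟨h1, h2⟩, ⟨h3, h4⟩⟩
      refine ⟨⟨h1, h3⟩, ⟨h2, ?_⟩⟩
      have h5 : - -q ∈ C.F (u - 1 - 1) := Submodule.neg_mem _ h4
      rw [neg_neg] at h5
      exact h5
  · rintro k ⟨⟨x, y⟩, ⟨p, q⟩⟩
    refine Prod.ext (Prod.ext rfl rfl) (Prod.ext rfl ?_)
    show -(C.act k q) = C.act k (-q)
    rw [map_neg]

theorem kon_perm {l l' : List (H × A)} (hp : l.Perm l') (C : HM K H A) :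
    (C.kon l).Iso (C.kon l') := by
  induction hp generalizing C with
  | nil => exact HM.Iso.refl C
  | cons x _ ih => exact ih (C.cone x.1 x.2)
  | swap x y l => exact (cone_swap C y.1 x.1 y.2 x.2).kon l
  | trans _ _ ih1 ih2 => exact (ih1 C).trans (ih2 C)

end Pool.Agent.Lib.MP_d9da44_co.FC
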