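import Pool.Agent.Lib.MP_d9da44_co.FC.Defs

/-!
Module Two: the key identity in characteristic 3.  The isomorphism is
`((a, b), (p, q)) ↦ ((a + c (y q - c g q), b), (p + c b, q))`, where products are actions:
`y q = act y q`, `c` is `algebraMap K A c`.  The source differential (β = c³, h = y, γ = 1) is
`((da + c³g²b + y²p, ga - db + y²q), (ya - dp - c³g²q, yb - gp + dq))`, the target differential
(β = 0, Y = y + cg, γ = 1) is `((dA + Y²P, gA - dB + Y²Q), (YA - dP, YB - gP + dQ))`.
Comparison of the four components (all elements commute, 3 = 0 in A):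
(1) da + c³g²b + y²p + c(y-cg)(yb - gp + dq)  =  da + c(y-cg)dq + (y+cg)²(p+cb):
    p: y² - cgy + c²g² = y² + 2cgy + c²g²;  b: c³g² + cy² - c²gy = cy² + 2c²gy + c³g².
(2) ga - db + y²q = ga + cg(y-cg)q - db + (y+cg)²q: q: cgy - c²g² + y² + 2cgy + c²g² = y² + 3cgy.
(3) ya - dp - c³g²q + c(ga - db + y²q) = (y+cg)(a + c(y-cg)q) - dp - c db.
(4) yb - gp + dq = (y+cg)b - g(p+cb) + dq.
Filtration: q in F_(u-1-1), so act y q and act g q are in F_u; b in F_(u-1).  The inverse is
`((a, b), (p, q)) ↦ ((a - c (y q - c g q), b), (p - c b, q))`.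
Hint: prove (3 : A) = 0 as in `HM.Om` in Defs; expand everything with map_add, map_smul,
act_add, act_smul, then `module`-like reasoning: it is convenient to move everything to one side
and show it equals `(3 : A) • (...)`; or linear_combination (exp := 1) (3=0) • ... .
-/

set_option autoImplicit false

namespace Pool.Agent.Lib.MP_d9da44_co.FC

open Polynomial

variable {K H A : Type} [Field K] [AddCommGroup H] [Module K H] [CommRing A] [Algebra K A]

private def twoE (C : HM K H A) (g y : H) (k : A) :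
    ((C.X × C.X) × (C.X × C.X)) ≃ₗ[A] ((C.X × C.X) × (C.X × C.X)) where
  toFun x := ((x.1.1 + k • (C.act y x.2.2 - k • C.act g x.2.2), x.1.2), (x.2.1 + k • x.1.2, x.2.2))
  invFun x := ((x.1.1 - k • (C.act y x.2.2 - k • C.act g x.2.2), x.1.2),
    (x.2.1 - k • x.1.2, x.2.2))
  map_add' := by
    rintro ⟨⟨a, b⟩, ⟨p, q⟩⟩ ⟨⟨a', b'⟩, ⟨p', q'⟩⟩
    refine Prod.ext (Prod.ext ?_ ?_) (Prod.ext ?_ ?_)
    · simp only [Prod.mk_add_mk, map_add]
      module
    · rfl
    · simp only [Prod.mk_add_mk]
      module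
    · rfl
  map_smul' := by
    rintro r ⟨⟨a, b⟩, ⟨p, q⟩⟩
    refine Prod.ext (Prod.ext ?_ ?_) (Prod.ext ?_ ?_)
    · simp only [Prod.smul_mk, map_smul, RingHom.id_apply]
      module
    · rfl
    · simp only [Prod.smul_mk, RingHom.id_apply]
      module
    · rfl
  left_inv := by
    rintro ⟨⟨a, b⟩, ⟨p, q⟩⟩
    refine Prod.ext (Prod.ext ?_ ?_) (Prod.ext ?_ ?_)
    · exact add_sub_cancel_right _ _
    · rfl
    · exact add_sub_cancel_right _ _
    · rfl
  right_inv := by
    rintro ⟨⟨a, b⟩, ⟨p, q⟩⟩
    refine Prod.ext (Prod.ext ?_ ?_) (Prod.ext ?_ ?_)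
    · exact sub_add_cancel _ _
    · rfl
    · exact sub_add_cancel _ _
    · rfl

theorem cone_two [CharP K 3] (C : HM K H A) (g y : H) (c : K) :
    ((C.cone g (algebraMap K A (c ^ 3))).cone y 1).Iso
      ((C.cone g 0).cone (y + c • g) 1) := by
  have h30 : (3 : K) = 0 := by exact_mod_cast CharP.cast_eq_zero K 3
  have h3 : (3 : A) = 0 := by
    have : (3 : A) = algebraMap K A 3 := (map_ofNat (algebraMap K A) 3).symm
    rw [this, h30, map_zero]
  have hY : ∀ x, C.act (y + c • g) x = C.act y x + algebraMap K A c • C.act g x := fun x => by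
    rw [C.act_add, C.act_smul]
  refine ⟨twoE C g y (algebraMap K A c), ?_, ?_, ?_⟩
  · rintro ⟨⟨a, b⟩, ⟨p, q⟩⟩
    rw [map_pow]
    generalize hk : algebraMap K A c = k at hY ⊢
    refine Prod.ext (Prod.ext ?_ ?_) (Prod.ext ?_ ?_)
    · show (C.d a + k ^ 3 • C.act g (C.act g b)) + (1 : A) • C.act y (C.act y p) +
          k • (C.act y (C.act y b - (C.act g p - C.d q)) -
            k • C.act g (C.act y b - (C.act g p - C.d q))) =
        C.d (a + k • (C.act y q - k • C.act g q)) + (0 : A) • C.act g (C.act g b) +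
          (1 : A) • C.act (y + c • g) (C.act (y + c • g) (p + k • b))
      simp only [hY, map_add, map_sub, map_smul, C.act_d, C.act_comm g y]
      match_scalars
      all_goals first | ring1 | linear_combination (-k) * h3 | linear_combination (-k ^ 2) * h3
    · show (C.act g a - C.d b) + (1 : A) • C.act y (C.act y q) =
        C.act g (a + k • (C.act y q - k • C.act g q)) - C.d b +
          (1 : A) • C.act (y + c • g) (C.act (y + c • g) q)
      simp only [hY, map_add, map_sub, map_smul, C.act_comm g y]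
      match_scalars
      all_goals first | ring1 | linear_combination (-k) * h3
    · show (C.act y a - (C.d p + k ^ 3 • C.act g (C.act g q))) +
          k • (C.act g a - C.d b + (1 : A) • C.act y (C.act y q)) =
        C.act (y + c • g) (a + k • (C.act y q - k • C.act g q)) -
          (C.d (p + k • b) + (0 : A) • C.act g (C.act g q))
      simp only [hY, map_add, map_sub, map_smul, C.act_comm g y]
      match_scalars
      all_goals ring1
    · show C.act y b - (C.act g p - C.d q) = C.act (y + c • g) b - (C.act g (p + k • b) - C.d q)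
      simp only [hY, map_add, map_smul]
      module
  · rintro u ⟨⟨a, b⟩, ⟨p, q⟩⟩
    have hq : q ∈ C.F (u - 1 - 1) → algebraMap K A c • (C.act y q - algebraMap K A c • C.act g q) ∈
        C.F u := by
      intro hq
      have h1 := C.act_F y hq
      have h2 := C.act_F g hq
      have e1 : u - 1 - 1 + 2 = u := by ring
      rw [e1] at h1 h2
      exact Submodule.smul_mem _ _ (Submodule.sub_mem _ h1 (Submodule.smul_mem _ _ h2))
    have hb : b ∈ C.F (u - 1) → algebraMap K A c • b ∈ C.F (u - 1) :=
      fun hb => Submodule.smul_mem _ _ hb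
    constructor
    · rintro ⟨⟨ha, hb'⟩, ⟨hp, hq'⟩⟩
      exact ⟨⟨Submodule.add_mem _ ha (hq hq'), hb'⟩, ⟨Submodule.add_mem _ hp (hb hb'), hq'⟩⟩
    · rintro ⟨⟨ha, hb'⟩, ⟨hp, hq'⟩⟩
      exact ⟨⟨(Submodule.add_mem_iff_left _ (hq hq')).1 ha, hb'⟩,
        ⟨(Submodule.add_mem_iff_left _ (hb hb')).1 hp, hq'⟩⟩
  · rintro h ⟨⟨a, b⟩, ⟨p, q⟩⟩
    refine Prod.ext (Prod.ext ?_ ?_) (Prod.ext ?_ ?_)
    · show C.act h a + algebraMap K A c • (C.act y (C.act h q) -
          algebraMap K A c • C.act g (C.act h q)) =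
        C.act h (a + algebraMap K A c • (C.act y q - algebraMap K A c • C.act g q))
      simp only [map_add, map_sub, map_smul, C.act_comm y h, C.act_comm g h]
    · rfl
    · show C.act h p + algebraMap K A c • C.act h b = C.act h (p + algebraMap K A c • b)
      simp only [map_add, map_smul]
    · rfl

end Pool.Agent.Lib.MP_d9da44_co.FC
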