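import Pool.Agent.Lib.MP_d9da44_co.FC.Defs
import Pool.Agent.Lib.MP_d9da44_co.FC.IsoB
import Pool.Agent.Lib.MP_d9da44_co.FC.Swap
import Pool.Agent.Lib.MP_d9da44_co.FC.Two

/-!
Module Gather: induction on l generalizing C and y.
l = []: refl (the sum of the empty list is 0: use add_zero, watch the rewriting inside cone).
l = (g,c) :: l:  ((C.cone g c³).kon ..).cone y 1  ≅ (ih for C.cone g c³)
((C.cone g c³).cone (y + S) 1).kos (l.map fst), S the sum over l;  cone_two and Iso.kon:
≅ ((C.cone g 0).cone (y + S + c • g) 1).kos (l.map fst);  cone_swap and Iso.kon: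
≅ ((C.cone (y + S + c • g) 1).cone g 0).kos (l.map fst) = (C.cone Y 1).kos (g :: l.map fst),
and y + S + c • g = y + (c • g + S).
-/

set_option autoImplicit false

namespace Pool.Agent.Lib.MP_d9da44_co.FC

open Polynomial

variable {K H A : Type} [Field K] [AddCommGroup H] [Module K H] [CommRing A] [Algebra K A]

theorem gather [CharP K 3] (C : HM K H A) (l : List (H × K)) (y : H) :
    ((C.konK (l.map fun p => (p.1, p.2 ^ 3))).cone y 1).Iso
      ((C.cone (y + (l.map fun p => p.2 • p.1).sum) 1).kos (l.map Prod.fst)) := by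
  induction l generalizing C y with
  | nil =>
    have h0 : y + (([] : List (H × K)).map fun p => p.2 • p.1).sum = y := by simp
    rw [h0]
    exact HM.Iso.refl _
  | cons p l ih =>
    obtain ⟨g, c⟩ := p
    have h1 := ih (C.cone g (algebraMap K A (c ^ 3))) y
    have h3 := (cone_two C g (y + (l.map fun p => p.2 • p.1).sum) c).kon
      ((l.map Prod.fst).map fun h => (h, 0))
    have h4 := (cone_swap C g (y + (l.map fun p => p.2 • p.1).sum + c • g) 0 1).kon
      ((l.map Prod.fst).map fun h => (h, 0))
    have e : y + (((g, c) :: l).map fun p => p.2 • p.1).sum =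
        y + (l.map fun p => p.2 • p.1).sum + c • g := by
      simp only [List.map_cons, List.sum_cons]
      abel
    rw [e]
    exact h1.trans (h3.trans h4)

end Pool.Agent.Lib.MP_d9da44_co.FC
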