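import Pool.Agent.Lib.MP_d9da44_co.FC.Defs

/-!
Module Scale: the isomorphism is `(a, b) ↦ (a, t b)`, `t` acting through
`algebraMap K A t`:  D'(a, tb) = (da + (t⁻¹)³ c (th)²(tb), (th) a - t db) = (da + c h²b, t(ha - db)).
Inverse: `(a, b) ↦ (a, t⁻¹ b)`.
-/

set_option autoImplicit false

namespace Pool.Agent.Lib.MP_d9da44_co.FC

open Polynomial

variable {K H A : Type} [Field K] [AddCommGroup H] [Module K H] [CommRing A] [Algebra K A]

/-- multiplication of the second component by a unit -/
private def scaleEquiv (C : HM K H A) (τ τ' : A) (h1 : τ * τ' = 1) :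
    (C.X × C.X) ≃ₗ[A] (C.X × C.X) where
  toFun p := (p.1, τ • p.2)
  map_add' := by
    rintro ⟨a, b⟩ ⟨a', b'⟩
    simp
  map_smul' := by
    rintro r ⟨a, b⟩
    simp [smul_comm τ r]
  invFun p := (p.1, τ' • p.2)
  left_inv := by
    rintro ⟨a, b⟩
    simp only [smul_smul]
    rw [mul_comm τ' τ, h1, one_smul]
  right_inv := by
    rintro ⟨a, b⟩
    simp only [smul_smul]
    rw [h1, one_smul]

theorem cone_scale (C : HM K H A) (h : H) (c : A) (t : K) (ht : t ≠ 0) :
    (C.cone h c).Iso (C.cone (t • h) (algebraMap K A (t⁻¹ ^ 3) * c)) := by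
  have h1 : algebraMap K A t * algebraMap K A t⁻¹ = 1 := by
    rw [← map_mul, mul_inv_cancel₀ ht, map_one]
  refine ⟨scaleEquiv C (algebraMap K A t) (algebraMap K A t⁻¹) h1, ?_, ?_, ?_⟩
  · rintro ⟨a, b⟩
    apply Prod.ext
    · show C.d a + c • C.act h (C.act h b) =
        C.d a + (algebraMap K A (t⁻¹ ^ 3) * c) • C.act (t • h) (C.act (t • h)
          (algebraMap K A t • b))
      congr 1
      simp only [C.act_smul, map_smul, smul_smul]
      congr 1
      have e : algebraMap K A (t⁻¹ ^ 3) * c * algebraMap K A t * algebraMap K A t *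
          algebraMap K A t = (algebraMap K A t * algebraMap K A t⁻¹) ^ 3 * c := by
        rw [map_pow]
        ring
      have e2 : algebraMap K A (t⁻¹ ^ 3) * c * (algebraMap K A t * (algebraMap K A t *
          algebraMap K A t)) = (algebraMap K A t * algebraMap K A t⁻¹) ^ 3 * c := by
        rw [map_pow]
        ring
      first
        | rw [e, h1, one_pow, one_mul]
        | rw [e2, h1, one_pow, one_mul]
    · show algebraMap K A t • (C.act h a - C.d b) =
        C.act (t • h) a - C.d (algebraMap K A t • b)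
      rw [C.act_smul, map_smul, smul_sub]
  · rintro u ⟨a, b⟩
    show (a ∈ C.F u ∧ b ∈ C.F (u - 1)) ↔ (a ∈ C.F u ∧ algebraMap K A t • b ∈ C.F (u - 1))
    constructor
    · rintro ⟨ha, hb⟩
      exact ⟨ha, Submodule.smul_mem _ _ hb⟩
    · rintro ⟨ha, hb⟩
      refine ⟨ha, ?_⟩
      have h2 := Submodule.smul_mem (C.F (u - 1)) (algebraMap K A t⁻¹) hb
      rwa [smul_smul, mul_comm, h1, one_smul] at h2
  · rintro k ⟨a, b⟩
    apply Prod.ext
    · rfl
    · show algebraMap K A t • C.act k b = C.act k (algebraMap K A t • b)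
      rw [map_smul]

end Pool.Agent.Lib.MP_d9da44_co.FC
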