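import Pool.Agent.Lib.MP_d9da44_co.FC.Defs
import Pool.Agent.Lib.MP_d9da44_co.FC.IsoB
import Pool.Agent.Lib.MP_d9da44_co.FC.Scale
import Pool.Agent.Lib.MP_d9da44_co.FC.Gather
import Pool.Agent.Lib.MP_d9da44_co.FC.Swap
import Pool.Agent.Lib.MP_d9da44_co.FC.ExM

/-!
Module FibA: a fibre with c ≠ 0 is kos(cone y 1).
Choose cube roots (IsAlgClosed.exists_pow_nat_eq, 3 > 0): c = b ^ 3, b ≠ 0, and
ps = qs.map (fun p => (p.1, p.2 ^ 3)) (by induction on ps).  cone_scale with t = b:
(C.cone g (b³)) ≅ (C.cone (b • g) ((b⁻¹)³ b³ = 1)), gather with l = qs.reverse and y = b • g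
(List.map_reverse):  ≅ (C'.cone (b • g + S) 1).kos (l.reverse), S = (qs.reverse.map ..).sum in
span l.  So every Ex for the right side passes to the left side (Iso.symm, Iso.Ex).
-/

set_option autoImplicit false

namespace Pool.Agent.Lib.MP_d9da44_co.FC

open Polynomial

variable {K H : Type} [Field K] [AddCommGroup H] [Module K H]

private theorem fibA_roots [IsAlgClosed K] (ps : List (H × K)) :
    ∃ qs : List (H × K), ps = qs.map fun p => (p.1, p.2 ^ 3) := by
  induction ps with
  | nil => exact ⟨[], rfl⟩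
  | cons a l ih =>
    obtain ⟨qs, hqs⟩ := ih
    obtain ⟨b, hb⟩ := IsAlgClosed.exists_pow_nat_eq a.2 (n := 3) (by norm_num)
    refine ⟨(a.1, b) :: qs, ?_⟩
    rw [List.map_cons, ← hqs, hb]

theorem fibA [CharP K 3] [IsAlgClosed K] (C : HM K H K) (g : H) (l : List H) (c : K) (hc : c ≠ 0)
    (ps : List (H × K)) (hps : ps.map Prod.fst = l) :
    ∃ b : K, b ≠ 0 ∧ ∃ y : H, y - b • g ∈ Submodule.span K {x | x ∈ l} ∧
      (((C.konK ps.reverse).cone g c).Iso ((C.cone y 1).kos l.reverse)) := by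
  obtain ⟨b, hb⟩ := IsAlgClosed.exists_pow_nat_eq c (n := 3) (by norm_num)
  obtain ⟨qs, hqs⟩ := fibA_roots ps
  have hb0 : b ≠ 0 := by
    rintro rfl
    exact hc (by rw [← hb]; ring)
  have hql : qs.map Prod.fst = l := by
    rw [← hps, hqs, List.map_map]
    rfl
  refine ⟨b, hb0, b • g + (qs.reverse.map fun p => p.2 • p.1).sum, ?_, ?_⟩
  · rw [add_sub_cancel_left]
    refine list_sum_mem fun x hx => ?_
    obtain ⟨p, hp, rfl⟩ := List.mem_map.1 hx
    refine Submodule.smul_mem _ _ (Submodule.subset_span ?_)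
    show p.1 ∈ l
    rw [← hql]
    exact List.mem_map_of_mem (List.mem_reverse.1 hp)
  · have h1 := cone_scale (C.konK ps.reverse) g c b hb0
    have h2 : algebraMap K K (b⁻¹ ^ 3) * c = 1 := by
      rw [← hb, Algebra.algebraMap_self, RingHom.id_apply, ← mul_pow, inv_mul_cancel₀ hb0,
        one_pow]
    rw [h2] at h1
    refine h1.trans ?_
    have h3 := gather C qs.reverse (b • g)
    have h4 : (qs.reverse.map fun p => (p.1, p.2 ^ 3)) = ps.reverse := by
      rw [hqs, List.map_reverse]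
    have h5 : qs.reverse.map Prod.fst = l.reverse := by
      rw [List.map_reverse, hql]
    rw [h4, h5] at h3
    exact h3

end Pool.Agent.Lib.MP_d9da44_co.FC
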