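import Pool.Agent.Lib.MP_d9da44_co.FC.Defs

/-!
Module FibB: linear algebra for the fibre.  JJ L W, Z the functionals of L killing y, y ∈ W,
y ≠ 0, Z ≠ [].  Then Unfree Z W.  Let W0 be a complement of W ⊓ perp Z in W (exists:
complemented lattice of subspaces of W, or Submodule.exists_isCompl inside W): W0 ≤ W,
W0 ⊔ (W ⊓ perp Z) = W, W0 ⊓ (W ⊓ perp Z) = ⊥, so finrank W0 + finrank (W ⊓ perp Z) = finrank W and
finrank (W ⊓ perp Z) ≥ 1 (it contains y).
JJ Z W0: Z' sublist of Z (hence of L), nonempty, 0 ≠ w in W0 ⊓ perp Z': Unfree Z' W by JJ L W; for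
f in W0 with W0 ≤ span f ⊔ perp Z': W = W0 ⊔ (W ⊓ perp Z) ≤ span f ⊔ perp Z' (perp Z ≤ perp Z').
Last claim: f in W0 with span f = W0: W ≤ span f ⊔ perp Z, so sq f = 0 by Unfree Z W.
-/

set_option autoImplicit false

namespace Pool.Agent.Lib.MP_d9da44_co.FC

open Polynomial

variable {K H : Type} [Field K] [AddCommGroup H] [Module K H]

open Classical in
theorem fibB [CharP K 3] [FiniteDimensional K H] (L : List (H →ₗ[K] K)) (W : Submodule K H)
    (hJ : JJ L W) (y : H) (hy : y ∈ W) (hy0 : y ≠ 0) (Z : List (H →ₗ[K] K))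
    (hZ : Z = L.filter fun e => decide (e y = 0)) (hne : Z ≠ []) :
    ∃ W0 : Submodule K H, W0 ≤ W ∧ Module.finrank K W0 + 1 ≤ Module.finrank K W ∧ JJ Z W0 ∧
      ∀ f : List H, Submodule.span K {x | x ∈ f} = W0 → ∀ m : (ML Z).X, (ML Z).sq f m = 0 := by
  have hZL : Z.Sublist L := by
    rw [hZ]
    exact List.filter_sublist
  have hyZ : y ∈ perp Z := by
    intro e he
    rw [hZ, List.mem_filter] at he
    exact of_decide_eq_true he.2
  have hUn : Unfree Z W := hJ Z hZL hne ⟨y, hy, hy0, hyZ⟩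
  obtain ⟨Q, hQ⟩ := (W ⊓ perp Z).exists_isCompl
  have hmod : Q ⊓ W ⊔ (W ⊓ perp Z) = W := by
    rw [sup_comm, ← sup_inf_assoc_of_le _ (inf_le_left : W ⊓ perp Z ≤ W), hQ.sup_eq_top,
      top_inf_eq]
  have hdis : Q ⊓ W ⊓ (W ⊓ perp Z) = ⊥ := by
    rw [eq_bot_iff, ← hQ.inf_eq_bot]
    exact le_inf inf_le_right (inf_le_left.trans inf_le_left)
  have hle : ∀ f : List H, ∀ Z' : List (H →ₗ[K] K), Z'.Sublist Z →
      Q ⊓ W ≤ Submodule.span K {x | x ∈ f} ⊔ perp Z' →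
      W ≤ Submodule.span K {x | x ∈ f} ⊔ perp Z' := by
    intro f Z' hZ' h
    have h1 : perp Z ≤ perp Z' := fun x hx e he => hx e (hZ'.subset he)
    calc W = Q ⊓ W ⊔ (W ⊓ perp Z) := hmod.symm
      _ ≤ _ := sup_le h ((inf_le_right.trans h1).trans le_sup_right)
  refine ⟨Q ⊓ W, inf_le_right, ?_, ?_, ?_⟩
  · have h1 := Submodule.finrank_sup_add_finrank_inf_eq (Q ⊓ W) (W ⊓ perp Z)
    rw [hmod, hdis, finrank_bot, add_zero] at h1
    rw [h1]
    have h2 : 0 < Module.finrank K (W ⊓ perp Z : Submodule K H) := by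
      rw [Module.finrank_pos_iff_exists_ne_zero]
      refine ⟨⟨y, hy, hyZ⟩, fun h => hy0 ?_⟩
      exact congrArg Subtype.val h
    omega
  · intro Z' hZ' hne' hw f hf hspan m
    obtain ⟨w, hwQ, hw0, hwZ⟩ := hw
    exact hJ Z' (hZ'.trans hZL) hne' ⟨w, hwQ.2, hw0, hwZ⟩ f (fun x hx => (hf x hx).2)
      (hle f Z' hZ' hspan) m
  · intro f hf m
    refine hUn f (fun x hx => ?_) (hle f Z (List.Sublist.refl _) (hf ▸ le_sup_left)) m
    have h1 : x ∈ Q ⊓ W := by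
      rw [← hf]
      exact Submodule.subset_span hx
    exact h1.2

end Pool.Agent.Lib.MP_d9da44_co.FC
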