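import Pool.Agent.Lib.MP_d9da44_co.FC.Defs

/-!
Module FlagE: existence of good flags (pure linear algebra, K infinite).
`generic_hyperplane`: W finite-dimensional, W ≠ ⊥, U_1..U_n nonzero subspaces of W: there are a
subspace W' ≤ W and h ∈ W with h ∉ W', W = W' ⊔ span {h}, and W' ⊔ U_i = W for all i.
Proof: choose 0 ≠ u_i ∈ U_i (and any 0 ≠ u_0 ∈ W); the functionals φ on W with φ(u_i) = 0 form a
proper subspace of Dual K W, and K is infinite, so some φ has φ(u_i) ≠ 0 for all i (a vector space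
over an infinite field is not a finite union of proper subspaces:
`Subspace.biUnion_ne_univ_of_top_notMem` / `Module.Dual.exists_forall_ne_zero_of_forall_exists` or
similar); W' = ker φ; h = u_0.
`JJ_hyper`: if W' ⊔ (W ⊓ perp Z) = W for all sublists Z of L with W ⊓ perp Z ≠ ⊥ (finitely many:
L.sublists), then JJ L W → JJ L W': for f in W' with W' ≤ span f ⊔ perp Z we get
W = W' ⊔ (W ⊓ perp Z) ≤ span f ⊔ perp Z.
`exists_flag`: induction on finrank W.
-/

set_option autoImplicit false

namespace Pool.Agent.Lib.MP_d9da44_co.FC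

open Polynomial

variable {K H : Type} [Field K] [AddCommGroup H] [Module K H]

private theorem ker_sup (W V : Submodule K H) (hV : V ≤ W) (φ : H →ₗ[K] K) (v : H) (hv : v ∈ V)
    (h0 : φ v ≠ 0) : (W ⊓ LinearMap.ker φ) ⊔ V = W := by
  apply le_antisymm (sup_le inf_le_left hV)
  intro w hw
  have h1 : w = (w - (φ w / φ v) • v) + (φ w / φ v) • v := by rw [sub_add_cancel]
  rw [h1]
  refine Submodule.add_mem_sup ⟨W.sub_mem hw (W.smul_mem _ (hV hv)), ?_⟩ (V.smul_mem _ hv)
  rw [SetLike.mem_coe, LinearMap.mem_ker, map_sub, map_smul, smul_eq_mul, div_mul_cancel₀ _ h0,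
    sub_self]

theorem generic_hyperplane [Infinite K] [FiniteDimensional K H] (W : Submodule K H) (hW : W ≠ ⊥)
    (U : List (Submodule K H)) (hU : ∀ V ∈ U, V ≤ W ∧ V ≠ ⊥) :
    ∃ W' : Submodule K H, ∃ h ∈ W, h ∉ W' ∧ W' ≤ W ∧ W' ⊔ Submodule.span K {h} = W ∧
      ∀ V ∈ U, W' ⊔ V = W := by
  obtain ⟨h, hhW, hh0⟩ := (Submodule.ne_bot_iff W).1 hW
  choose v hv hv0 using fun V : {V // V ∈ U} => (Submodule.ne_bot_iff V.1).1 (hU V.1 V.2).2
  have : Finite {V // V ∈ U} := (List.finite_toSet U).to_subtype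
  obtain ⟨φ, hφ⟩ := Module.exists_dual_forall_apply_ne_zero (K := K)
    (fun o : Option {V // V ∈ U} => o.elim h v) (by
      rintro (_ | V)
      · exact hh0
      · exact hv0 V)
  have hφh : φ h ≠ 0 := hφ none
  have hφv : ∀ V, φ (v V) ≠ 0 := fun V => hφ (some V)
  refine ⟨W ⊓ LinearMap.ker φ, h, hhW, fun h1 => hφh h1.2, inf_le_left, ?_, fun V hV => ?_⟩
  · exact ker_sup W _ (by rwa [Submodule.span_singleton_le_iff_mem]) φ h
      (Submodule.mem_span_singleton_self h) hφh
  · exact ker_sup W V (hU V hV).1 φ (v ⟨V, hV⟩) (hv ⟨V, hV⟩) (hφv _)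

private theorem JJ_hyper [CharP K 3] (L : List (H →ₗ[K] K)) (W W' : Submodule K H) (hle : W' ≤ W)
    (hJ : JJ L W)
    (hs : ∀ Z : List (H →ₗ[K] K), Z.Sublist L → W ⊓ perp Z ≠ ⊥ → W' ⊔ (W ⊓ perp Z) = W) :
    JJ L W' := by
  rintro Z hZ hne ⟨w, hw, hw0, hwZ⟩ f hf hspan m
  refine hJ Z hZ hne ⟨w, hle hw, hw0, hwZ⟩ f (fun x hx => hle (hf x hx)) ?_ m
  have h1 : W ⊓ perp Z ≠ ⊥ := fun h => hw0 (by
    have : w ∈ W ⊓ perp Z := ⟨hle hw, hwZ⟩
    rw [h] at this
    exact (Submodule.mem_bot K).1 this)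
  rw [← hs Z hZ h1]
  exact sup_le hspan (inf_le_right.trans le_sup_right)

theorem exists_flag [CharP K 3] [Infinite K] [FiniteDimensional K H] (L : List (H →ₗ[K] K))
    (W : Submodule K H) (h : JJ L W) :
    ∃ l : List H, Submodule.span K {x | x ∈ l} = W ∧ Flag L l ∧
      l.length = Module.finrank K W := by
  classical
  obtain ⟨n, hn⟩ : ∃ n, Module.finrank K W = n := ⟨_, rfl⟩
  induction n generalizing W with
  | zero =>
    have hW : W = ⊥ := Submodule.finrank_eq_zero.1 hn
    refine ⟨[], ?_, trivial, by rw [hn]; rfl⟩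
    rw [hW]
    simp
  | succ n ih =>
    have hW : W ≠ ⊥ := by
      rintro rfl
      rw [finrank_bot] at hn
      omega
    obtain ⟨W', x, hxW, hxW', hle, hsup, hU⟩ := generic_hyperplane W hW
      ((L.sublists.map fun Z => W ⊓ perp Z).filter fun V => decide (V ≠ ⊥)) (by
        intro V hV
        rw [List.mem_filter, List.mem_map] at hV
        obtain ⟨⟨Z, _, rfl⟩, h2⟩ := hV
        exact ⟨inf_le_left, by simpa using h2⟩)
    have hJ' : JJ L W' := by
      refine JJ_hyper L W W' hle h fun Z hZ hne => hU _ ?_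
      rw [List.mem_filter, List.mem_map]
      exact ⟨⟨Z, List.mem_sublists.2 hZ, rfl⟩, by simpa using hne⟩
    have hrank : Module.finrank K W = Module.finrank K W' + 1 := by
      have hx0 : x ≠ 0 := fun h0 => hxW' (by rw [h0]; exact W'.zero_mem)
      have h1 := Submodule.finrank_sup_add_finrank_inf_eq W' (Submodule.span K {x})
      have h2 : W' ⊓ Submodule.span K {x} = ⊥ := by
        rw [← disjoint_iff, Submodule.disjoint_span_singleton' hx0]
        exact hxW'
      rw [hsup, h2, finrank_bot, finrank_span_singleton hx0] at h1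
      omega
    obtain ⟨l, hl, hfl, hlen⟩ := ih W' hJ' (by omega)
    refine ⟨x :: l, ?_, ?_, ?_⟩
    · have h1 : {y | y ∈ x :: l} = insert x {y | y ∈ l} := by
        ext y
        simp
      rw [h1, Submodule.span_insert, hl, sup_comm, hsup]
    · have h1 : {y | y ∈ x :: l} = insert x {y | y ∈ l} := by
        ext y
        simp
      refine ⟨?_, by rw [hl]; exact hxW', hfl⟩
      rw [h1, Submodule.span_insert, hl, sup_comm, hsup]
      exact h
    · rw [List.length_cons, hlen, hrank]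

end Pool.Agent.Lib.MP_d9da44_co.FC
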