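import Pool.Agent.Lib.MP_d9da44_co.FC.Defs
import Pool.Agent.Lib.MP_d9da44_co.FC.IsoB
import Pool.Agent.Lib.MP_d9da44_co.FC.Swap
import Pool.Agent.Lib.MP_d9da44_co.FC.NHm
import Pool.Agent.Lib.MP_d9da44_co.FC.ExM

/-!
Module Kspan: compare `kos f` and `kos g` with `kos (f ++ g)`.
(C.kos f).kos g is exact from v + g.length on (Ex_kos); it equals C.kos (f ++ g) (kon_append and
List.map_append), which is isomorphic to C.kos (g ++ f) = (C.kos g).kos f (kon_perm).
Now unkos with the elements of f, null-homotopic on C.kos g by hypothesis: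
v + g.length = (v + g.length - f.length) + f.length.
-/

set_option autoImplicit false

namespace Pool.Agent.Lib.MP_d9da44_co.FC

open Polynomial

variable {K H A : Type} [Field K] [AddCommGroup H] [Module K H] [CommRing A] [Algebra K A]

theorem kspan {C : HM K H A} (f g : List H) (hfg : ∀ x ∈ f, (C.kos g).NH x) {v : ℤ}
    (h : (C.kos f).Ex v) : (C.kos g).Ex (v + g.length - f.length) := by
  have h1 : ((C.kos f).kos g).Ex (v + g.length) := Ex_kos h g
  have e1 : (C.kos f).kos g = C.kos (f ++ g) := by
    unfold HM.kos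
    rw [List.map_append, kon_append]
  have e2 : (C.kos g).kos f = C.kos (g ++ f) := by
    unfold HM.kos
    rw [List.map_append, kon_append]
  rw [e1] at h1
  have hp : ((f ++ g).map fun h => (h, (0 : A))).Perm ((g ++ f).map fun h => (h, (0 : A))) :=
    List.perm_append_comm.map _
  have h2 : (C.kos (g ++ f)).Ex (v + g.length) := (kon_perm hp C).Ex h1
  rw [← e2] at h2
  apply unkos f hfg
  have e3 : v + (g.length : ℤ) - f.length + f.length = v + g.length := by ring
  rw [e3]
  exact h2

end Pool.Agent.Lib.MP_d9da44_co.FC
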