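import Pool.Agent.Lib.MP_d9da44_co.FC.Defs

/-!
Definition of `Pp C e = C ⊗ K[x]/(x^3)`, `h` acting by `h + e(h) x`.
-/

set_option autoImplicit false

namespace Pool.Agent.Lib.MP_d9da44_co.FC

open Polynomial

variable {K H A : Type} [Field K] [AddCommGroup H] [Module K H] [CommRing A] [Algebra K A]

theorem three_eq_zero (K A : Type) [Field K] [CommRing A] [Algebra K A] [CharP K 3] :
    (3 : A) = 0 := by
  have h30 : (3 : K) = 0 := by exact_mod_cast CharP.cast_eq_zero K 3
  have : (3 : A) = algebraMap K A 3 := (map_ofNat (algebraMap K A) 3).symm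
  rw [this, h30, map_zero]

theorem add_three_eq_zero (K : Type) {A X : Type} [Field K] [CommRing A] [Algebra K A] [CharP K 3]
    [AddCommGroup X] [Module A X] (x : X) : x + x + x = 0 := by
  have : x + x + x = (3 : A) • x := by
    rw [show (3 : A) = 1 + 1 + 1 by norm_num, add_smul, add_smul, one_smul]
  rw [this, three_eq_zero K A, zero_smul]

/-- tensor product with `K[x]/(x^3)`, `h` acting by `h + e h * x` -/
def HM.Pp [CharP K 3] (C : HM K H A) (e : H →ₗ[K] K) : HM K H A where
  X := C.X × C.X × C.X
  ag := inferInstance
  md := inferInstance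
  F u := (C.F (u + 2)).prod ((C.F u).prod (C.F (u - 2)))
  anti := by
    intro u v huv x hx
    exact ⟨C.anti (by omega) hx.1, C.anti (by omega) hx.2.1, C.anti (by omega) hx.2.2⟩
  d := LinearMap.prodMap C.d (LinearMap.prodMap C.d C.d)
  dd := by
    rintro ⟨a, b, c⟩
    simp [C.dd]
  dF := by
    rintro u ⟨a, b, c⟩ ⟨ha, hb, hc⟩
    refine ⟨?_, C.dF hb, ?_⟩
    · have := C.dF ha
      have e1 : u + 2 + 3 = u + 3 + 2 := by ring
      rw [e1] at this
      exact this
    · have := C.dF hc
      have e1 : u - 2 + 3 = u + 3 - 2 := by ring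
      rw [e1] at this
      exact this
  act h :=
    { toFun := fun p => (C.act h p.1, C.act h p.2.1 + algebraMap K A (e h) • p.1,
        C.act h p.2.2 + algebraMap K A (e h) • p.2.1)
      map_add' := by
        rintro ⟨a, b, c⟩ ⟨a', b', c'⟩
        refine Prod.ext ?_ (Prod.ext ?_ ?_)
        · simp only [Prod.mk_add_mk, map_add]
        · simp only [Prod.mk_add_mk, map_add, smul_add]
          abel
        · simp only [Prod.mk_add_mk, map_add, smul_add]
          abel
      map_smul' := by
        rintro r ⟨a, b, c⟩
        refine Prod.ext ?_ (Prod.ext ?_ ?_)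
        · simp only [Prod.smul_mk, map_smul, RingHom.id_apply]
        · simp only [Prod.smul_mk, map_smul, smul_add, RingHom.id_apply]
          rw [smul_comm _ r]
        · simp only [Prod.smul_mk, map_smul, smul_add, RingHom.id_apply]
          rw [smul_comm _ r] }
  act_add := by
    rintro h h' ⟨a, b, c⟩
    refine Prod.ext ?_ (Prod.ext ?_ ?_)
    · exact C.act_add h h' a
    · show C.act (h + h') b + algebraMap K A (e (h + h')) • a =
        (C.act h b + algebraMap K A (e h) • a) + (C.act h' b + algebraMap K A (e h') • a)
      rw [C.act_add, map_add, map_add, add_smul]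
      abel
    · show C.act (h + h') c + algebraMap K A (e (h + h')) • b =
        (C.act h c + algebraMap K A (e h) • b) + (C.act h' c + algebraMap K A (e h') • b)
      rw [C.act_add, map_add, map_add, add_smul]
      abel
  act_smul := by
    rintro t h ⟨a, b, c⟩
    refine Prod.ext ?_ (Prod.ext ?_ ?_)
    · exact C.act_smul t h a
    · show C.act (t • h) b + algebraMap K A (e (t • h)) • a =
        algebraMap K A t • (C.act h b + algebraMap K A (e h) • a)
      rw [C.act_smul, map_smul, smul_eq_mul, map_mul, mul_smul, smul_add]
    · show C.act (t • h) c + algebraMap K A (e (t • h)) • b =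
        algebraMap K A t • (C.act h c + algebraMap K A (e h) • b)
      rw [C.act_smul, map_smul, smul_eq_mul, map_mul, mul_smul, smul_add]
  act_comm := by
    rintro h h' ⟨a, b, c⟩
    refine Prod.ext ?_ (Prod.ext ?_ ?_)
    · exact C.act_comm h h' a
    · show C.act h (C.act h' b + algebraMap K A (e h') • a) + algebraMap K A (e h) • C.act h' a =
        C.act h' (C.act h b + algebraMap K A (e h) • a) + algebraMap K A (e h') • C.act h a
      rw [map_add, map_add, map_smul, map_smul, C.act_comm h h' b]
      abel
    · show C.act h (C.act h' c + algebraMap K A (e h') • b) +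
          algebraMap K A (e h) • (C.act h' b + algebraMap K A (e h') • a) =
        C.act h' (C.act h c + algebraMap K A (e h) • b) +
          algebraMap K A (e h') • (C.act h b + algebraMap K A (e h) • a)
      rw [map_add, map_add, map_smul, map_smul, C.act_comm h h' c, smul_add, smul_add,
        smul_comm (algebraMap K A (e h)) (algebraMap K A (e h')) a]
      abel
  act_d := by
    rintro h ⟨a, b, c⟩
    refine Prod.ext ?_ (Prod.ext ?_ ?_)
    · exact C.act_d h a
    · show C.act h (C.d b) + algebraMap K A (e h) • C.d a =
        C.d (C.act h b + algebraMap K A (e h) • a)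
      rw [map_add, map_smul, C.act_d]
    · show C.act h (C.d c) + algebraMap K A (e h) • C.d b =
        C.d (C.act h c + algebraMap K A (e h) • b)
      rw [map_add, map_smul, C.act_d]
  act_F := by
    rintro h u ⟨a, b, c⟩ ⟨ha, hb, hc⟩
    refine ⟨?_, ?_, ?_⟩
    · have := C.act_F h ha
      have e1 : u + 2 + 2 = u + 2 + 2 := by ring
      exact this
    · exact Submodule.add_mem _ (C.act_F h hb) (Submodule.smul_mem _ _ ha)
    · have h1 := C.act_F h hc
      have e1 : u - 2 + 2 = u + 2 - 2 := by ring
      rw [e1] at h1
      refine Submodule.add_mem _ h1 (Submodule.smul_mem _ _ ?_)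
      exact C.anti (by omega) hb
  act_cube := by
    rintro h ⟨a, b, c⟩
    refine Prod.ext ?_ (Prod.ext ?_ ?_)
    · exact C.act_cube h a
    · show C.act h (C.act h (C.act h b + algebraMap K A (e h) • a) +
        algebraMap K A (e h) • C.act h a) + algebraMap K A (e h) • C.act h (C.act h a) = 0
      simp only [map_add, map_smul, C.act_cube, zero_add]
      exact add_three_eq_zero K (A := A) _
    · show C.act h (C.act h (C.act h c + algebraMap K A (e h) • b) +
          algebraMap K A (e h) • (C.act h b + algebraMap K A (e h) • a)) +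
          algebraMap K A (e h) • (C.act h (C.act h b + algebraMap K A (e h) • a) +
            algebraMap K A (e h) • C.act h a) = 0
      simp only [map_add, map_smul, C.act_cube, zero_add, smul_add]
      have h1 := add_three_eq_zero K (A := A) (algebraMap K A (e h) • C.act h (C.act h b))
      have h2 := add_three_eq_zero K (A := A)
        (algebraMap K A (e h) • algebraMap K A (e h) • C.act h a)
      calc _ = (algebraMap K A (e h) • C.act h (C.act h b) +
            algebraMap K A (e h) • C.act h (C.act h b) +
            algebraMap K A (e h) • C.act h (C.act h b)) +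
          (algebraMap K A (e h) • algebraMap K A (e h) • C.act h a +
            algebraMap K A (e h) • algebraMap K A (e h) • C.act h a +
            algebraMap K A (e h) • algebraMap K A (e h) • C.act h a) := by abel
        _ = 0 := by rw [h1, h2, add_zero]

@[simp] theorem Pp_d [CharP K 3] (C : HM K H A) (e : H →ₗ[K] K) (a b c : C.X) :
    (C.Pp e).d (a, b, c) = (C.d a, C.d b, C.d c) := rfl

@[simp] theorem Pp_act [CharP K 3] (C : HM K H A) (e : H →ₗ[K] K) (h : H) (a b c : C.X) :
    (C.Pp e).act h (a, b, c) = (C.act h a, C.act h b + algebraMap K A (e h) • a,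
      C.act h c + algebraMap K A (e h) • b) := rfl

theorem mem_Pp_F [CharP K 3] (C : HM K H A) (e : H →ₗ[K] K) (u : ℤ) (a b c : C.X) :
    (show (C.Pp e).X from (a, b, c)) ∈ (C.Pp e).F u ↔
      a ∈ C.F (u + 2) ∧ b ∈ C.F u ∧ c ∈ C.F (u - 2) :=
  Iff.rfl

end Pool.Agent.Lib.MP_d9da44_co.FC
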