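import Pool.Agent.Lib.MP_d9da44_co.FC.Defs
import Pool.Agent.Lib.MP_d9da44_co.FC.PpDef

/-!
Module PpEx: if d = 0 on C and t = e(y) ≠ 0 then cone (Pp C e) y 1 is exact everywhere.
Write Y for the action of y on Pp = C.X³: Y(a,b,c) = (ya, yb + ta, yc + tb), t through algebraMap.
Every (a,b,c) is (m0,0,0) + Y(m1,0,0) + Y²(m2,0,0) with Y(m1,0,0) = (y m1, t m1, 0) and
Y²(m2,0,0) = (y² m2, 2t y m2, t² m2):  m2 = t⁻² c, m1 = t⁻¹(b + t y m2) (2 = -1),
m0 = a - y m1 - y² m2, with m0 in F_(u+2), m1 in F_u, m2 in F_(u-2) (of C) if (a,b,c) in F_u(Pp);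
and the representation is unique: if (m0,0,0) + Y(m1,0,0) + Y²(m2,0,0) = 0 then m2 = m1 = m0 = 0.
The differential of the cone is D(p,q) = (Y² q, Y p) (d = 0).  If Y p = 0, p = m0 + Y m1 + Y² m2,
then Y m0 + Y² m1 = 0 (Y³ = 0, act_cube), so m0 = m1 = 0 and p = Y²(m2,0,0);
if Y² q = 0, q = n0 + Y n1 + Y² n2, then Y² n0 = 0, n0 = 0, q = Y (n1 + Y n2).
So (p,q) = D(n1 + Y n2, m2) with, for (p,q) in F_u of the cone (p in F_u, q in F_(u-1)):
(m2,0,0) in F_(u-4)(Pp) because m2 in F_(u-2)(C); (n1,0,0) in F_(u-3)(Pp) because n1 in F_(u-1);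
Y(n2,0,0) in F_(u-3): n2 in F_(u-1-2)(C), (n2,0,0) in F_(u-5)(Pp), act_F.
As F_(u-3) of the cone is F_(u-3) x F_(u-3-1): fine.
-/

set_option autoImplicit false

namespace Pool.Agent.Lib.MP_d9da44_co.FC

open Polynomial

variable {K H A : Type} [Field K] [AddCommGroup H] [Module K H] [CommRing A] [Algebra K A]

theorem Pp_ex [CharP K 3] (C : HM K H A) (hd : ∀ x, C.d x = 0) (e : H →ₗ[K] K) (y : H)
    (hy : e y ≠ 0) (v : ℤ) : ((C.Pp e).cone y 1).Ex v := by
  rintro u - ⟨⟨a, b, c⟩, ⟨a', b', c'⟩⟩ hF hD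
  obtain ⟨⟨hFa, hFb, hFc⟩, ⟨hFa', hFb', hFc'⟩⟩ := hF
  obtain ⟨t, ht⟩ : ∃ t : A, t = algebraMap K A (e y) := ⟨_, rfl⟩
  obtain ⟨s, hs⟩ : ∃ s : A, s = algebraMap K A (e y)⁻¹ := ⟨_, rfl⟩
  have hst : s * t = 1 := by
    rw [hs, ht, ← map_mul, inv_mul_cancel₀ hy, map_one]
  have h3 : ∀ x : C.X, x + x + x = 0 := fun x => add_three_eq_zero K (A := A) x
  have e1 : C.act y a - C.d a' = 0 :=
    congrArg (fun z : (C.X × C.X × C.X) × (C.X × C.X × C.X) => z.2.1) hD
  have e2 : C.act y b + algebraMap K A (e y) • a - C.d b' = 0 :=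
    congrArg (fun z : (C.X × C.X × C.X) × (C.X × C.X × C.X) => z.2.2.1) hD
  have e3 : C.act y c + algebraMap K A (e y) • b - C.d c' = 0 :=
    congrArg (fun z : (C.X × C.X × C.X) × (C.X × C.X × C.X) => z.2.2.2) hD
  have f1 : C.d a + (1 : A) • C.act y (C.act y a') = 0 :=
    congrArg (fun z : (C.X × C.X × C.X) × (C.X × C.X × C.X) => z.1.1) hD
  have f2 : C.d b + (1 : A) • (C.act y (C.act y b' + algebraMap K A (e y) • a') +
      algebraMap K A (e y) • C.act y a') = 0 :=
    congrArg (fun z : (C.X × C.X × C.X) × (C.X × C.X × C.X) => z.1.2.1) hD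
  have f3 : C.d c + (1 : A) • (C.act y (C.act y c' + algebraMap K A (e y) • b') +
      algebraMap K A (e y) • (C.act y b' + algebraMap K A (e y) • a')) = 0 :=
    congrArg (fun z : (C.X × C.X × C.X) × (C.X × C.X × C.X) => z.1.2.2) hD
  rw [hd, one_smul] at f1 f2 f3
  rw [hd, ← ht] at e2 e3
  rw [hd] at e1
  rw [← ht] at f2 f3
  rw [sub_zero] at e1 e2 e3
  rw [zero_add] at f1 f2 f3
  simp only [map_add, map_smul, smul_add] at f2 f3
  have g2 : C.act y c = -(t • b) := eq_neg_of_add_eq_zero_left e3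
  have g1 : C.act y b = -(t • a) := eq_neg_of_add_eq_zero_left e2
  have k1 : C.act y (C.act y c') = t • C.act y b' - t • t • a' := by
    have h1 := h3 (t • C.act y b')
    have h2 : C.act y (C.act y c') = (C.act y (C.act y c') + t • C.act y b' +
      (t • C.act y b' + t • t • a')) - (t • C.act y b' + t • C.act y b' + t • C.act y b') +
      (t • C.act y b' - t • t • a') := by abel
    rw [h2, f3, h1]
    abel
  refine ⟨((s • b' - (s * s) • C.act y c', s • c', 0), ((s * s) • c, 0, 0)), ?_, ?_⟩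
  · refine ⟨⟨?_, ?_, ?_⟩, ⟨?_, ?_, ?_⟩⟩
    · have h1 := C.act_F y hFc'
      have i1 : u - 1 - 2 + 2 = u - 3 + 2 := by ring
      have i2 : u - 1 = u - 3 + 2 := by ring
      rw [i1] at h1
      rw [i2] at hFb'
      exact Submodule.sub_mem _ (Submodule.smul_mem _ _ hFb') (Submodule.smul_mem _ _ h1)
    · have i1 : u - 1 - 2 = u - 3 := by ring
      rw [i1] at hFc'
      exact Submodule.smul_mem _ _ hFc'
    · exact Submodule.zero_mem _
    · have i1 : u - 2 = u - 3 - 1 + 2 := by ring
      rw [i1] at hFc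
      exact Submodule.smul_mem _ _ hFc
    · exact Submodule.zero_mem _
    · exact Submodule.zero_mem _
  · refine Prod.ext (Prod.ext ?_ (Prod.ext ?_ ?_)) (Prod.ext ?_ (Prod.ext ?_ ?_))
    · change C.d _ + (1 : A) • C.act y (C.act y ((s * s) • c)) = a
      rw [hd, one_smul, map_smul, map_smul, g2, map_neg, map_smul, g1]
      simp only [smul_neg, neg_neg, zero_add, smul_smul]
      have h1 : s * s * t * t = 1 := by linear_combination (s * t + 1) * hst
      first
        | rw [h1, one_smul]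
        | (rw [show s * s * (t * t) = 1 by linear_combination (s * t + 1) * hst, one_smul])
    · change C.d _ + (1 : A) • (C.act y (C.act y 0 + algebraMap K A (e y) • (s * s) • c) +
        algebraMap K A (e y) • C.act y ((s * s) • c)) = b
      rw [hd, one_smul, ← ht, map_zero, zero_add, zero_add, map_smul, map_smul, g2, smul_neg, smul_neg, smul_smul,
        smul_smul]
      have h1 : t * (s * s) * t = 1 := by linear_combination (s * t + 1) * hst
      rw [h1, one_smul]
      have h2 := h3 b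
      have h4 : -b + -b = b - (b + b + b) := by abel
      rw [h4, h2, sub_zero]
    · change C.d _ + (1 : A) • (C.act y (C.act y 0 + algebraMap K A (e y) • (0 : C.X)) +
        algebraMap K A (e y) • (C.act y 0 + algebraMap K A (e y) • (s * s) • c)) = c
      rw [hd, one_smul, ← ht, map_zero, smul_zero, add_zero, map_zero, zero_add, zero_add, zero_add, smul_smul,
        smul_smul]
      have h1 : t * t * (s * s) = 1 := by linear_combination (s * t + 1) * hst
      rw [h1, one_smul]
    · change C.act y (s • b' - (s * s) • C.act y c') - C.d _ = a'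
      rw [hd, sub_zero, map_sub, map_smul, map_smul, k1, smul_sub, smul_smul, smul_smul, smul_smul]
      have h1 : s * s * t = s := by linear_combination s * hst
      rw [h1, hst, one_smul]
      abel
    · change C.act y (s • c') + algebraMap K A (e y) • (s • b' - (s * s) • C.act y c') -
        C.d _ = b'
      rw [hd, ← ht, sub_zero, map_smul, smul_sub, smul_smul, smul_smul]
      have h1 : t * (s * s) = s := by linear_combination s * hst
      have h2 : t * s = 1 := by linear_combination hst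
      rw [h1, h2, one_smul]
      abel
    · change C.act y 0 + algebraMap K A (e y) • s • c' - C.d _ = c'
      rw [hd, ← ht, map_zero, zero_add, sub_zero, smul_smul]
      have h2 : t * s = 1 := by linear_combination hst
      rw [h2, one_smul]

end Pool.Agent.Lib.MP_d9da44_co.FC
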