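import Pool.Agent.Lib.MP_d9da44_co.FC.Defs
import Pool.Agent.Lib.MP_d9da44_co.FC.PpDef

/-!
Module PpSes: the short exact sequence Om C e → Pp C e → C,
i(a,b) = (0,a,b), p(a,b,c) = a.
i(act h (a,b)) = (0, ha, hb + e(h)a) = act h (0,a,b).  (a,b) in F_u(Om): a in F_(u+1), b in F_(u-1);
(0,a,b) in F_(u+1)(Pp): a in F_(u+1), b in F_(u+1-2).  p: F_u(Pp) → F_(u+2)(C) strict onto.
-/

set_option autoImplicit false

namespace Pool.Agent.Lib.MP_d9da44_co.FC

open Polynomial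

variable {K H A : Type} [Field K] [AddCommGroup H] [Module K H] [CommRing A] [Algebra K A]

theorem Pp_ses [CharP K 3] (C : HM K H A) (e : H →ₗ[K] K) :
    Nonempty (HM.Ses (C.Om e) (C.Pp e) C) := by
  refine ⟨{
    i := LinearMap.prod 0 LinearMap.id
    p := LinearMap.fst A C.X (C.X × C.X)
    i_inj := ?_
    p_i := ?_
    exact := ?_
    i_d := ?_
    p_d := ?_
    i_act := ?_
    p_act := ?_
    i_F := ?_
    p_F := ?_
    p_F' := ?_ }⟩
  · rintro ⟨a, b⟩ ⟨a', b'⟩ hab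
    have h1 : ((0 : C.X), (a, b)) = (0, (a', b')) := hab
    exact (Prod.ext_iff.1 h1).2
  · rintro ⟨a, b⟩
    rfl
  · rintro ⟨a, b, c⟩ h
    have h1 : a = 0 := h
    refine ⟨(b, c), ?_⟩
    show ((0 : C.X), (b, c)) = (a, b, c)
    rw [h1]
  · rintro ⟨a, b⟩
    show ((0 : C.X), (C.d a, C.d b)) = (C.d 0, C.d a, C.d b)
    rw [map_zero]
  · rintro ⟨a, b, c⟩
    rfl
  · rintro h ⟨a, b⟩
    show ((0 : C.X), (C.act h a, C.act h b + algebraMap K A (e h) • a)) =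
      (C.act h 0, C.act h a + algebraMap K A (e h) • 0, C.act h b + algebraMap K A (e h) • a)
    rw [map_zero, smul_zero, add_zero]
  · rintro h ⟨a, b, c⟩
    rfl
  · rintro u ⟨a, b⟩
    constructor
    · rintro ⟨h1, h2⟩
      refine ⟨Submodule.zero_mem _, h1, ?_⟩
      show b ∈ C.F (u + 1 - 2)
      rw [show u + 1 - 2 = u - 1 by ring]
      exact h2
    · rintro ⟨_, h1, h2⟩
      refine ⟨h1, ?_⟩
      have h3 : b ∈ C.F (u + 1 - 2) := h2
      rw [show u + 1 - 2 = u - 1 by ring] at h3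
      exact h3
  · rintro u ⟨a, b, c⟩ ⟨h1, _, _⟩
    exact h1
  · intro u y hy
    exact ⟨(y, 0, 0), ⟨hy, Submodule.zero_mem _, Submodule.zero_mem _⟩, rfl⟩

end Pool.Agent.Lib.MP_d9da44_co.FC
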