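import Pool.Agent.Lib.MP_d9da44_co.FC.Defs

/-!
Module SesM: short exact sequences.
-/

set_option autoImplicit false

namespace Pool.Agent.Lib.MP_d9da44_co.FC

open Polynomial

variable {K H A : Type} [Field K] [AddCommGroup H] [Module K H] [CommRing A] [Algebra K A]

theorem Ses_cone {C' C C'' : HM K H A} (S : HM.Ses C' C C'') (h : H) (c : A) :
    Nonempty (HM.Ses (C'.cone h c) (C.cone h c) (C''.cone h c)) := by
  refine ⟨
    { i := (LinearMap.prodMap S.i S.i : (C'.X × C'.X) →ₗ[A] (C.X × C.X))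
      p := (LinearMap.prodMap S.p S.p : (C.X × C.X) →ₗ[A] (C''.X × C''.X))
      i_inj := ?_
      p_i := ?_
      exact := ?_
      i_d := ?_
      p_d := ?_
      i_act := ?_
      p_act := ?_
      i_F := ?_
      p_F := ?_
      p_F' := ?_ }⟩
  · rintro ⟨a, b⟩ ⟨a', b'⟩ hab
    exact Prod.ext (S.i_inj (congrArg Prod.fst hab)) (S.i_inj (congrArg Prod.snd hab))
  · rintro ⟨a, b⟩
    exact Prod.ext (S.p_i a) (S.p_i b)
  · rintro ⟨a, b⟩ hab
    obtain ⟨y, hy⟩ := S.exact a (congrArg Prod.fst hab)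
    obtain ⟨z, hz⟩ := S.exact b (congrArg Prod.snd hab)
    exact ⟨((y, z) : C'.X × C'.X), Prod.ext hy hz⟩
  · rintro ⟨a, b⟩
    refine Prod.ext ?_ ?_
    · show S.i (C'.d a + c • C'.act h (C'.act h b)) =
        C.d (S.i a) + c • C.act h (C.act h (S.i b))
      rw [map_add, map_smul, S.i_d, S.i_act, S.i_act]
    · show S.i (C'.act h a - C'.d b) = C.act h (S.i a) - C.d (S.i b)
      rw [map_sub, S.i_d, S.i_act]
  · rintro ⟨a, b⟩
    refine Prod.ext ?_ ?_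
    · show S.p (C.d a + c • C.act h (C.act h b)) =
        C''.d (S.p a) + c • C''.act h (C''.act h (S.p b))
      rw [map_add, map_smul, S.p_d, S.p_act, S.p_act]
    · show S.p (C.act h a - C.d b) = C''.act h (S.p a) - C''.d (S.p b)
      rw [map_sub, S.p_d, S.p_act]
  · rintro k ⟨a, b⟩
    exact Prod.ext (S.i_act k a) (S.i_act k b)
  · rintro k ⟨a, b⟩
    exact Prod.ext (S.p_act k a) (S.p_act k b)
  · rintro u ⟨a, b⟩
    have e1 : u + 1 - 1 = u - 1 + 1 := by ring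
    constructor
    · rintro ⟨ha, hb⟩
      refine ⟨(S.i_F u a).1 ha, ?_⟩
      show S.i b ∈ C.F (u + 1 - 1)
      rw [e1]
      exact (S.i_F (u - 1) b).1 hb
    · rintro ⟨ha, hb⟩
      refine ⟨(S.i_F u a).2 ha, ?_⟩
      have hb' : S.i b ∈ C.F (u + 1 - 1) := hb
      rw [e1] at hb'
      exact (S.i_F (u - 1) b).2 hb'
  · rintro u ⟨a, b⟩ ⟨ha, hb⟩
    refine ⟨S.p_F u a ha, ?_⟩
    have e1 : u + 2 - 1 = u - 1 + 2 := by ring
    show S.p b ∈ C''.F (u + 2 - 1)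
    rw [e1]
    exact S.p_F (u - 1) b hb
  · rintro u ⟨a, b⟩ ⟨ha, hb⟩
    have e1 : u + 2 - 1 = u - 1 + 2 := by ring
    have hb' : b ∈ C''.F (u + 2 - 1) := hb
    rw [e1] at hb'
    obtain ⟨x, hx, hx'⟩ := S.p_F' u a ha
    obtain ⟨y, hy, hy'⟩ := S.p_F' (u - 1) b hb'
    exact ⟨((x, y) : C.X × C.X), ⟨hx, hy⟩, Prod.ext hx' hy'⟩

theorem Ses_kon {C' C C'' : HM K H A} (S : HM.Ses C' C C'') (l : List (H × A)) :
    Nonempty (HM.Ses (C'.kon l) (C.kon l) (C''.kon l)) := by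
  induction l generalizing C' C C'' with
  | nil => exact ⟨S⟩
  | cons p l ih =>
    obtain ⟨S'⟩ := Ses_cone S p.1 p.2
    exact ih S'

theorem Ses_Ex {C' C C'' : HM K H A} (S : HM.Ses C' C C'') (hC : ∀ v, C.Ex v) {v : ℤ}
    (h : C''.Ex v) : C'.Ex v := by
  intro u hu x hx hdx
  have h1 : C.d (S.i x) = 0 := by rw [← S.i_d, hdx, map_zero]
  obtain ⟨w, hw, hdw⟩ := hC (u + 1) (u + 1) le_rfl (S.i x) ((S.i_F u x).1 hx) h1
  have hpw : S.p w ∈ C''.F u := by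
    have := S.p_F _ w hw
    have e1 : u + 1 - 3 + 2 = u := by ring
    rwa [e1] at this
  have h2 : C''.d (S.p w) = 0 := by rw [← S.p_d, hdw, S.p_i]
  obtain ⟨y, hy, hdy⟩ := h u hu (S.p w) hpw h2
  have hy' : y ∈ C''.F (u - 5 + 2) := by
    have e1 : u - 5 + 2 = u - 3 := by ring
    rwa [e1]
  obtain ⟨y', hy1, hy2⟩ := S.p_F' (u - 5) y hy'
  have h3 : S.p (w - C.d y') = 0 := by
    rw [map_sub, S.p_d, hy2, hdy, sub_self]
  obtain ⟨w', hw'⟩ := S.exact _ h3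
  have h4 : w - C.d y' ∈ C.F (u - 3 + 1) := by
    have e1 : u + 1 - 3 = u - 3 + 1 := by ring
    have e2 : u - 5 + 3 = u - 3 + 1 := by ring
    have hd := C.dF hy1
    rw [e1] at hw
    rw [e2] at hd
    exact Submodule.sub_mem _ hw hd
  refine ⟨w', (S.i_F (u - 3) w').2 (by rw [hw']; exact h4), S.i_inj ?_⟩
  rw [S.i_d, hw', map_sub, C.dd, sub_zero, hdw]

end Pool.Agent.Lib.MP_d9da44_co.FC
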