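import Pool.Agent.Lib.MP_d9da44_co.FC.Defs
import Pool.Agent.Lib.MP_d9da44_co.FC.IsoB
import Pool.Agent.Lib.MP_d9da44_co.FC.Swap
import Pool.Agent.Lib.MP_d9da44_co.FC.ExM
import Pool.Agent.Lib.MP_d9da44_co.FC.NHm
import Pool.Agent.Lib.MP_d9da44_co.FC.SesM
import Pool.Agent.Lib.MP_d9da44_co.FC.PpDef
import Pool.Agent.Lib.MP_d9da44_co.FC.PpEx
import Pool.Agent.Lib.MP_d9da44_co.FC.PpSes
import Pool.Agent.Lib.MP_d9da44_co.FC.MLf

/-!
Module Removal.
`remove_one`: the sequence Pp_ses for C = ML L, cone and kos applied (Ses_cone, Ses_kon), the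
middle term kos(cone (Pp ..) y 1) l is exact everywhere (Pp_ex with ML_d, Ex_kos: v - l.length),
so Ses_Ex applies.
`remove_many`: induction on the list L1 of functionals with e y ≠ 0 for L1 ++ Z.
`remove`: L is a permutation of (L.filter (e y ≠ 0)) ++ (L.filter (e y = 0)) (ML_perm, Iso.cone,
Iso.kon, Iso.Ex).
`remove_act`: act y = 0 on ML Z, hence on (ML Z).kos l (induction: kos_act_zero), so from
((ML Z).kos l).Ex v we get (((ML Z).kos l).cone y 1).Ex (v+1) (Ex_cone_zero), and this is
isomorphic to ((ML Z).cone y 1).kos l by kon_perm (kon_snoc).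
-/

set_option autoImplicit false

namespace Pool.Agent.Lib.MP_d9da44_co.FC

open Polynomial

variable {K H : Type} [Field K] [CharP K 3] [AddCommGroup H] [Module K H]

theorem kon_act_zero {A : Type} [CommRing A] [Algebra K A] {C : HM K H A} {y : H}
    (hy : ∀ x, C.act y x = 0) (l : List (H × A)) (x : (C.kon l).X) : (C.kon l).act y x = 0 := by
  induction l generalizing C with
  | nil => exact hy x
  | cons p l ih =>
    refine ih (C := C.cone p.1 p.2) ?_ x
    rintro ⟨a, b⟩
    rw [cone_act, hy a, hy b]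
    rfl

theorem remove_one (L : List (H →ₗ[K] K)) (e : H →ₗ[K] K) (y : H) (hy : e y ≠ 0) (l : List H)
    {v : ℤ} (h : (((ML L).cone y 1).kos l).Ex v) : (((ML (e :: L)).cone y 1).kos l).Ex v := by
  obtain ⟨S⟩ := Pp_ses (ML L) e
  obtain ⟨S1⟩ := Ses_cone S y 1
  obtain ⟨S2⟩ := Ses_kon S1 (l.map fun h => (h, (0 : K)))
  refine Ses_Ex S2 (fun w => ?_) h
  have h1 := Ex_kos (Pp_ex (ML L) (ML_d L) e y hy (w - l.length)) l
  rw [sub_add_cancel] at h1
  exact h1

theorem remove_many (L : List (H →ₗ[K] K)) (Z : List (H →ₗ[K] K)) (y : H)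
    (hL : ∀ e ∈ L, e y ≠ 0) (l : List H)
    {v : ℤ} (h : (((ML Z).cone y 1).kos l).Ex v) : (((ML (L ++ Z)).cone y 1).kos l).Ex v := by
  induction L with
  | nil => exact h
  | cons e L ih =>
    refine remove_one (L ++ Z) e y (hL e List.mem_cons_self) l ?_
    exact ih fun e' he' => hL e' (List.mem_cons_of_mem _ he')

open Classical in
theorem remove (L : List (H →ₗ[K] K)) (y : H) (l : List H) {v : ℤ}
    (h : (((ML (L.filter fun e => decide (e y = 0))).cone y 1).kos l).Ex v) :
    (((ML L).cone y 1).kos l).Ex v := by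
  have hp : ((L.filter fun e => !decide (e y = 0)) ++
      (L.filter fun e => decide (e y = 0))).Perm L :=
    List.perm_append_comm.trans (List.filter_append_perm (fun e => decide (e y = 0)) L)
  have h1 := remove_many (L.filter fun e => !decide (e y = 0))
    (L.filter fun e => decide (e y = 0)) y (by
      intro e he
      have := (List.mem_filter.1 he).2
      simpa using this) l h
  exact (((ML_perm hp).cone y 1).kon (l.map fun h => (h, (0 : K)))).Ex h1

open Classical in
theorem remove_act (L : List (H →ₗ[K] K)) (y : H) (l : List H) {v : ℤ}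
    (h : ((ML (L.filter fun e => decide (e y = 0))).kos l).Ex v) :
    (((ML L).cone y 1).kos l).Ex (v + 1) := by
  apply remove
  have h1 : ∀ x, (ML (L.filter fun e => decide (e y = 0))).act y x = 0 := by
    intro x
    apply ML_act_zero
    intro e he
    have := (List.mem_filter.1 he).2
    simpa using this
  have h2 := Ex_cone_zero h y (kon_act_zero h1 _) 1
  have h3 := kon_snoc (ML (L.filter fun e => decide (e y = 0)))
    (l.map fun h => (h, (0 : K))) (y, 1)
  have h4 : ((ML (L.filter fun e => decide (e y = 0))).kon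
      ((l.map fun h => (h, (0 : K))) ++ [(y, 1)])).Ex (v + 1) := by
    rw [h3]
    exact h2
  have hp : ((l.map fun h => (h, (0 : K))) ++ [(y, (1 : K))]).Perm
      ((y, (1 : K)) :: (l.map fun h => (h, (0 : K)))) := List.perm_append_comm
  exact (kon_perm hp (ML (L.filter fun e => decide (e y = 0)))).Ex h4

end Pool.Agent.Lib.MP_d9da44_co.FC
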