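import Pool.Agent.Lib.MP_d9da44_co.FC.Defs

/-!
Module SpecM: specialisations.
`spec_cone`: ev × ev; ker and lift componentwise; ev_d uses ev_smul for the scalar a.
`spec_kon`: iterate (as Nonempty).
`spec_div`: z in F_u(D) cycle, u ≥ v, C.Ex v: ev z = d w0, w0 in F_(u-3), lift w; z - Dw in F_u has
ev = 0, so z - Dw = (X - c) z', z' in F_u, and (X - c) D z' = 0, so D z' = 0 by inj.
`spec_up`: D.Ex v ⇒ C.Ex v: x in F_u(C), dx = 0, lift z; ev(Dz) = 0, Dz in F_(u+3), so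
Dz = (X-c) z1, z1 in F_(u+3), (X-c) D z1 = 0, D z1 = 0, z1 = D w1, w1 in F_u; z - (X-c) w1 is a
cycle in F_u, = Dw, w in F_(u-3); apply ev: x = d(ev w).
-/

set_option autoImplicit false

namespace Pool.Agent.Lib.MP_d9da44_co.FC

open Polynomial

variable {K H A : Type} [Field K] [AddCommGroup H] [Module K H] [CommRing A] [Algebra K A]

theorem spec_cone {D : HM K H A[X]} {C : HM K H A} {c : A} (S : HM.Spec D C c) (h : H) (a : A[X]) :
    Nonempty (HM.Spec (D.cone h a) (C.cone h (a.eval c)) c) := by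
  refine ⟨?_⟩
  exact
    { ev := S.ev.prodMap S.ev
      ev_smul := by
        rintro p ⟨x, y⟩
        exact Prod.ext (S.ev_smul p x) (S.ev_smul p y)
      ev_d := by
        rintro ⟨x, y⟩
        apply Prod.ext
        · show S.ev (D.d x + a • D.act h (D.act h y)) =
            C.d (S.ev x) + a.eval c • C.act h (C.act h (S.ev y))
          rw [map_add, S.ev_smul, S.ev_act, S.ev_act, S.ev_d]
        · show S.ev (D.act h x - D.d y) = C.act h (S.ev x) - C.d (S.ev y)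
          rw [map_sub, S.ev_act, S.ev_d]
      ev_act := by
        rintro k ⟨x, y⟩
        exact Prod.ext (S.ev_act k x) (S.ev_act k y)
      ev_F := by
        rintro u ⟨x, y⟩ ⟨hx, hy⟩
        exact ⟨S.ev_F u x hx, S.ev_F (u - 1) y hy⟩
      lift := by
        rintro u ⟨x, y⟩ ⟨hx, hy⟩
        obtain ⟨x', hx', ex⟩ := S.lift u x hx
        obtain ⟨y', hy', ey⟩ := S.lift (u - 1) y hy
        exact ⟨(x', y'), ⟨hx', hy'⟩, Prod.ext ex ey⟩
      ker := by
        rintro u ⟨x, y⟩ ⟨hx, hy⟩ h0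
        obtain ⟨x', hx', ex⟩ := S.ker u x hx (congrArg Prod.fst h0)
        obtain ⟨y', hy', ey⟩ := S.ker (u - 1) y hy (congrArg Prod.snd h0)
        exact ⟨(x', y'), ⟨hx', hy'⟩, Prod.ext ex ey⟩
      inj := by
        rintro ⟨x, y⟩ h0
        exact Prod.ext (S.inj x (congrArg Prod.fst h0)) (S.inj y (congrArg Prod.snd h0)) }

theorem spec_kon {D : HM K H A[X]} {C : HM K H A} {c : A} (S : HM.Spec D C c)
    (l : List (H × A[X])) :
    Nonempty (HM.Spec (D.kon l) (C.kon (l.map fun p => (p.1, p.2.eval c))) c) := by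
  induction l generalizing D C with
  | nil => exact ⟨S⟩
  | cons p l ih =>
    obtain ⟨S'⟩ := spec_cone S p.1 p.2
    exact ih S'

theorem spec_div {D : HM K H A[X]} {C : HM K H A} {c : A} (S : HM.Spec D C c) {v : ℤ}
    (hC : C.Ex v) (u : ℤ) (hu : v ≤ u) (z : D.X) (hz : z ∈ D.F u) (hd : D.d z = 0) :
    ∃ w ∈ D.F (u - 3), ∃ z' ∈ D.F u, D.d z' = 0 ∧
      z = D.d w + (Polynomial.X - Polynomial.C c : A[X]) • z' := by
  obtain ⟨w0, hw0, hdw0⟩ := hC u hu (S.ev z) (S.ev_F u z hz) (by rw [← S.ev_d, hd, map_zero])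
  obtain ⟨w, hw, hev⟩ := S.lift (u - 3) w0 hw0
  have h1 : z - D.d w ∈ D.F u := by
    refine Submodule.sub_mem _ hz ?_
    have h2 := D.dF hw
    have e1 : u - 3 + 3 = u := by ring
    rw [e1] at h2
    exact h2
  have h2 : S.ev (z - D.d w) = 0 := by
    rw [map_sub, S.ev_d, hev, hdw0, sub_self]
  obtain ⟨z', hz', e⟩ := S.ker u _ h1 h2
  refine ⟨w, hw, z', hz', ?_, ?_⟩
  · apply S.inj
    rw [← map_smul, ← e, map_sub, hd, D.dd, sub_zero]
  · rw [← e]
    abel

theorem spec_up {D : HM K H A[X]} {C : HM K H A} {c : A} (S : HM.Spec D C c) {v : ℤ}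
    (hD : D.Ex v) : C.Ex v := by
  intro u hu x hx hdx
  obtain ⟨z, hz, ez⟩ := S.lift u x hx
  obtain ⟨z1, hz1, e1⟩ := S.ker (u + 3) (D.d z) (D.dF hz) (by rw [S.ev_d, ez, hdx])
  have h1 : D.d z1 = 0 := by
    apply S.inj
    rw [← map_smul, ← e1, D.dd]
  obtain ⟨w1, hw1, e2⟩ := hD (u + 3) (by omega) z1 hz1 h1
  have e3 : u + 3 - 3 = u := by ring
  rw [e3] at hw1
  obtain ⟨w, hw, e4⟩ := hD u hu (z - (Polynomial.X - Polynomial.C c : A[X]) • w1)
    (Submodule.sub_mem _ hz (Submodule.smul_mem _ _ hw1)) (by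
      rw [map_sub, map_smul, e2, e1, sub_self])
  refine ⟨S.ev w, S.ev_F _ _ hw, ?_⟩
  rw [← S.ev_d, e4, map_sub, S.ev_smul, ez]
  simp

end Pool.Agent.Lib.MP_d9da44_co.FC
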