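import Pool.Agent.Lib.MP_d9da44_co.FC.Defs

/-!
Module SpecPoly: C.Poly specialises to C at X = c.
ev = evaluation `PolynomialModule.eval c` (sum of c^i • p_i).  ev_smul: `PolynomialModule.eval_smul`.
ker: if p(c) = 0, all coefficients in F_u, then p = (X - c) q with
q_n = sum_(j > n) c^(j-n-1) • p_j (finite sum), coefficients in F_u.
(Alternative: induction on the degree: p - (X - c)(X^(d-1) p_d) has smaller degree and the same
value at c, where X^(d-1) p_d = single (d-1) p_d; degree 0: p = single 0 m with m = 0.)
inj: (X - c) p = 0: coefficients p_(n) = c p_(n+1) for all n (from coefficient n+1), and p has finite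
support, so all p_n = 0 (downward induction).
-/

set_option autoImplicit false

namespace Pool.Agent.Lib.MP_d9da44_co.FC

open Polynomial

variable {K H A : Type} [Field K] [AddCommGroup H] [Module K H] [CommRing A] [Algebra K A]

private theorem sp_X_sub_smul (c : A) {M : Type} [AddCommGroup M] [Module A M]
    (p : PolynomialModule A M) :
    (Polynomial.X - Polynomial.C c : A[X]) • p = (X : A[X]) • p - Polynomial.C c • p :=
  sub_smul _ _ _

private theorem sp_X_smul_single {M : Type} [AddCommGroup M] [Module A M] (i : ℕ) (m : M) :
    (X : A[X]) • PolynomialModule.single A i m = PolynomialModule.single A (i + 1) m := by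
  rw [← Polynomial.monomial_one_one_eq_X, PolynomialModule.monomial_smul_single, one_smul,
    add_comm]

private theorem sp_C_smul_single {M : Type} [AddCommGroup M] [Module A M] (c : A) (i : ℕ) (m : M) :
    Polynomial.C c • PolynomialModule.single A i m = PolynomialModule.single A i (c • m) := by
  rw [← Polynomial.monomial_zero_left, PolynomialModule.monomial_smul_single, zero_add]

private theorem sp_single_mem (C : HM K H A) {u : ℤ} {m : C.X} (hm : m ∈ C.F u) (i : ℕ) :
    (show C.Poly.X from PolynomialModule.single A i m) ∈ C.Poly.F u := by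
  rw [mem_Poly_F]
  intro n
  show (PolynomialModule.single A i m).coeff n ∈ C.F u
  rw [PolynomialModule.coeff_single]
  by_cases h : i = n
  · subst h
    rw [Finsupp.single_eq_same]
    exact hm
  · rw [Finsupp.single_eq_of_ne (Ne.symm h)]
    exact Submodule.zero_mem _

private theorem sp_div_single (C : HM K H A) (c : A) {u : ℤ} {m : C.X} (hm : m ∈ C.F u) (i : ℕ) :
    ∃ z ∈ C.Poly.F u, (show C.Poly.X from PolynomialModule.single A i m) =
      (Polynomial.X - Polynomial.C c : A[X]) • z +
        (show C.Poly.X from PolynomialModule.single A 0 (c ^ i • m)) := by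
  induction i with
  | zero =>
    refine ⟨0, Submodule.zero_mem _, ?_⟩
    rw [smul_zero, zero_add, pow_zero, one_smul]
  | succ i ih =>
    obtain ⟨z, hz, hz2⟩ := ih
    refine ⟨(X : A[X]) • z + (show C.Poly.X from PolynomialModule.single A 0 (c ^ i • m)),
      Submodule.add_mem _ (Submodule.smul_mem _ _ hz)
        (sp_single_mem C (Submodule.smul_mem _ _ hm) 0), ?_⟩
    have h1 : (show C.Poly.X from PolynomialModule.single A (i + 1) m) =
        (X : A[X]) • (show C.Poly.X from PolynomialModule.single A i m) :=
      (sp_X_smul_single i m).symm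
    have h2 : (show C.Poly.X from PolynomialModule.single A 0 (c ^ (i + 1) • m)) =
        Polynomial.C c • (show C.Poly.X from PolynomialModule.single A 0 (c ^ i • m)) := by
      rw [pow_succ', mul_smul]
      exact (sp_C_smul_single c 0 _).symm
    rw [h1, hz2, h2]
    generalize (show C.Poly.X from PolynomialModule.single A 0 (c ^ i • m)) = w
    rw [smul_add, smul_add, smul_smul, smul_smul, sub_smul, sub_mul, mul_sub]
    rw [mul_comm (Polynomial.C c) X]
    abel

private theorem sp_div (C : HM K H A) (c : A) {u : ℤ} (p : C.Poly.X) (hp : p ∈ C.Poly.F u) :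
    ∃ z ∈ C.Poly.F u, p = (Polynomial.X - Polynomial.C c : A[X]) • z +
        (show C.Poly.X from PolynomialModule.single A 0
          (PolynomialModule.eval c (show PolynomialModule A C.X from p))) := by
  set P : PolynomialModule A C.X → Prop := fun p => ∃ z ∈ C.Poly.F u,
    (show C.Poly.X from p) = (Polynomial.X - Polynomial.C c : A[X]) • z +
        (show C.Poly.X from PolynomialModule.single A 0 (PolynomialModule.eval c p)) with hP
  have h0 : P 0 := by
    refine ⟨0, Submodule.zero_mem _, ?_⟩
    rw [map_zero, smul_zero, zero_add, PolynomialModule.single_zero]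
  have hadd : ∀ a b, P a → P b → P (a + b) := by
    rintro a b ⟨z, hz, hz2⟩ ⟨w, hw, hw2⟩
    refine ⟨z + w, Submodule.add_mem _ hz hw, ?_⟩
    have h1 : (show C.Poly.X from a + b) = (show C.Poly.X from a) + (show C.Poly.X from b) := rfl
    have h2 : (show C.Poly.X from PolynomialModule.single A 0 (PolynomialModule.eval c (a + b))) =
        (show C.Poly.X from PolynomialModule.single A 0 (PolynomialModule.eval c a)) +
        (show C.Poly.X from PolynomialModule.single A 0 (PolynomialModule.eval c b)) := by
      rw [map_add, PolynomialModule.single_add]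
      rfl
    rw [h1, h2, smul_add]
    exact (congrArg₂ (· + ·) hz2 hw2).trans (add_add_add_comm (G := C.Poly.X) _ _ _ _)
  have hs : ∀ i, ∀ m ∈ C.F u, P (PolynomialModule.single A i m) := by
    intro i m hm
    obtain ⟨z, hz, hz2⟩ := sp_div_single C c hm i
    refine ⟨z, hz, ?_⟩
    rw [PolynomialModule.eval_single]
    exact hz2
  have hsum : (show PolynomialModule A C.X from p) = ∑ i ∈ (PolynomialModule.coeff p).support,
      PolynomialModule.single A i ((PolynomialModule.coeff p) i) := by
    apply PolynomialModule.ext
    rw [PolynomialModule.coeff_sum]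
    exact (Finsupp.sum_single (PolynomialModule.coeff p)).symm
  have hfin : P (∑ i ∈ (PolynomialModule.coeff p).support,
      PolynomialModule.single A i ((PolynomialModule.coeff p) i)) :=
    Finset.sum_induction _ P (fun a b => hadd a b) h0 fun i _ => hs i _ ((mem_Poly_F C u p).1 hp i)
  rw [← hsum] at hfin
  exact hfin

private theorem sp_inj {M : Type} [AddCommGroup M] [Module A M] (c : A) (p : PolynomialModule A M)
    (h : (Polynomial.X - Polynomial.C c : A[X]) • p = 0) : p = 0 := by
  have h1 : ∀ n, p.coeff n = c • p.coeff (n + 1) := by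
    intro n
    have h2 := congrArg (fun q : PolynomialModule A M => q.coeff (n + 1)) h
    simp only [sp_X_sub_smul] at h2
    have h3 : ((X : A[X]) • p - Polynomial.C c • p).coeff (n + 1) =
        ((X : A[X]) • p).coeff (n + 1) - (Polynomial.C c • p).coeff (n + 1) := rfl
    rw [h3, X_smul_coeff_succ, C_smul_coeff] at h2
    exact sub_eq_zero.1 h2
  have h2 : ∀ k n, p.coeff n = c ^ k • p.coeff (n + k) := by
    intro k
    induction k with
    | zero => intro n; rw [pow_zero, one_smul, add_zero]
    | succ k ih =>
      intro n
      rw [ih n, h1 (n + k), smul_smul, ← pow_succ, add_assoc]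
  apply PolynomialModule.ext
  apply Finsupp.ext
  intro n
  rw [PolynomialModule.coeff_zero, Finsupp.zero_apply, h2 (p.coeff.support.sup id + 1) n]
  have h3 : p.coeff (n + (p.coeff.support.sup id + 1)) = 0 := by
    by_contra h4
    have h5 := Finset.le_sup (f := id) (Finsupp.mem_support_iff.2 h4)
    simp only [id] at h5
    omega
  rw [h3, smul_zero]

theorem spec_poly (C : HM K H A) (c : A) : Nonempty (HM.Spec C.Poly C c) := by
  refine ⟨{
    ev := (PolynomialModule.eval (M := C.X) c).toAddMonoidHom
    ev_smul := fun p x => PolynomialModule.eval_smul p x c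
    ev_d := fun x => PolynomialModule.eval_map' C.d x c
    ev_act := fun h x => PolynomialModule.eval_map' (C.act h) x c
    ev_F := ?_
    lift := ?_
    ker := ?_
    inj := fun x hx => sp_inj c x hx }⟩
  · intro u x hx
    show PolynomialModule.eval c (show PolynomialModule A C.X from x) ∈ C.F u
    rw [PolynomialModule.eval_apply]
    exact Submodule.sum_mem _ fun i _ => Submodule.smul_mem _ _ ((mem_Poly_F C u x).1 hx i)
  · intro u y hy
    refine ⟨(show C.Poly.X from PolynomialModule.single A 0 y), sp_single_mem C hy 0, ?_⟩
    show PolynomialModule.eval c (PolynomialModule.single A 0 y) = y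
    rw [PolynomialModule.eval_single, pow_zero, one_smul]
  · intro u x hx h0
    obtain ⟨z, hz, hz2⟩ := sp_div C c x hx
    refine ⟨z, hz, ?_⟩
    have h1 : PolynomialModule.eval c (show PolynomialModule A C.X from x) = 0 := h0
    rw [h1, PolynomialModule.single_zero] at hz2
    rw [hz2]
    exact add_zero _

end Pool.Agent.Lib.MP_d9da44_co.FC
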