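import Pool.Agent.Lib.MP_d9da44_co.FC.Defs
import Pool.Agent.Lib.MP_d9da44_co.FC.IsoB
import Pool.Agent.Lib.MP_d9da44_co.FC.SpecPoly
import Pool.Agent.Lib.MP_d9da44_co.FC.SpecM

/-!
Module Up: specialise all variables at 0.
Induction on l generalizing l': for h :: l, ((tow C l).M.Poly.cone h X).kos l' specialises at 0 to
((tow C l).M.cone h 0).kos l' = (tow C l).M.kos (h :: l') (spec_poly, spec_cone with X.eval 0 = 0,
spec_kon), so spec_up and the induction hypothesis with h :: l';
(h :: l).reverse ++ l' = l.reverse ++ h :: l'.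
-/

set_option autoImplicit false

namespace Pool.Agent.Lib.MP_d9da44_co.FC

open Polynomial

variable {K H : Type} [Field K] [AddCommGroup H] [Module K H]

theorem tow_up (C : HM K H K) (l l' : List H) {v : ℤ} (h : ((tow C l).M.kos l').Ex v) :
    (C.kos (l.reverse ++ l')).Ex v := by
  induction l generalizing l' with
  | nil => exact h
  | cons k l ih =>
    have e1 : (k :: l).reverse ++ l' = l.reverse ++ k :: l' := by
      rw [List.reverse_cons, List.append_assoc]
      rfl
    rw [e1]
    apply ih (k :: l')
    obtain ⟨S1⟩ := spec_poly (tow C l).M (0 : (tow C l).A)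
    obtain ⟨S2⟩ := spec_cone S1 k (X : (tow C l).A[X])
    obtain ⟨S3⟩ := spec_kon S2 (l'.map fun h => (h, (0 : (tow C l).A[X])))
    have h1 := spec_up S3 (v := v) h
    rw [List.map_map] at h1
    have e2 : ((fun p : H × (tow C l).A[X] => (p.1, p.2.eval 0)) ∘
        fun h : H => (h, (0 : (tow C l).A[X]))) = fun h : H => (h, (0 : (tow C l).A)) := by
      funext h
      simp
    rw [e2, Polynomial.eval_X] at h1
    exact h1

end Pool.Agent.Lib.MP_d9da44_co.FC
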