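import Pool.Agent.Lib.MP_d9da44_co.FC.Defs
import Pool.Agent.Lib.MP_d9da44_co.FC.IsoB
import Pool.Agent.Lib.MP_d9da44_co.FC.Swap
import Pool.Agent.Lib.MP_d9da44_co.FC.NHm
import Pool.Agent.Lib.MP_d9da44_co.FC.ExM
import Pool.Agent.Lib.MP_d9da44_co.FC.Kspan
import Pool.Agent.Lib.MP_d9da44_co.FC.MLf
import Pool.Agent.Lib.MP_d9da44_co.FC.Removal
import Pool.Agent.Lib.MP_d9da44_co.FC.FibA
import Pool.Agent.Lib.MP_d9da44_co.FC.FibB
import Pool.Agent.Lib.MP_d9da44_co.FC.FlagE
import Pool.Agent.Lib.MP_d9da44_co.FC.Up

/-!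
Module Fibre: the fibres are exact from 4 s + 2 on, s = l.length.
By fibA the fibre is isomorphic to ((ML L).cone y 1).kos l.reverse, y - b g in span l, b ≠ 0; so
y ∈ W = span (g :: l), y ≠ 0 (else g ∈ span l, against Flag), and finrank W ≤ s + 1.
By remove_act it is enough to prove ((ML Z).kos l.reverse).Ex (4 s + 1), Z = L.filter (e y = 0).
Z = []: ML_nil_Ex, Ex_kos, Ex_mono: 1 + s ≤ 4 s + 1.
Z ≠ []: W0 from fibB (JJ L W is part of Flag), exists_flag for JJ Z W0: f with span f = W0,
Flag Z f, ρ = f.length = finrank W0 ≤ s.  hP Z f gives SEx for the tower with harmless cycles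
cst f (sq f m) = cst f 0 = 0 (cst_zero below), so (tow (ML Z) f).M.Ex (4ρ - 2); tow_up with l' = []:
((ML Z).kos f.reverse).Ex (4ρ - 2); kspan with g = l.reverse: every x in W0 ≤ W = span (g :: l) lies in
span (y, l) because b ≠ 0; elements of l are null-homotopic on (ML Z).kos l.reverse (NH_kon_mem), y too
(ML_act_zero, NH_zero_act, NH_kon), hence x too (NH_span).  Result: Ex (4ρ - 2 + s - ρ), and
3ρ - 2 + s ≤ 4 s + 1 (Ex_mono).
-/

set_option autoImplicit false

namespace Pool.Agent.Lib.MP_d9da44_co.FC

open Polynomial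

variable {K H : Type} [Field K] [AddCommGroup H] [Module K H]

/-- claim `P` for the tower over `f` -/
def PP [CharP K 3] (L : List (H →ₗ[K] K)) (f : List H) : Prop :=
  (tow (ML L) f).M.SEx (Sg (ML L) f) (4 * f.length - 2)

theorem cst_zero (C : HM K H K) (l : List H) : cst C l 0 = 0 := by
  induction l with
  | nil => rfl
  | cons h l ih =>
    show (PolynomialModule.single (tow C l).A 0 (cst C l 0), (0 : (tow C l).M.Poly.X)) = 0
    rw [ih, PolynomialModule.single_zero]
    rfl

theorem fibre [CharP K 3] [IsAlgClosed K] [FiniteDimensional K H] (L : List (H →ₗ[K] K)) (g : H)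
    (l : List H) (hF : Flag L (g :: l))
    (hP : ∀ (Z : List (H →ₗ[K] K)) (f : List H), Flag Z f → f.length ≤ l.length → PP Z f)
    (c : K) (hc : c ≠ 0) (ps : List (H × K)) (hps : ps.map Prod.fst = l) :
    (((ML L).konK ps.reverse).cone g c).Ex (4 * l.length + 2) := by
  classical
  have hinf : Infinite K := IsAlgClosed.instInfinite
  obtain ⟨b, hb, y, hy, hiso⟩ := fibA (ML L) g l c hc ps hps
  refine hiso.symm.Ex ?_
  obtain ⟨W, hW⟩ : ∃ W, W = Submodule.span K {x | x ∈ g :: l} := ⟨_, rfl⟩
  have hF1 : JJ L W := by rw [hW]; exact hF.1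
  have hF2 : g ∉ Submodule.span K {x | x ∈ l} := hF.2.1
  have hlW : Submodule.span K {x | x ∈ l} ≤ W := by
    rw [hW]
    exact Submodule.span_mono fun x hx => List.mem_cons_of_mem _ hx
  have hgW : g ∈ W := by
    rw [hW]
    exact Submodule.subset_span (List.mem_cons_self)
  have hy0 : y ≠ 0 := by
    intro h0
    apply hF2
    rw [h0, zero_sub] at hy
    have h1 := Submodule.smul_mem _ (-b⁻¹) hy
    rw [smul_neg, neg_smul, neg_neg, smul_smul, inv_mul_cancel₀ hb, one_smul] at h1
    exact h1
  have hyW : y ∈ W := by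
    have h1 := Submodule.add_mem _ (hlW hy) (Submodule.smul_mem _ b hgW)
    rwa [sub_add_cancel] at h1
  have hfW : Module.finrank K W ≤ l.length + 1 := by
    have h1 : {x | x ∈ g :: l} = ((g :: l).toFinset : Set H) := by
      ext x
      simp
    rw [hW, h1]
    refine (finrank_span_finset_le_card _).trans ?_
    exact (List.toFinset_card_le _).trans (by simp)
  obtain ⟨Z, hZ⟩ : ∃ Z, Z = L.filter fun e => decide (e y = 0) := ⟨_, rfl⟩
  have key : ((ML Z).kos l.reverse).Ex (4 * l.length + 1) := by
    rcases eq_or_ne Z [] with h | hne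
    · rw [h]
      refine Ex_mono (Ex_kos ML_nil_Ex l.reverse) ?_
      rw [List.length_reverse]
      omega
    · obtain ⟨W0, hW0, hfin, hJ, hsq⟩ := fibB L W hF1 y hyW hy0 Z hZ hne
      obtain ⟨f, hf1, hf2, hf3⟩ := exists_flag Z W0 hJ
      have hlen : f.length ≤ l.length := by omega
      have hPP := hP Z f hf2 hlen
      have hEx : (tow (ML Z) f).M.Ex (4 * f.length - 2) := by
        intro u hu x hx hdx
        obtain ⟨w, hw, z, ⟨m, hm⟩, hxw⟩ := hPP.ex u hu x hx hdx
        refine ⟨w, hw, ?_⟩
        rw [hxw, hm, hsq f hf1 m, cst_zero, add_zero]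
      have hEx2 : ((ML Z).kos f.reverse).Ex (4 * f.length - 2) := by
        have h1 := tow_up (ML Z) f [] hEx
        rwa [List.append_nil] at h1
      have hNHy : ((ML Z).kos l.reverse).NH y := by
        refine NH_kon (NH_zero_act fun x => ML_act_zero Z y (fun e he => ?_) x) _
        rw [hZ, List.mem_filter] at he
        exact of_decide_eq_true he.2
      have hNHl : ∀ x ∈ l, ((ML Z).kos l.reverse).NH x := by
        intro x hx
        exact NH_kon_mem (ML Z) (l.reverse.map fun h => (h, 0)) (x, 0)
          (List.mem_map.2 ⟨x, List.mem_reverse.2 hx, rfl⟩)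
      have hNH : ∀ x ∈ f.reverse, ((ML Z).kos l.reverse).NH x := by
        intro x hx
        have hxW : x ∈ W := by
          apply hW0
          rw [← hf1]
          exact Submodule.subset_span (List.mem_reverse.1 hx)
        apply NH_span (S := {y} ∪ {x | x ∈ l})
        · rintro k (hk | hk)
          · rw [Set.mem_singleton_iff] at hk
            rw [hk]
            exact hNHy
          · exact hNHl k hk
        · have hle : W ≤ Submodule.span K ({y} ∪ {x | x ∈ l}) := by
            have hlS : Submodule.span K {x | x ∈ l} ≤ Submodule.span K ({y} ∪ {x | x ∈ l}) :=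
              Submodule.span_mono Set.subset_union_right
            rw [hW, Submodule.span_le]
            intro z hz
            rcases List.mem_cons.1 hz with hz | hz
            · have h1 : y ∈ Submodule.span K ({y} ∪ {x | x ∈ l}) :=
                Submodule.subset_span (Or.inl rfl)
              have h2 := Submodule.smul_mem _ b⁻¹ (Submodule.sub_mem _ h1 (hlS hy))
              rw [sub_sub_cancel, smul_smul, inv_mul_cancel₀ hb, one_smul] at h2
              rw [hz]
              exact h2
            · exact hlS (Submodule.subset_span hz)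
          exact hle hxW
      refine Ex_mono (kspan f.reverse l.reverse hNH hEx2) ?_
      rw [List.length_reverse, List.length_reverse]
      omega
  have h1 := remove_act L y l.reverse (by rw [← hZ]; exact key)
  refine Ex_mono h1 ?_
  omega

end Pool.Agent.Lib.MP_d9da44_co.FC
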