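import Pool.Agent.Lib.MP_d9da44_co.FC.Defs

/-!
Module FinTow: finiteness of towers.
`finite_poly`: PolynomialModule A M is finite over A[X] if M is finite over A
(Mathlib/Algebra/Polynomial/Module/TensorProduct.lean: A[X] ⊗ M ≃ PolynomialModule, and
Module.Finite.base_change; or directly: the elements single 0 m_i generate).
`tow_finite`: induction on l: cone gives X × X.  `tow_ft`: A[X] is finite type over K if A is
(Algebra.FiniteType.trans with the polynomial instance).
`kon_finite`: induction.
-/

set_option autoImplicit false

namespace Pool.Agent.Lib.MP_d9da44_co.FC

open Polynomial

theorem finite_poly {A M : Type} [CommRing A] [AddCommGroup M] [Module A M] [Module.Finite A M] :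
    Module.Finite A[X] (PolynomialModule A M) := by
  obtain ⟨S, hS⟩ := Module.Finite.fg_top (R := A) (M := M)
  classical
  refine ⟨⟨S.image (fun m => PolynomialModule.single A 0 m), ?_⟩⟩
  rw [eq_top_iff]
  rintro p -
  have key : ∀ (n : ℕ) (m : M), PolynomialModule.single A n m ∈
      Submodule.span A[X] ((S.image fun m => PolynomialModule.single A 0 m : Finset _) :
        Set (PolynomialModule A M)) := by
    intro n m
    have hm : m ∈ Submodule.span A (S : Set M) := by
      rw [hS]
      exact Submodule.mem_top
    induction hm using Submodule.span_induction with
    | mem x hx =>
      have h1 : PolynomialModule.single A n x =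
          (Polynomial.monomial n (1 : A)) • PolynomialModule.single A 0 x := by
        rw [PolynomialModule.monomial_smul_single]
        simp
      rw [h1]
      apply Submodule.smul_mem
      apply Submodule.subset_span
      simp only [Finset.coe_image]
      exact Set.mem_image_of_mem _ hx
    | zero =>
      rw [PolynomialModule.single_zero]
      exact Submodule.zero_mem _
    | add x y _ _ hx hy =>
      rw [PolynomialModule.single_add]
      exact Submodule.add_mem _ hx hy
    | smul a x _ hx =>
      have h1 : PolynomialModule.single A n (a • x) =
          (Polynomial.C a) • PolynomialModule.single A n x := by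
        rw [← Polynomial.monomial_zero_left, PolynomialModule.monomial_smul_single, zero_add]
      rw [h1]
      exact Submodule.smul_mem _ _ hx
  induction p using PolynomialModule.induction_linear with
  | zero => exact Submodule.zero_mem _
  | add f g hf hg => exact Submodule.add_mem _ hf hg
  | single n m => exact key n m

variable {K H : Type} [Field K] [AddCommGroup H] [Module K H]

theorem kon_finite {A : Type} [CommRing A] [Algebra K A] (C : HM K H A) (h : Module.Finite A C.X)
    (l : List (H × A)) : Module.Finite A (C.kon l).X := by
  induction l generalizing C with
  | nil => exact h
  | cons p l ih =>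
    apply ih
    have := h
    exact (inferInstance : Module.Finite A (C.X × C.X))

theorem tow_finite (C : HM K H K) (h : Module.Finite K C.X) (l : List H) :
    Module.Finite (tow C l).A (tow C l).M.X := by
  induction l with
  | nil => exact h
  | cons k l ih =>
    have := ih
    have h1 : Module.Finite (tow C l).A[X] (PolynomialModule (tow C l).A (tow C l).M.X) :=
      finite_poly
    exact (inferInstance : Module.Finite (tow C l).A[X]
      (PolynomialModule (tow C l).A (tow C l).M.X × PolynomialModule (tow C l).A (tow C l).M.X))

private theorem FinTow_poly {A : Type} [CommRing A] [Algebra K A] (h : Algebra.FiniteType K A) :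
    Algebra.FiniteType K A[X] :=
  Algebra.FiniteType.trans h (inferInstance : Algebra.FiniteType A A[X])

theorem tow_ft (C : HM K H K) (l : List H) : Algebra.FiniteType K (tow C l).A := by
  induction l with
  | nil => exact (inferInstance : Algebra.FiniteType K K)
  | cons k l ih => exact FinTow_poly ih

end Pool.Agent.Lib.MP_d9da44_co.FC
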