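import Pool.Agent.Lib.MP_d9da44_co.FC.Defs

/-!
Module LemmaN.  K algebraically closed, A a finite type K-algebra, N finite over A, t in A.
If (t - c) N = N for all c ≠ 0 in K then t^k N = 0 for some k.
Proof: I = Ann N.  Let m be a maximal ideal containing I; claim t ∈ m.  A/m is a finite type
K-algebra and a field, hence finite over K (Nullstellensatz,
`finite_of_finite_type_of_isJacobsonRing` or `Algebra.FiniteType.isAlgebraic..`), hence K → A/m is
bijective (`IsAlgClosed.algebraMap_bijective_of_isIntegral` or similar), so t ≡ c mod m for some c in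
K.  If t ∉ m then c ≠ 0, N = (t-c)N ⊆ mN, and by Nakayama
(`Submodule.exists_sub_one_mem_and_smul_eq_zero_of_fg_of_le_smul`) there is r ≡ 1 mod m with rN = 0,
so r ∈ I ⊆ m and 1 ∈ m, a contradiction.  So t is in the Jacobson radical of I, which is the radical of
I because A is a Jacobson ring (finite type over a field): t^k ∈ I.
If also tN = N then N = 0 (`lemmaN'`: t^k N = N, or the same argument again).
-/

set_option autoImplicit false

namespace Pool.Agent.Lib.MP_d9da44_co.FC

open Polynomial

theorem lemmaN {K A N : Type} [Field K] [IsAlgClosed K] [CommRing A] [Algebra K A]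
    [Algebra.FiniteType K A] [AddCommGroup N] [Module A N] [Module.Finite A N] (t : A)
    (h : ∀ c : K, c ≠ 0 → ∀ n : N, ∃ n' : N, n = (t - algebraMap K A c) • n') :
    ∃ k : ℕ, ∀ n : N, t ^ k • n = 0 := by
  have hJ : IsJacobsonRing A := isJacobsonRing_of_finiteType (A := K) (B := A)
  have hmem : t ∈ (Module.annihilator A N).radical := by
    rw [Ideal.radical_eq_jacobson, Ideal.jacobson, Submodule.mem_sInf]
    rintro m ⟨hIm, hmax⟩
    by_contra htm
    let _ : Field (A ⧸ m) := Ideal.Quotient.field m
    have hft : Algebra.FiniteType K (A ⧸ m) := inferInstance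
    have hfin : Module.Finite K (A ⧸ m) := finite_of_finite_type_of_isJacobsonRing K (A ⧸ m)
    have hsurj : Function.Surjective (algebraMap K (A ⧸ m)) :=
      (IsAlgClosed.algebraMap_bijective_of_isIntegral (k := K) (K := A ⧸ m)).2
    obtain ⟨c, hc⟩ := hsurj (Ideal.Quotient.mk m t)
    have htc : t - algebraMap K A c ∈ m := by
      rw [← Ideal.Quotient.eq]
      exact hc.symm
    have hc0 : c ≠ 0 := by
      rintro rfl
      rw [map_zero, sub_zero] at htc
      exact htm htc
    obtain ⟨r, hr1, hr⟩ := Submodule.exists_sub_one_mem_and_smul_eq_zero_of_fg_of_le_smul m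
      (⊤ : Submodule A N) Module.Finite.fg_top (by
        intro n _
        obtain ⟨n', hn'⟩ := h c hc0 n
        rw [hn']
        exact Submodule.smul_mem_smul htc trivial)
    have hrI : r ∈ Module.annihilator A N := by
      rw [Module.mem_annihilator]
      exact fun n => hr n trivial
    apply hmax.ne_top
    rw [Ideal.eq_top_iff_one]
    have h1 : (1 : A) = r - (r - 1) := by ring
    rw [h1]
    exact m.sub_mem (hIm hrI) hr1
  obtain ⟨k, hk⟩ := hmem
  exact ⟨k, fun n => (Module.mem_annihilator.1 hk) n⟩

theorem lemmaN' {K A N : Type} [Field K] [IsAlgClosed K] [CommRing A] [Algebra K A]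
    [Algebra.FiniteType K A] [AddCommGroup N] [Module A N] [Module.Finite A N] (t : A)
    (h : ∀ c : K, ∀ n : N, ∃ n' : N, n = (t - algebraMap K A c) • n') (n : N) : n = 0 := by
  obtain ⟨k, hk⟩ := lemmaN (K := K) (N := N) t fun c _ => h c
  have h1 : ∀ j : ℕ, ∀ n : N, ∃ n' : N, n = t ^ j • n' := by
    intro j
    induction j with
    | zero => exact fun n => ⟨n, by rw [pow_zero, one_smul]⟩
    | succ j ih =>
      intro n
      obtain ⟨n', hn'⟩ := ih n
      obtain ⟨n'', hn''⟩ := h 0 n'
      refine ⟨n'', ?_⟩
      rw [map_zero, sub_zero] at hn''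
      rw [hn', hn'', smul_smul, ← pow_succ]
  obtain ⟨n', hn'⟩ := h1 k n
  rw [hn', hk]

end Pool.Agent.Lib.MP_d9da44_co.FC
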