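import Pool.Agent.Lib.MP_d9da44_co.FC.Defs
import Pool.Agent.Lib.MP_d9da44_co.FC.LemmaN

/-!
Module HomN: apply lemmaN to N = Z_u / d F_(u-3), Z_u = the submodule of cycles in F_u (a
submodule of the finite module C.X over the noetherian ring A, so finite).
Concretely N = Z_u ⧸ (the submodule of Z_u of the z = d w, w in F_(u-3));
h gives for every class n a class n' with n = (t - c) n'.
-/

set_option autoImplicit false

namespace Pool.Agent.Lib.MP_d9da44_co.FC

open Polynomial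

variable {K H A : Type} [Field K] [AddCommGroup H] [Module K H] [CommRing A] [Algebra K A]

private def homN_Z (C : HM K H A) (u : ℤ) : Submodule A C.X := C.F u ⊓ LinearMap.ker C.d

private def homN_B (C : HM K H A) (u : ℤ) : Submodule A (homN_Z C u) :=
  ((C.F (u - 3)).map C.d).comap (homN_Z C u).subtype

private theorem homN_fin [Algebra.FiniteType K A] (C : HM K H A) [Module.Finite A C.X] (u : ℤ) :
    Module.Finite A (homN_Z C u ⧸ homN_B C u) := by
  have h1 : IsNoetherianRing A := Algebra.FiniteType.isNoetherianRing K A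
  have h2 : IsNoetherian A C.X := isNoetherian_of_isNoetherianRing_of_finite A C.X
  infer_instance

private theorem homN_class (C : HM K H A) (t : A) (u : ℤ) (c : K)
    (h : ∀ z ∈ C.F u, C.d z = 0 → ∃ w ∈ C.F (u - 3), ∃ z' ∈ C.F u,
      C.d z' = 0 ∧ z = C.d w + (t - algebraMap K A c) • z') (n : homN_Z C u ⧸ homN_B C u) :
    ∃ n' : homN_Z C u ⧸ homN_B C u, n = (t - algebraMap K A c) • n' := by
  obtain ⟨⟨z, hz⟩, rfl⟩ := Submodule.Quotient.mk_surjective _ n
  obtain ⟨w, hw, z', hz', hdz', hzz⟩ := h z hz.1 hz.2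
  refine ⟨Submodule.Quotient.mk ⟨z', hz', hdz'⟩, ?_⟩
  rw [← Submodule.Quotient.mk_smul, Submodule.Quotient.eq]
  refine ⟨w, hw, ?_⟩
  show C.d w = z - (t - algebraMap K A c) • z'
  rw [hzz, add_sub_cancel_right]

theorem homN [IsAlgClosed K] [Algebra.FiniteType K A] (C : HM K H A) [Module.Finite A C.X] (t : A)
    (u : ℤ)
    (h : ∀ c : K, c ≠ 0 → ∀ z ∈ C.F u, C.d z = 0 → ∃ w ∈ C.F (u - 3), ∃ z' ∈ C.F u,
      C.d z' = 0 ∧ z = C.d w + (t - algebraMap K A c) • z') :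
    ∃ k : ℕ, ∀ z ∈ C.F u, C.d z = 0 → ∃ w ∈ C.F (u - 3), t ^ k • z = C.d w := by
  have h0 := homN_fin (K := K) C u
  obtain ⟨k, hk⟩ := lemmaN (K := K) (N := homN_Z C u ⧸ homN_B C u) t
    fun c hc n => homN_class C t u c (h c hc) n
  refine ⟨k, fun z hz hdz => ?_⟩
  have h1 := hk (Submodule.Quotient.mk ⟨z, hz, hdz⟩)
  rw [← Submodule.Quotient.mk_smul, Submodule.Quotient.mk_eq_zero] at h1
  obtain ⟨w, hw, h2⟩ := h1
  exact ⟨w, hw, h2.symm⟩

theorem homN' [IsAlgClosed K] [Algebra.FiniteType K A] (C : HM K H A) [Module.Finite A C.X] (t : A)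
    (u : ℤ)
    (h : ∀ c : K, ∀ z ∈ C.F u, C.d z = 0 → ∃ w ∈ C.F (u - 3), ∃ z' ∈ C.F u,
      C.d z' = 0 ∧ z = C.d w + (t - algebraMap K A c) • z') :
    ∀ z ∈ C.F u, C.d z = 0 → ∃ w ∈ C.F (u - 3), C.d w = z := by
  intro z hz hdz
  have h0 := homN_fin (K := K) C u
  have h1 := lemmaN' (K := K) (N := homN_Z C u ⧸ homN_B C u) t
    (fun c n => homN_class C t u c (h c) n) (Submodule.Quotient.mk ⟨z, hz, hdz⟩)
  rw [Submodule.Quotient.mk_eq_zero] at h1
  obtain ⟨w, hw, h2⟩ := h1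
  exact ⟨w, hw, h2⟩

end Pool.Agent.Lib.MP_d9da44_co.FC
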