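import Pool.Agent.Lib.MP_d9da44_co.FC.Defs
import Pool.Agent.Lib.MP_d9da44_co.FC.IsoB
import Pool.Agent.Lib.MP_d9da44_co.FC.SpecPoly
import Pool.Agent.Lib.MP_d9da44_co.FC.SpecM
import Pool.Agent.Lib.MP_d9da44_co.FC.HomN
import Pool.Agent.Lib.MP_d9da44_co.FC.FinTow

/-!
Module Desc: exactness of all fibres gives exactness of the tower.
`desc`: induction on l generalizing l'.  l = []: ps = [].  l = h :: l0:
(tow C (h :: l0)).M.konK l' = ((tow C l0).M.Poly.cone h X).konK l' specialises at X = c (c in K, or
rather algebraMap K _ c) to ((tow C l0).M.cone h c).konK l' = (tow C l0).M.konK ((h,c) :: l')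
(spec_poly, spec_cone, spec_kon; (algebraMap K A[X] b).eval c = algebraMap K A b and X.eval c = c),
which is exact from v on by the induction hypothesis with (h,c) :: l' (ps ↦ ps with head (h,c):
((h,c)::ps).reverse ++ l' = ps.reverse ++ (h,c) :: l').  So spec_div gives the hypothesis of homN'
(t = X, algebraMap K A[X] c = Polynomial.C (algebraMap K A c)).
`desc_top`: the same with c ≠ 0 only and homN, for l' = [].
-/

set_option autoImplicit false

namespace Pool.Agent.Lib.MP_d9da44_co.FC

open Polynomial

variable {K H : Type} [Field K] [AddCommGroup H] [Module K H]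

private theorem desc_spec {A : Type} [CommRing A] [Algebra K A] (M : HM K H A) (g : H)
    (l' : List (H × K)) (c : K) :
    Nonempty (HM.Spec ((M.Poly.cone g X).konK l') (M.konK ((g, c) :: l'))
      (algebraMap K A c)) := by
  obtain ⟨S1⟩ := spec_poly M (algebraMap K A c)
  obtain ⟨S2⟩ := spec_cone S1 g X
  have S3 := spec_kon S2 (l'.map fun p => (p.1, algebraMap K A[X] p.2))
  have e1 : ((l'.map fun p => (p.1, algebraMap K A[X] p.2)).map
      fun p => (p.1, p.2.eval (algebraMap K A c))) =
      l'.map fun p => (p.1, algebraMap K A p.2) := by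
    rw [List.map_map]
    apply List.map_congr_left
    intro p _
    show (p.1, (algebraMap K A[X] p.2).eval (algebraMap K A c)) = (p.1, algebraMap K A p.2)
    rw [Polynomial.algebraMap_apply, Polynomial.eval_C]
  rw [e1, Polynomial.eval_X] at S3
  exact S3

private theorem desc_fin {A : Type} [CommRing A] [Algebra K A] (M : HM K H A)
    (fin : Module.Finite A M.X) (g : H) : Module.Finite A[X] (M.Poly.cone g X).X := by
  have h1 : Module.Finite A[X] (PolynomialModule A M.X) := finite_poly
  have h2 : Module.Finite A[X] (PolynomialModule A M.X × PolynomialModule A M.X) := inferInstance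
  exact h2

private theorem desc_ft {A : Type} [CommRing A] [Algebra K A] (ft : Algebra.FiniteType K A) :
    Algebra.FiniteType K A[X] := by
  have h1 : Algebra.FiniteType A A[X] := inferInstance
  exact Algebra.FiniteType.trans ft h1

private theorem desc_step [IsAlgClosed K] {A : Type} [CommRing A] [Algebra K A] (M : HM K H A)
    (ft : Algebra.FiniteType K A) (fin : Module.Finite A M.X) (g : H) (l' : List (H × K)) (v : ℤ)
    (h : ∀ c : K, (M.konK ((g, c) :: l')).Ex v) : ((M.Poly.cone g X).konK l').Ex v := by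
  intro u hu
  have i1 : Algebra.FiniteType K A[X] := desc_ft ft
  have i2 : Module.Finite A[X] ((M.Poly.cone g X).konK l').X :=
    kon_finite _ (desc_fin M fin g) _
  apply homN' ((M.Poly.cone g X).konK l') X u
  intro c z hz hd
  obtain ⟨S⟩ := desc_spec M g l' c
  obtain ⟨w, hw, z', hz', hd', e⟩ := spec_div S (h c) u hu z hz hd
  refine ⟨w, hw, z', hz', hd', ?_⟩
  rw [Polynomial.algebraMap_apply]
  exact e

private theorem desc_step' [IsAlgClosed K] {A : Type} [CommRing A] [Algebra K A] (M : HM K H A)
    (ft : Algebra.FiniteType K A) (fin : Module.Finite A M.X) (g : H) (v : ℤ)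
    (h : ∀ c : K, c ≠ 0 → (M.konK [(g, c)]).Ex v) (u : ℤ) (hu : v ≤ u)
    (z : (M.Poly.cone g X).X) (hz : z ∈ (M.Poly.cone g X).F u)
    (hd : (M.Poly.cone g X).d z = 0) :
    ∃ k : ℕ, ∃ w ∈ (M.Poly.cone g X).F (u - 3), (X : A[X]) ^ k • z = (M.Poly.cone g X).d w := by
  have i1 : Algebra.FiniteType K A[X] := desc_ft ft
  have i2 : Module.Finite A[X] (M.Poly.cone g X).X := desc_fin M fin g
  obtain ⟨k, hk⟩ := homN (M.Poly.cone g X) X u (by
    intro c hc z hz hd
    obtain ⟨S⟩ := desc_spec M g [] c
    obtain ⟨w, hw, z', hz', hd', e⟩ := spec_div S (h c hc) u hu z hz hd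
    refine ⟨w, hw, z', hz', hd', ?_⟩
    rw [Polynomial.algebraMap_apply]
    exact e)
  exact ⟨k, hk z hz hd⟩

theorem desc [IsAlgClosed K] (C : HM K H K) (hfin : Module.Finite K C.X) (l : List H)
    (l' : List (H × K)) (v : ℤ)
    (h : ∀ ps : List (H × K), ps.map Prod.fst = l → (C.konK (ps.reverse ++ l')).Ex v) :
    ((tow C l).M.konK l').Ex v := by
  induction l generalizing l' with
  | nil => exact h [] rfl
  | cons g l ih =>
    refine desc_step (tow C l).M (tow_ft C l) (tow_finite C hfin l) g l' v ?_
    intro c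
    apply ih
    intro ps hps
    have := h ((g, c) :: ps) (by rw [List.map_cons, hps])
    rw [List.reverse_cons, List.append_assoc] at this
    exact this

theorem desc_top [IsAlgClosed K] (C : HM K H K) (hfin : Module.Finite K C.X) (g : H) (l : List H)
    (v : ℤ)
    (h : ∀ c : K, c ≠ 0 → ∀ ps : List (H × K), ps.map Prod.fst = l →
      ((C.konK ps.reverse).cone g c).Ex v)
    (u : ℤ) (hu : v ≤ u) (z : (tow C (g :: l)).M.X) (hz : z ∈ (tow C (g :: l)).M.F u)
    (hd : (tow C (g :: l)).M.d z = 0) :
    ∃ k : ℕ, ∃ w ∈ (tow C (g :: l)).M.F (u - 3),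
      (show (tow C (g :: l)).A from (Polynomial.X : (tow C l).A[X])) ^ k • z =
        (tow C (g :: l)).M.d w := by
  refine desc_step' (tow C l).M (tow_ft C l) (tow_finite C hfin l) g v ?_ u hu z hz hd
  intro c hc
  apply desc C hfin
  intro ps hps
  have := h c hc ps hps
  have e : C.konK (ps.reverse ++ [(g, c)]) = (C.konK ps.reverse).cone g c := by
    show C.kon ((ps.reverse ++ [(g, c)]).map fun p => (p.1, algebraMap K K p.2)) = _
    rw [List.map_append, List.map_singleton, kon_snoc]
    rfl
  rw [e]
  exact this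

end Pool.Agent.Lib.MP_d9da44_co.FC
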