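import Pool.Agent.Lib.MP_d9da44_co.FC.Defs

/-!
Module StepA.  z a cycle in F_u of the new module (a cone), u ≥ v + 4; by induction on k: if
X^k z = D(p,q), (p,q) in F_(u-3), then z = D w + (g²σ const, 0), w in F_(u-3), S σ.
k = 0: z = D(p,q), σ = 0.
k + 1: D(p,q) = (dp + X g²q, gp - dq) = X^(k+1) z; constant coefficients: d p_0 = 0,
g p_0 - d q_0 = 0 (in C).  hS.ex at u - 3: p_0 = da' + σ1, a' in F_(u-6).
g σ1 = g p_0 - g d a' = d(q_0 - g a'), and S (g σ1), so g σ1 = 0 (hS.bd).  q_0 - g a' is a cycle in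
F_(u-4) (q_0 in F_(u-3-1), g a' in F_(u-6+2)): = db'' + σ2, b'' in F_(u-7).
Let (p',q') = (p,q) - D(const a', -const b'') in F_(u-3).  Its constant coefficients are σ1 and
q_0 - g a' - db'' = σ2, so (p',q') = (const σ1, const σ2) + X (p1,q1), where (p1,q1) is (p',q')
shifted, in F_(u-3).  D(const σ1, const σ2) = (X g² σ2, g σ1 - 0) = X (const g²σ2, 0).
So X^(k+1) z = X((const g²σ2, 0) + D(p1,q1)), and X is injective on C.Poly.X²:
X^k z = (const g²σ2, 0) + D(p1,q1).  If k = 0 we are done.  If k ≥ 1 the constant coefficient of the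
first component is 0 = g²σ2 + d(p1)_0, so g²σ2 = 0 (hS.bd), X^k z = D(p1,q1), induction.
The other fields: cyc: D(const g²σ, 0) = (const d g²σ, const g³σ) = 0 (act_cube, act_d).
act: act h (const g²σ, 0) = (const g²(hσ), 0).  bd: D(p,q) = (const g²σ, 0) gives d p_0 = g²σ, so
g²σ = 0.  X-multiplication: X_smul_coeff_zero, X_smul_coeff_succ in Defs.
-/

set_option autoImplicit false

namespace Pool.Agent.Lib.MP_d9da44_co.FC

open Polynomial

variable {K H A : Type} [Field K] [AddCommGroup H] [Module K H] [CommRing A] [Algebra K A]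

/-- the new harmless cycles -/
def newS (C : HM K H A) (S : C.X → Prop) (g : H) (x : (C.Poly.cone g X).X) : Prop :=
  ∃ y : C.X, S y ∧ x = (PolynomialModule.single A 0 (C.act g (C.act g y)), 0)

private noncomputable def stepA_k0 (C : HM K H A) : C.Poly.X →+ C.X where
  toFun p := PolynomialModule.coeff p 0
  map_zero' := rfl
  map_add' _ _ := rfl

private noncomputable def stepA_kc (C : HM K H A) : C.X →+ C.Poly.X where
  toFun m := PolynomialModule.single A 0 m
  map_zero' := PolynomialModule.single_zero 0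
  map_add' := PolynomialModule.single_add 0

private theorem stepA_k0_d (C : HM K H A) (p : C.Poly.X) :
    stepA_k0 C (C.Poly.d p) = C.d (stepA_k0 C p) := rfl

private theorem stepA_k0_act (C : HM K H A) (h : H) (p : C.Poly.X) :
    stepA_k0 C (C.Poly.act h p) = C.act h (stepA_k0 C p) := rfl

private theorem stepA_k0_X (C : HM K H A) (p : C.Poly.X) :
    stepA_k0 C ((X : A[X]) • p) = 0 := X_smul_coeff_zero (M := C.X) p

private theorem stepA_k0_kc (C : HM K H A) (m : C.X) : stepA_k0 C (stepA_kc C m) = m := by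
  show (PolynomialModule.single A 0 m).coeff 0 = m
  simp

private theorem stepA_d_kc (C : HM K H A) (m : C.X) :
    C.Poly.d (stepA_kc C m) = stepA_kc C (C.d m) :=
  PolynomialModule.map_single A C.d 0 m

private theorem stepA_act_kc (C : HM K H A) (h : H) (m : C.X) :
    C.Poly.act h (stepA_kc C m) = stepA_kc C (C.act h m) :=
  PolynomialModule.map_single A (C.act h) 0 m

private theorem stepA_kc_mem (C : HM K H A) {u : ℤ} {m : C.X} (hm : m ∈ C.F u) :
    stepA_kc C m ∈ C.Poly.F u := by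
  rw [mem_Poly_F]
  intro n
  show (PolynomialModule.single A 0 m).coeff n ∈ _
  cases n with
  | zero => simpa using hm
  | succ n =>
    have : (PolynomialModule.single A 0 m).coeff (n + 1) = 0 := by simp
    rw [this]
    exact Submodule.zero_mem _

private theorem stepA_k0_mem (C : HM K H A) {u : ℤ} {p : C.Poly.X} (hp : p ∈ C.Poly.F u) :
    stepA_k0 C p ∈ C.F u := hp 0

private theorem stepA_Xinj (C : HM K H A) {p q : C.Poly.X}
    (h : (X : A[X]) • p = (X : A[X]) • q) : p = q := by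
  have h' : (X : A[X]) • (show PolynomialModule A C.X from p) =
    (X : A[X]) • (show PolynomialModule A C.X from q) := h
  show (show PolynomialModule A C.X from p) = (show PolynomialModule A C.X from q)
  ext n
  rw [← X_smul_coeff_succ, h', X_smul_coeff_succ]

private theorem stepA_shift0 {M : Type} [AddCommGroup M] [Module A M] (p : PolynomialModule A M) :
    ∃ p1 : PolynomialModule A M, (∀ n, p1.coeff n = p.coeff (n + 1)) ∧
      p = PolynomialModule.single A 0 (p.coeff 0) + (X : A[X]) • p1 := by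
  have key : ∀ n, (PolynomialModule.ofCoeff A
      (p.coeff.comapDomain Nat.succ (Nat.succ_injective.injOn))).coeff n = p.coeff (n + 1) :=
    fun n => rfl
  refine ⟨PolynomialModule.ofCoeff A (p.coeff.comapDomain Nat.succ
    (Nat.succ_injective.injOn)), key, ?_⟩
  ext n
  rw [PolynomialModule.coeff_add, Finsupp.add_apply]
  cases n with
  | zero =>
    rw [X_smul_coeff_zero]
    simp
  | succ n =>
    rw [X_smul_coeff_succ, key]
    simp

private theorem stepA_shift (C : HM K H A) (p : C.Poly.X) :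
    ∃ p1 : C.Poly.X, (∀ u : ℤ, p ∈ C.Poly.F u → p1 ∈ C.Poly.F u) ∧
      p = stepA_kc C (stepA_k0 C p) + (X : A[X]) • p1 := by
  obtain ⟨p1, h1, h2⟩ := stepA_shift0 (M := C.X) p
  refine ⟨p1, fun u hu n => ?_, h2⟩
  rw [h1]
  exact hu (n + 1)

private theorem stepA_D (C : HM K H A) (g : H) (p q : C.Poly.X) :
    (C.Poly.cone g X).d (show (C.Poly.cone g X).X from (p, q)) =
      (show (C.Poly.cone g X).X from
        (C.Poly.d p + (X : A[X]) • C.Poly.act g (C.Poly.act g q), C.Poly.act g p - C.Poly.d q)) :=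
  rfl

private theorem stepA_one (C : HM K H A) (S : C.X → Prop) (v : ℤ) (hS : C.SEx S v)
    (g : H) (u : ℤ) (hu : v + 4 ≤ u) (z1 z2 p q : C.Poly.X)
    (hp : p ∈ C.Poly.F (u - 3)) (hq : q ∈ C.Poly.F (u - 3 - 1))
    (h1 : (X : A[X]) • z1 = C.Poly.d p + (X : A[X]) • C.Poly.act g (C.Poly.act g q))
    (h2 : (X : A[X]) • z2 = C.Poly.act g p - C.Poly.d q) :
    ∃ p1 ∈ C.Poly.F (u - 3), ∃ q1 ∈ C.Poly.F (u - 3 - 1), ∃ σ : C.X, S σ ∧
      z1 = C.Poly.d p1 + (X : A[X]) • C.Poly.act g (C.Poly.act g q1) +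
          stepA_kc C (C.act g (C.act g σ)) ∧
      z2 = C.Poly.act g p1 - C.Poly.d q1 := by
  have c1 : C.d (stepA_k0 C p) = 0 := by
    have := congrArg (stepA_k0 C) h1
    rw [map_add, stepA_k0_X, stepA_k0_X, add_zero, stepA_k0_d] at this
    exact this.symm
  have c2 : C.act g (stepA_k0 C p) = C.d (stepA_k0 C q) := by
    have := congrArg (stepA_k0 C) h2
    rw [map_sub, stepA_k0_X, stepA_k0_d, stepA_k0_act] at this
    exact (sub_eq_zero.mp this.symm)
  have hp0 := stepA_k0_mem C hp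
  have hq0 := stepA_k0_mem C hq
  obtain ⟨a', ha', σ1, hσ1, e1⟩ := hS.ex (u - 3) (by omega) _ hp0 c1
  have hgs : C.act g σ1 = C.d (stepA_k0 C q - C.act g a') := by
    rw [map_sub, ← c2, e1, map_add, C.act_d]
    abel
  have hg0 : C.act g σ1 = 0 := hS.bd _ (hS.act g _ hσ1) _ hgs.symm
  have hq1 : stepA_k0 C q - C.act g a' ∈ C.F (u - 4) := by
    refine Submodule.sub_mem _ ?_ ?_
    · have e : u - 3 - 1 = u - 4 := by ring
      rw [e] at hq0
      exact hq0
    · have := C.act_F g ha'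
      have e : u - 3 - 3 + 2 = u - 4 := by ring
      rw [e] at this
      exact this
  obtain ⟨b', hb', σ2, hσ2, e2⟩ := hS.ex (u - 4) (by omega) _ hq1 (by rw [← hgs, hg0])
  -- the corrected pair
  obtain ⟨p', hp'⟩ : ∃ p' : C.Poly.X, p' = p - (stepA_kc C (C.d a') -
    (X : A[X]) • stepA_kc C (C.act g (C.act g b'))) := ⟨_, rfl⟩
  obtain ⟨q', hq'⟩ : ∃ q' : C.Poly.X, q' = q - (stepA_kc C (C.act g a') +
    stepA_kc C (C.d b')) := ⟨_, rfl⟩
  have hb1 : C.d b' ∈ C.F (u - 3 - 1) := by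
    have := C.dF hb'
    have e : u - 4 - 3 + 3 = u - 3 - 1 := by ring
    rw [e] at this
    exact this
  have hb2 : C.act g (C.act g b') ∈ C.F (u - 3) := by
    have := C.act_F g (C.act_F g hb')
    have e : u - 4 - 3 + 2 + 2 = u - 3 := by ring
    rw [e] at this
    exact this
  have ha1 : C.d a' ∈ C.F (u - 3) := by
    have := C.dF ha'
    have e : u - 3 - 3 + 3 = u - 3 := by ring
    rw [e] at this
    exact this
  have ha2 : C.act g a' ∈ C.F (u - 3 - 1) := by
    have := C.act_F g ha'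
    have e : u - 3 - 3 + 2 = u - 3 - 1 := by ring
    rw [e] at this
    exact this
  have hpF : p' ∈ C.Poly.F (u - 3) := by
    rw [hp']
    exact Submodule.sub_mem _ hp (Submodule.sub_mem _ (stepA_kc_mem C ha1)
      (Submodule.smul_mem _ _ (stepA_kc_mem C hb2)))
  have hqF : q' ∈ C.Poly.F (u - 3 - 1) := by
    rw [hq']
    exact Submodule.sub_mem _ hq (Submodule.add_mem _ (stepA_kc_mem C ha2)
      (stepA_kc_mem C hb1))
  have k1 : (X : A[X]) • z1 = C.Poly.d p' + (X : A[X]) • C.Poly.act g (C.Poly.act g q') := by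
    rw [h1, hp', hq']
    simp only [map_sub, map_add, map_smul, stepA_d_kc, stepA_act_kc, C.dd, C.act_d, smul_sub,
      smul_add, map_zero, C.act_cube, smul_zero]
    abel
  have k2 : (X : A[X]) • z2 = C.Poly.act g p' - C.Poly.d q' := by
    rw [h2, hp', hq']
    simp only [map_sub, map_add, map_smul, stepA_d_kc, stepA_act_kc, C.dd, C.act_d, C.act_cube,
      map_zero, smul_zero]
    abel
  have hp'0 : stepA_k0 C p' = σ1 := by
    rw [hp']
    simp only [map_sub, stepA_k0_X, stepA_k0_kc]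
    rw [e1]
    abel
  have hq'0 : stepA_k0 C q' = σ2 := by
    rw [hq']
    simp only [map_sub, map_add, stepA_k0_kc]
    have : stepA_k0 C q - C.act g a' - C.d b' = σ2 := by
      rw [e2]
      abel
    rw [← this]
    abel
  obtain ⟨p1, hp1, ep⟩ := stepA_shift C p'
  obtain ⟨q1, hq1', eq⟩ := stepA_shift C q'
  rw [hp'0] at ep
  rw [hq'0] at eq
  refine ⟨p1, hp1 _ hpF, q1, hq1' _ hqF, σ2, hσ2, ?_, ?_⟩
  · apply stepA_Xinj
    rw [k1, ep, eq]
    simp only [map_add, map_smul, stepA_d_kc, stepA_act_kc, hS.cyc _ hσ1, smul_add, map_zero]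
    abel
  · apply stepA_Xinj
    rw [k2, ep, eq]
    simp only [map_add, map_smul, stepA_d_kc, stepA_act_kc, hS.cyc _ hσ2, hg0, smul_sub, map_zero]
    abel

private theorem stepA_ind (C : HM K H A) (S : C.X → Prop) (v : ℤ) (hS : C.SEx S v)
    (g : H) (u : ℤ) (hu : v + 4 ≤ u) (z1 z2 : C.Poly.X) (k : ℕ) :
    ∀ p ∈ C.Poly.F (u - 3), ∀ q ∈ C.Poly.F (u - 3 - 1),
    (X : A[X]) ^ k • z1 = C.Poly.d p + (X : A[X]) • C.Poly.act g (C.Poly.act g q) →
    (X : A[X]) ^ k • z2 = C.Poly.act g p - C.Poly.d q →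
    ∃ p1 ∈ C.Poly.F (u - 3), ∃ q1 ∈ C.Poly.F (u - 3 - 1), ∃ σ : C.X, S σ ∧
      z1 = C.Poly.d p1 + (X : A[X]) • C.Poly.act g (C.Poly.act g q1) +
          stepA_kc C (C.act g (C.act g σ)) ∧
      z2 = C.Poly.act g p1 - C.Poly.d q1 := by
  induction k with
  | zero =>
    intro p hp q hq h1 h2
    rw [pow_zero, one_smul] at h1 h2
    refine ⟨p, hp, q, hq, 0, hS.zero, ?_, h2⟩
    rw [map_zero, map_zero, map_zero, add_zero]
    exact h1
  | succ k ih =>
    intro p hp q hq h1 h2
    rw [pow_succ', mul_smul] at h1 h2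
    obtain ⟨p1, hp1, q1, hq1, σ, hσ, e1, e2⟩ :=
      stepA_one C S v hS g u hu _ _ p q hp hq h1 h2
    cases k with
    | zero =>
      rw [pow_zero, one_smul] at e1 e2
      exact ⟨p1, hp1, q1, hq1, σ, hσ, e1, e2⟩
    | succ k =>
      have h0 : C.act g (C.act g σ) = 0 := by
        have f2 := congrArg (stepA_k0 C) e1
        rw [pow_succ', mul_smul, stepA_k0_X, map_add, map_add, stepA_k0_X, stepA_k0_kc, add_zero,
          stepA_k0_d] at f2
        have f4 : C.d (- (stepA_k0 C p1)) = C.act g (C.act g σ) := by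
          rw [map_neg]
          exact (eq_neg_of_add_eq_zero_right f2.symm).symm
        exact hS.bd _ (hS.act g _ (hS.act g _ hσ)) _ f4
      rw [h0, map_zero, add_zero] at e1
      exact ih p1 hp1 q1 hq1 e1 e2

theorem stepA (C : HM K H A) (S : C.X → Prop) (v : ℤ) (hS : C.SEx S v)
    (g : H)
    (hk : ∀ u : ℤ, v + 4 ≤ u → ∀ z ∈ (C.Poly.cone g X).F u, (C.Poly.cone g X).d z = 0 →
      ∃ k : ℕ, ∃ w ∈ (C.Poly.cone g X).F (u - 3), (X : A[X]) ^ k • z = (C.Poly.cone g X).d w) :
    (C.Poly.cone g X).SEx (newS C S g) (v + 4) := by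
  refine ⟨?_, ?_, ?_, ?_, ?_⟩
  · rintro x ⟨y, hy, rfl⟩
    apply Prod.ext
    · show C.Poly.d (stepA_kc C (C.act g (C.act g y))) +
        (X : A[X]) • C.Poly.act g (C.Poly.act g 0) = 0
      rw [map_zero, map_zero, smul_zero, add_zero, stepA_d_kc, ← C.act_d, ← C.act_d, hS.cyc y hy,
        map_zero, map_zero, map_zero]
    · show C.Poly.act g (stepA_kc C (C.act g (C.act g y))) - C.Poly.d 0 = 0
      rw [map_zero, sub_zero, stepA_act_kc, C.act_cube, map_zero]
  · rintro h x ⟨y, hy, rfl⟩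
    refine ⟨C.act h y, hS.act h y hy, ?_⟩
    apply Prod.ext
    · show C.Poly.act h (stepA_kc C (C.act g (C.act g y))) =
        stepA_kc C (C.act g (C.act g (C.act h y)))
      rw [stepA_act_kc, C.act_comm h g, C.act_comm h g]
    · show C.Poly.act h 0 = 0
      rw [map_zero]
  · refine ⟨0, hS.zero, ?_⟩
    apply Prod.ext
    · show 0 = stepA_kc C (C.act g (C.act g 0))
      rw [map_zero, map_zero, map_zero]
    · rfl
  · rintro x ⟨y, hy, rfl⟩ ⟨p, q⟩ hw
    have h1 : C.Poly.d p + (X : A[X]) • C.Poly.act g (C.Poly.act g q) =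
        stepA_kc C (C.act g (C.act g y)) := congrArg Prod.fst hw
    have c1 : C.d (stepA_k0 C p) = C.act g (C.act g y) := by
      have := congrArg (stepA_k0 C) h1
      rw [map_add, stepA_k0_X, stepA_k0_kc, stepA_k0_d, add_zero] at this
      exact this
    have h0 := hS.bd _ (hS.act g _ (hS.act g _ hy)) _ c1
    apply Prod.ext
    · show stepA_kc C (C.act g (C.act g y)) = 0
      rw [h0, map_zero]
    · rfl
  · rintro u hu ⟨z1, z2⟩ hz hd
    obtain ⟨k, ⟨p, q⟩, ⟨hp, hq⟩, e⟩ := hk u hu _ hz hd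
    have h1 : (X : A[X]) ^ k • (show C.Poly.X from z1) =
      C.Poly.d p + (X : A[X]) • C.Poly.act g (C.Poly.act g q) := congrArg Prod.fst e
    have h2 : (X : A[X]) ^ k • (show C.Poly.X from z2) = C.Poly.act g p - C.Poly.d q :=
      congrArg Prod.snd e
    obtain ⟨p1, hp1, q1, hq1, σ, hσ, e1, e2⟩ :=
      stepA_ind C S v hS g u hu z1 z2 k p hp q hq h1 h2
    refine ⟨(p1, q1), ⟨hp1, hq1⟩, _, ⟨σ, hσ, rfl⟩, ?_⟩
    apply Prod.ext
    · exact e1
    · show z2 = C.Poly.act g p1 - C.Poly.d q1 + 0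
      rw [e2, add_zero]

end Pool.Agent.Lib.MP_d9da44_co.FC
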