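import Pool.Agent.Lib.MP_d9da44_co.FC.Defs
import Pool.Agent.Lib.MP_d9da44_co.FC.MLf
import Pool.Agent.Lib.MP_d9da44_co.FC.FinTow
import Pool.Agent.Lib.MP_d9da44_co.FC.Desc
import Pool.Agent.Lib.MP_d9da44_co.FC.StepA
import Pool.Agent.Lib.MP_d9da44_co.FC.Fibre

/-!
Module MainInd: claim P for all good flags, by strong induction on the length.
`cst_act`: induction on l (Poly.act on single: PolynomialModule.map_single).
f = []: tow (ML L) [] = ML L, d = 0 (ML_d), every x is cst [] (sq [] x).
f = g :: l: Flag L l, PP L l by induction; stepA with S = Sg (ML L) l, v = 4 * l.length - 2 (Sg is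
closed etc. by PP); hk from desc_top with v = 4 * l.length + 2 and fibre (induction hypothesis for
lengths ≤ l.length), ML_finite.  newS (Sg (ML L) l) g and Sg (ML L) (g :: l) are the same predicate:
act g (act g (cst l (sq l m))) = cst l (act g (act g (sq l m))) by cst_act.
-/

set_option autoImplicit false

namespace Pool.Agent.Lib.MP_d9da44_co.FC

open Polynomial

variable {K H : Type} [Field K] [AddCommGroup H] [Module K H]

theorem cst_act (C : HM K H K) (l : List H) (h : H) (m : C.X) :
    (tow C l).M.act h (cst C l m) = cst C l (C.act h m) := by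
  induction l with
  | nil => rfl
  | cons k l ih =>
    refine Prod.ext ?_ ?_
    · change pmap ((tow C l).M.act h) (PolynomialModule.single (tow C l).A 0 (cst C l m)) =
        PolynomialModule.single (tow C l).A 0 (cst C l (C.act h m))
      rw [← ih]
      exact PolynomialModule.map_single (tow C l).A _ 0 _
    · change pmap ((tow C l).M.act h) 0 = 0
      exact map_zero _

private theorem MainInd_newS [CharP K 3] (L : List (H →ₗ[K] K)) (g : H) (l : List H)
    (x : (tow (ML L) (g :: l)).M.X) :
    newS (tow (ML L) l).M (Sg (ML L) l) g x ↔ Sg (ML L) (g :: l) x := by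
  have h1 : ∀ m : (ML L).X, (tow (ML L) l).M.act g ((tow (ML L) l).M.act g
      (cst (ML L) l ((ML L).sq l m))) = cst (ML L) l ((ML L).sq (g :: l) m) := by
    intro m
    rw [cst_act, cst_act]
    rfl
  constructor
  · rintro ⟨y, ⟨m, rfl⟩, hx⟩
    refine ⟨m, ?_⟩
    rw [hx, h1]
    rfl
  · rintro ⟨m, hx⟩
    refine ⟨_, ⟨m, rfl⟩, ?_⟩
    rw [h1]
    exact hx

theorem PP_all [CharP K 3] [IsAlgClosed K] [FiniteDimensional K H] (n : ℕ)
    (L : List (H →ₗ[K] K)) (f : List H) (hn : f.length = n) (hF : Flag L f) : PP L f := by
  induction n using Nat.strong_induction_on generalizing L f with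
  | _ n ih =>
    cases f with
    | nil =>
      refine ⟨fun x _ => ML_d L x, fun h x _ => ⟨_, rfl⟩, ⟨0, rfl⟩, fun x _ w hw => ?_,
        fun u _ x _ _ => ⟨0, Submodule.zero_mem _, x, ⟨x, rfl⟩, ?_⟩⟩
      · rw [← hw]
        exact ML_d L w
      · rw [map_zero, zero_add]
    | cons g l =>
      have hn' : l.length < n := by
        rw [← hn, List.length_cons]
        exact Nat.lt_succ_self _
      have hPl : PP L l := ih l.length hn' L l rfl hF.2.2
      have hfin : Module.Finite K (ML L).X := ML_finite L
      have h := stepA (tow (ML L) l).M (Sg (ML L) l) (4 * l.length - 2) hPl g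
        (fun u hu z hz hd => desc_top (ML L) hfin g l (4 * l.length + 2)
          (fun c hc ps hps => fibre L g l hF (fun Z f' hZ hf' =>
            ih f'.length (lt_of_le_of_lt hf' hn') Z f' rfl hZ) c hc ps hps)
          u (by omega) z hz hd)
      have hv : (4 * (l.length : ℤ) - 2 + 4) = 4 * ((g :: l).length : ℤ) - 2 := by
        rw [List.length_cons]
        push_cast
        ring
      rw [hv] at h
      have hS : newS (tow (ML L) l).M (Sg (ML L) l) g = Sg (ML L) (g :: l) := by
        funext x
        exact propext (MainInd_newS L g l x)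
      rw [hS] at h
      exact h

end Pool.Agent.Lib.MP_d9da44_co.FC
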