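import Pool.Agent.Lib.MP_d9da44_co.FC.Defs
import Pool.Agent.Lib.MP_d9da44_co.FC.MLf
import Pool.Agent.Lib.MP_d9da44_co.FC.FlagE
import Pool.Agent.Lib.MP_d9da44_co.FC.Fibre
import Pool.Agent.Lib.MP_d9da44_co.FC.MainInd

/-!
Module MainThm.  Suppose L.length ≥ 4 r - 2, r = finrank H ≥ 1; L ≠ [].
JJ L ⊤ from the hypothesis; exists_flag with W = ⊤: f with span ⊤, Flag L f, f.length = r; PP_all:
SEx from 4 r - 2 on.  Consider cst f (xtop L): it lies in F_(L.length) (cst_F: single 0 and 0),
and is a cycle (cst_cyc: d = 0 on ML L and act h (xtop L) = 0, i.e. D(const x, 0) =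
(const dx, act g (const x)), with cst_act).  So cst f (xtop L) = D w + cst f (sq f m), and sq f m = 0
because L is unfree (⊤ ≤ span f ⊔ perp L), cst_zero.  cst_bd: cst f x = D w implies x = 0 when d = 0 on C:
define ct : (tow C f).M.X → C.X by recursion, ct [] = id, ct (g :: l) (p,q) = ct l (p.coeff 0);
ct is additive, ct (cst x) = x and ct (D w) = 0 by induction: first component of D(p,q) is
d p + X • .., its constant coefficient is d (p.coeff 0).  So xtop L = 0, contradiction to xtop_ne.
-/

set_option autoImplicit false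

namespace Pool.Agent.Lib.MP_d9da44_co.FC

open Polynomial

variable {K H : Type} [Field K] [AddCommGroup H] [Module K H]

private theorem single_coeff_zero {A M : Type} [CommRing A] [AddCommGroup M] [Module A M] (x : M) :
    (PolynomialModule.single A 0 x).coeff 0 = x := by
  rw [PolynomialModule.coeff_single, Finsupp.single_eq_same]

private theorem map_single_zero {A M : Type} [CommRing A] [AddCommGroup M] [Module A M]
    (f : M →ₗ[A] M) (x : M) (h : f x = 0) : pmap f (PolynomialModule.single A 0 x) = 0 := by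
  ext n
  rw [pmap_coeff, PolynomialModule.coeff_single]
  rcases eq_or_ne n 0 with hn | hn
  · rw [hn, Finsupp.single_eq_same, h]
    rfl
  · rw [Finsupp.single_eq_of_ne hn, map_zero]
    rfl

theorem cst_F (C : HM K H K) (l : List H) (u : ℤ) (m : C.X) (hm : m ∈ C.F u) :
    cst C l m ∈ (tow C l).M.F u := by
  induction l with
  | nil => exact hm
  | cons g l ih =>
    refine ⟨?_, Submodule.zero_mem _⟩
    intro n
    show (PolynomialModule.single (tow C l).A 0 (cst C l m)).coeff n ∈ (tow C l).M.F u
    rw [PolynomialModule.coeff_single]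
    rcases eq_or_ne n 0 with hn | hn
    · rw [hn, Finsupp.single_eq_same]
      exact ih
    · rw [Finsupp.single_eq_of_ne hn]
      exact Submodule.zero_mem _

theorem cst_cyc (C : HM K H K) (l : List H) (m : C.X) (hd : C.d m = 0)
    (hm : ∀ h, C.act h m = 0) : (tow C l).M.d (cst C l m) = 0 := by
  induction l with
  | nil => exact hd
  | cons g l ih =>
    have h1 : (tow C l).M.act g (cst C l m) = 0 := by
      rw [cst_act, hm, cst_zero]
    have e1 : (tow C l).M.Poly.d (PolynomialModule.single (tow C l).A 0 (cst C l m)) = 0 :=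
      map_single_zero _ _ ih
    have e2 : (tow C l).M.Poly.act g (PolynomialModule.single (tow C l).A 0 (cst C l m)) = 0 :=
      map_single_zero _ _ h1
    refine Prod.ext ?_ ?_
    · show (tow C l).M.Poly.d (PolynomialModule.single (tow C l).A 0 (cst C l m)) +
        (X : (tow C l).A[X]) • (tow C l).M.Poly.act g ((tow C l).M.Poly.act g 0) = 0
      rw [e1, map_zero, map_zero, smul_zero, add_zero]
    · show (tow C l).M.Poly.act g (PolynomialModule.single (tow C l).A 0 (cst C l m)) -
        (tow C l).M.Poly.d 0 = 0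
      rw [e2, map_zero, sub_zero]

/-- the constant term -/
private noncomputable def ct (C : HM K H K) : (l : List H) → (tow C l).M.X → C.X
  | [], m => m
  | _ :: l, m => ct C l (PolynomialModule.coeff m.1 0)

private theorem ct_cst (C : HM K H K) (l : List H) (m : C.X) : ct C l (cst C l m) = m := by
  induction l with
  | nil => rfl
  | cons g l ih =>
    show ct C l ((PolynomialModule.single (tow C l).A 0 (cst C l m)).coeff 0) = m
    rw [single_coeff_zero]
    exact ih

private theorem ct_d (C : HM K H K) (hd : ∀ x, C.d x = 0) (l : List H)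
    (w : (tow C l).M.X) : ct C l ((tow C l).M.d w) = 0 := by
  induction l with
  | nil => exact hd w
  | cons g l ih =>
    obtain ⟨p, q⟩ := w
    show ct C l (PolynomialModule.coeff ((tow C l).M.Poly.d p +
      (X : (tow C l).A[X]) • (tow C l).M.Poly.act g ((tow C l).M.Poly.act g q)) 0) = 0
    have h1 : PolynomialModule.coeff ((tow C l).M.Poly.d p +
        (X : (tow C l).A[X]) • (tow C l).M.Poly.act g ((tow C l).M.Poly.act g q)) 0 =
        (tow C l).M.d (PolynomialModule.coeff p 0) := by
      have h2 : PolynomialModule.coeff ((tow C l).M.Poly.d p +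
          (X : (tow C l).A[X]) • (tow C l).M.Poly.act g ((tow C l).M.Poly.act g q)) 0 =
          PolynomialModule.coeff ((tow C l).M.Poly.d p) 0 + PolynomialModule.coeff
          ((X : (tow C l).A[X]) • (tow C l).M.Poly.act g ((tow C l).M.Poly.act g q)) 0 := rfl
      have h3 : PolynomialModule.coeff
          ((X : (tow C l).A[X]) • (tow C l).M.Poly.act g ((tow C l).M.Poly.act g q)) 0 = 0 :=
        X_smul_coeff_zero _
      rw [h2, h3, add_zero]
      rfl
    rw [h1]
    exact ih _

theorem cst_bd (C : HM K H K) (hd : ∀ x, C.d x = 0) (l : List H) (m : C.X)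
    (w : (tow C l).M.X) (h : (tow C l).M.d w = cst C l m) : m = 0 := by
  rw [← ct_cst C l m, ← h, ct_d C hd]

theorem main_thm [CharP K 3] [IsAlgClosed K] [FiniteDimensional K H]
    (hr : 1 ≤ Module.finrank K H) (L : List (H →ₗ[K] K))
    (hL : ∀ Z : List (H →ₗ[K] K), Z.Sublist L → Z ≠ [] → Unfree Z ⊤) :
    L.length + 3 ≤ 4 * Module.finrank K H := by
  have hinf : Infinite K := IsAlgClosed.instInfinite
  by_contra hcon
  push Not at hcon
  have hne : L ≠ [] := by
    rintro rfl
    simp only [List.length_nil] at hcon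
    omega
  have hJ : JJ L (⊤ : Submodule K H) := fun Z hZ hZ0 _ => hL Z hZ hZ0
  obtain ⟨f, hf1, hf2, hf3⟩ := exists_flag L ⊤ hJ
  rw [finrank_top] at hf3
  have hPP : PP L f := PP_all f.length L f rfl hf2
  have hx := cst_F (ML L) f (L.length : ℤ) (xtop L) (xtop_F L)
  have hdx := cst_cyc (ML L) f (xtop L) (ML_d L _) (xtop_act L)
  obtain ⟨w, _, z, ⟨m, hm⟩, hxw⟩ := hPP.ex (L.length : ℤ) (by omega) _ hx hdx
  have hsq : (ML L).sq f m = 0 :=
    hL L (List.Sublist.refl L) hne f (fun x _ => Submodule.mem_top)
      (by rw [hf1]; exact le_sup_left) m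
  rw [hm, hsq, cst_zero, add_zero] at hxw
  exact xtop_ne L (cst_bd (ML L) (ML_d L) f (xtop L) w hxw.symm)

end Pool.Agent.Lib.MP_d9da44_co.FC
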