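import Pool.Agent.Lib.MP_d9da44_co.FC.Defs
import Pool.Agent.Lib.MP_d9da44_co.FC.VDefs
import Pool.Agent.Lib.MP_d9da44_co.FC.MainThm
import Pool.Agent.Lib.MP_d9da44_co.FC.CritA

/-!
Module Hall: strong induction on n = finrank V.  K = AlgebraicClosure (ZMod 3)
(CharP K 3: charP_of_injective_algebraMap; IsAlgClosed instance).
n = 0: V is a subsingleton, t = ∅.
n ≥ 1: s' = s.filter (e i ≠ 0), card ≥ 4 n (F = ⊥, finrank (V ⧸ ⊥) = n).  ls = s'.toList,
L = (ls.map e).map evf, L.length ≥ 4 n; finrank K (V →ₗ[ZMod 3] K) = n (Module.finrank_linearMap..,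
finite-dimensional).  main_thm: some nonempty sublist of L is not Unfree for ⊤; it is
(zs.map e).map evf with zs a sublist of ls (List.sublist_map_iff).  F = span (zs.map e) ≠ ⊥ because zs
is nonempty and e i ≠ 0 on s'.  crit_A: every element of F is the sum of e over a subset of zs (sublist
of zs.map e = map of a sublist; zs nodup, convert to Finset).  Induction for V ⧸ F (smaller finrank),
e' = mkQ ∘ e, s'' = s \ zs.toFinset: for F' ≠ ⊤ in V ⧸ F let G = comap mkQ F' ≥ F: G ≠ ⊤,
finrank ((V ⧸ F) ⧸ F') = finrank (V ⧸ G) (third isomorphism theorem or finrank arithmetic),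
{i ∈ s'' | mkQ (e i) ∉ F'} = {i ∈ s | e i ∉ G} since e i ∈ F ≤ G on zs.
For v: t1 ⊆ s'' with ∑ mkQ (e i) = mkQ v, v - ∑_(t1) e i ∈ F is ∑ over t2 ⊆ zs; t = t1 ∪ t2 disjoint.
-/

set_option autoImplicit false

namespace Pool.Agent.Lib.MP_d9da44_co.FC

open Polynomial

private theorem hall_quot {V : Type} [AddCommGroup V] [Module (ZMod 3) V]
    (F : Submodule (ZMod 3) V) (F' : Submodule (ZMod 3) (V ⧸ F)) :
    Module.finrank (ZMod 3) ((V ⧸ F) ⧸ F') =
      Module.finrank (ZMod 3) (V ⧸ (F'.comap F.mkQ)) := by
  have hsurj : Function.Surjective (F'.mkQ ∘ₗ F.mkQ) :=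
    (Submodule.mkQ_surjective F').comp (Submodule.mkQ_surjective F)
  have hker : LinearMap.ker (F'.mkQ ∘ₗ F.mkQ) = F'.comap F.mkQ := by
    rw [LinearMap.ker_comp, Submodule.ker_mkQ]
  have e1 := LinearMap.quotKerEquivOfSurjective (F'.mkQ ∘ₗ F.mkQ) hsurj
  have e2 := Submodule.quotEquivOfEq _ _ hker
  rw [← e1.finrank_eq, e2.finrank_eq]

open Classical in
theorem hall (n : ℕ) : ∀ (V : Type) [AddCommGroup V] [Module (ZMod 3) V]
    [FiniteDimensional (ZMod 3) V] (_ : Module.finrank (ZMod 3) V = n) (ι : Type) (s : Finset ι)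
    (e : ι → V)
    (_ : ∀ F : Submodule (ZMod 3) V, F ≠ ⊤ →
      4 * Module.finrank (ZMod 3) (V ⧸ F) ≤ (s.filter fun i => e i ∉ F).card) (v : V),
    ∃ t ⊆ s, ∑ i ∈ t, e i = v := by
  induction n using Nat.strong_induction_on with
  | _ n ih =>
    intro V _ _ _ hn ι s e hs v
    rcases Nat.eq_zero_or_pos n with h0 | hpos
    · have hsub : Subsingleton V := by
        rw [← Module.finrank_zero_iff (R := ZMod 3), hn, h0]
      exact ⟨∅, Finset.empty_subset _, Subsingleton.elim _ _⟩
    · have hchar : CharP (AlgebraicClosure (ZMod 3)) 3 :=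
        charP_of_injective_algebraMap
          (algebraMap (ZMod 3) (AlgebraicClosure (ZMod 3))).injective 3
      set K : Type := AlgebraicClosure (ZMod 3) with hK
      have hnt : Nontrivial V := by
        rw [← Module.finrank_pos_iff (R := ZMod 3), hn]
        exact hpos
      set s' := s.filter fun i => e i ≠ 0 with hs'
      have hcard : 4 * n ≤ s'.card := by
        have h1 := hs ⊥ bot_ne_top
        rw [(Submodule.quotEquivOfEqBot (⊥ : Submodule (ZMod 3) V) rfl).finrank_eq, hn] at h1
        simpa only [Submodule.mem_bot] using h1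
      set ls := s'.toList with hls
      -- a nonempty sublist which is not unfree
      have hex : ∃ zs : List ι, zs.Sublist ls ∧ zs ≠ [] ∧
          ¬ Unfree ((zs.map e).map (evf K)) (⊤ : Submodule K (V →ₗ[ZMod 3] K)) := by
        by_contra hcon
        push Not at hcon
        have hfr : Module.finrank K (V →ₗ[ZMod 3] K) = n := by
          rw [Module.finrank_linearMap, hn, Module.finrank_self, mul_one]
        have h1 := main_thm (K := K) (H := V →ₗ[ZMod 3] K) (by rw [hfr]; exact hpos)
          ((ls.map e).map (evf K)) (by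
            intro Z hZ hne
            obtain ⟨Z1, hZ1, rfl⟩ := List.sublist_map_iff.1 hZ
            obtain ⟨zs, hzs, rfl⟩ := List.sublist_map_iff.1 hZ1
            refine hcon zs hzs ?_
            rintro rfl
            exact hne rfl)
        rw [hfr, List.length_map, List.length_map, hls, Finset.length_toList] at h1
        omega
      obtain ⟨zs, hzs, hne, hun⟩ := hex
      have hnd : zs.Nodup := hzs.nodup (Finset.nodup_toList s')
      have hmem : ∀ i ∈ zs, i ∈ s ∧ e i ≠ 0 := by
        intro i hi
        have h1 := Finset.mem_toList.1 (hzs.subset hi)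
        exact Finset.mem_filter.1 h1
      set F : Submodule (ZMod 3) V := Submodule.span (ZMod 3) {x | x ∈ zs.map e} with hF
      have hzF : ∀ i ∈ zs, e i ∈ F := fun i hi =>
        Submodule.subset_span (List.mem_map.2 ⟨i, hi, rfl⟩)
      have hFpos : 0 < Module.finrank (ZMod 3) F := by
        rw [Module.finrank_pos_iff]
        obtain ⟨i, hi⟩ := List.exists_mem_of_ne_nil zs hne
        exact ⟨⟨⟨e i, hzF i hi⟩, 0, fun h => (hmem i hi).2 (congrArg Subtype.val h)⟩⟩
      have hlt : Module.finrank (ZMod 3) (V ⧸ F) < n := by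
        have h1 := Submodule.finrank_quotient_add_finrank F
        omega
      obtain ⟨t1, ht1, ht1s⟩ := ih _ hlt (V ⧸ F) rfl ι (s \ zs.toFinset) (fun i => F.mkQ (e i))
        (by
          intro F' hF'
          rw [hall_quot]
          refine (hs (F'.comap F.mkQ) ?_).trans (Finset.card_le_card ?_)
          · intro h1
            apply hF'
            rw [← Submodule.map_comap_eq_of_surjective (Submodule.mkQ_surjective F) F', h1,
              Submodule.map_top, Submodule.range_mkQ]
          · intro i hi
            rw [Finset.mem_filter] at hi ⊢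
            refine ⟨Finset.mem_sdiff.2 ⟨hi.1, ?_⟩, hi.2⟩
            intro h2
            apply hi.2
            rw [Submodule.mem_comap]
            have h3 : F.mkQ (e i) = 0 := by
              rw [Submodule.mkQ_apply, Submodule.Quotient.mk_eq_zero]
              exact hzF i (List.mem_toFinset.1 h2)
            rw [h3]
            exact Submodule.zero_mem _) (F.mkQ v)
      have hvF : v - ∑ i ∈ t1, e i ∈ F := by
        rw [← map_sum] at ht1s
        have h1 : F.mkQ (v - ∑ i ∈ t1, e i) = 0 := by
          rw [map_sub, ht1s, sub_self]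
        rwa [Submodule.mkQ_apply, Submodule.Quotient.mk_eq_zero] at h1
      obtain ⟨S, hS, hSs⟩ := crit_A (K := K) (zs.map e) hun _ hvF
      obtain ⟨zs', hzs', rfl⟩ := List.sublist_map_iff.1 hS
      have hnd' : zs'.Nodup := hzs'.nodup hnd
      refine ⟨t1 ∪ zs'.toFinset, ?_, ?_⟩
      · refine Finset.union_subset (ht1.trans Finset.sdiff_subset) ?_
        intro i hi
        exact (hmem i (hzs'.subset (List.mem_toFinset.1 hi))).1
      · rw [Finset.sum_union, List.sum_toFinset e hnd', hSs]
        · abel
        · rw [Finset.disjoint_left]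
          intro i hi hi2
          have h1 := Finset.mem_sdiff.1 (ht1 hi)
          exact h1.2 (List.mem_toFinset.2 (hzs'.subset (List.mem_toFinset.1 hi2)))

end Pool.Agent.Lib.MP_d9da44_co.FC
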