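import Pool.Agent.Lib.MP_d9da44_co.FC.Defs
import Pool.Agent.Lib.MP_d9da44_co.FC.Hall

/-!
Module Cubes.  V = Fin n → ZMod 3, ι = Fin 4 × Fin n, s = univ, e (i,j) = T i (Pi.single j 1).
For F ≠ ⊤ and each i: the vectors mkQ (T i (e_j)) span V ⧸ F, and those with T i e_j ∈ F are 0, so
#{j | T i e_j ∉ F} ≥ finrank (V ⧸ F) (finrank_span_finset_le_card); sum over i: 4 finrank.
hall gives t with ∑ = v; x i j = 1 if (i,j) ∈ t, else 0; T i (x i) = ∑_j x i j • T i e_j.
-/

set_option autoImplicit false

namespace Pool.Agent.Lib.MP_d9da44_co.FC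

open Polynomial

open Classical in
private theorem basis_count (n : ℕ) (T : (Fin n → ZMod 3) ≃ₗ[ZMod 3] (Fin n → ZMod 3))
    (F : Submodule (ZMod 3) (Fin n → ZMod 3)) :
    Module.finrank (ZMod 3) ((Fin n → ZMod 3) ⧸ F) ≤
      (Finset.univ.filter fun j : Fin n => T (Pi.single j 1) ∉ F).card := by
  set S := Finset.univ.filter fun j : Fin n => T (Pi.single j 1) ∉ F with hS
  set I := S.image fun j => F.mkQ (T (Pi.single j 1)) with hI
  have hmem : ∀ j : Fin n, F.mkQ (T (Pi.single j 1)) ∈
      Submodule.span (ZMod 3) (I : Set ((Fin n → ZMod 3) ⧸ F)) := by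
    intro j
    by_cases hj : T (Pi.single j 1) ∈ F
    · have : F.mkQ (T (Pi.single j 1)) = 0 := by
        rw [Submodule.mkQ_apply, Submodule.Quotient.mk_eq_zero]
        exact hj
      rw [this]
      exact Submodule.zero_mem _
    · refine Submodule.subset_span ?_
      rw [hI, Finset.coe_image]
      refine ⟨j, ?_, rfl⟩
      rw [Finset.mem_coe, hS, Finset.mem_filter]
      exact ⟨Finset.mem_univ _, hj⟩
  have htop : Submodule.span (ZMod 3) (I : Set ((Fin n → ZMod 3) ⧸ F)) = ⊤ := by
    rw [eq_top_iff]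
    rintro w -
    obtain ⟨v, rfl⟩ := F.mkQ_surjective w
    obtain ⟨x, rfl⟩ := T.surjective v
    have hx : x = ∑ j, x j • (Pi.single j 1 : Fin n → ZMod 3) := by
      ext i
      rw [Finset.sum_apply]
      simp [Pi.single_apply]
    rw [hx, map_sum, map_sum]
    refine Submodule.sum_mem _ fun j _ => ?_
    rw [map_smul, map_smul]
    exact Submodule.smul_mem _ _ (hmem j)
  have h1 := finrank_span_finset_le_card (R := ZMod 3) I
  rw [Set.finrank, htop, finrank_top] at h1
  exact h1.trans Finset.card_image_le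

open Classical in
theorem four_cubes (n : ℕ) (T : Fin 4 → ((Fin n → ZMod 3) ≃ₗ[ZMod 3] (Fin n → ZMod 3)))
    (v : Fin n → ZMod 3) :
    ∃ x : Fin 4 → Fin n → ZMod 3, (∀ i j, x i j = 0 ∨ x i j = 1) ∧ ∑ i, T i (x i) = v := by
  obtain ⟨t, -, ht⟩ := hall n (Fin n → ZMod 3) (by simp) (Fin 4 × Fin n) Finset.univ
    (fun p => T p.1 (Pi.single p.2 1)) (by
      intro F _
      have h1 : (Finset.univ.filter fun p : Fin 4 × Fin n => T p.1 (Pi.single p.2 1) ∉ F).card =
          ∑ i : Fin 4, (Finset.univ.filter fun j : Fin n => T i (Pi.single j 1) ∉ F).card := by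
        simp only [Finset.card_filter]
        rw [Fintype.sum_prod_type]
      rw [h1]
      calc 4 * Module.finrank (ZMod 3) ((Fin n → ZMod 3) ⧸ F) =
            ∑ _i : Fin 4, Module.finrank (ZMod 3) ((Fin n → ZMod 3) ⧸ F) := by simp
        _ ≤ _ := Finset.sum_le_sum fun i _ => basis_count n (T i) F) v
  refine ⟨fun i j => if (i, j) ∈ t then 1 else 0, ?_, ?_⟩
  · intro i j
    by_cases h : (i, j) ∈ t
    · right; simp [h]
    · left; simp [h]
  · rw [← ht]
    have h2 : ∀ i, T i (fun j => if (i, j) ∈ t then 1 else 0) =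
        ∑ j, (if (i, j) ∈ t then T i (Pi.single j 1) else 0) := by
      intro i
      have hx : (fun j => if (i, j) ∈ t then (1 : ZMod 3) else 0) =
          ∑ j, (if (i, j) ∈ t then (Pi.single j 1 : Fin n → ZMod 3) else 0) := by
        ext l
        rw [Finset.sum_apply]
        rw [Finset.sum_eq_single l]
        · by_cases h : (i, l) ∈ t <;> simp [h]
        · intro j _ hj
          by_cases h : (i, j) ∈ t
          · simp [h, hj.symm]
          · simp [h]
        · intro h
          exact absurd (Finset.mem_univ _) h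
      rw [hx, map_sum]
      refine Finset.sum_congr rfl fun j _ => ?_
      by_cases h : (i, j) ∈ t
      · simp [h]
      · simp [h]
    simp only [h2]
    rw [← Fintype.sum_prod_type', Finset.sum_ite_mem, Finset.univ_inter]

end Pool.Agent.Lib.MP_d9da44_co.FC
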