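import Mathlib

/-!
MP_d9da44_co, four cubes: filtered differential modules with an action of a vector space `H`
by commuting operators with cube zero.  See the note kind=proof of helper14.
-/

set_option autoImplicit false

namespace Pool.Agent.Lib.MP_d9da44_co.FC

open Polynomial

/-- A filtered differential `A`-module with commuting operators `act h` (`h` in the `K`-space `H`)
of degree 2 with cube zero; the differential has degree 3. -/
structure HM (K H A : Type) [Field K] [AddCommGroup H] [Module K H] [CommRing A]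
    [Algebra K A] where
  X : Type
  ag : AddCommGroup X
  md : Module A X
  F : ℤ → Submodule A X
  anti : ∀ {u v : ℤ}, u ≤ v → F v ≤ F u
  d : X →ₗ[A] X
  dd : ∀ x, d (d x) = 0
  dF : ∀ {u : ℤ} {x : X}, x ∈ F u → d x ∈ F (u + 3)
  act : H → X →ₗ[A] X
  act_add : ∀ h h' x, act (h + h') x = act h x + act h' x
  act_smul : ∀ (c : K) h x, act (c • h) x = algebraMap K A c • act h x
  act_comm : ∀ h h' x, act h (act h' x) = act h' (act h x)
  act_d : ∀ h x, act h (d x) = d (act h x)
  act_F : ∀ h {u : ℤ} {x : X}, x ∈ F u → act h x ∈ F (u + 2)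
  act_cube : ∀ h x, act h (act h (act h x)) = 0

attribute [instance] HM.ag HM.md

section

variable {K H A : Type} [Field K] [AddCommGroup H] [Module K H] [CommRing A] [Algebra K A]

/-- exactness in filtration degrees at least `v` -/
def HM.Ex (C : HM K H A) (v : ℤ) : Prop :=
  ∀ u : ℤ, v ≤ u → ∀ x ∈ C.F u, C.d x = 0 → ∃ w ∈ C.F (u - 3), C.d w = x

/-- isomorphism of filtered differential modules with operators -/
def HM.Iso (C C' : HM K H A) : Prop :=
  ∃ e : C.X ≃ₗ[A] C'.X, (∀ x, e (C.d x) = C'.d (e x)) ∧
    (∀ (u : ℤ) x, x ∈ C.F u ↔ e x ∈ C'.F u) ∧ (∀ h x, e (C.act h x) = C'.act h (e x))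

/-- the cone: pairs `(a, b)` with `D (a, b) = (d a + c h^2 b, h a - d b)` -/
def HM.cone (C : HM K H A) (h : H) (c : A) : HM K H A where
  X := C.X × C.X
  ag := inferInstance
  md := inferInstance
  F u := (C.F u).prod (C.F (u - 1))
  anti := by
    intro u v huv x hx
    exact ⟨C.anti huv hx.1, C.anti (by omega) hx.2⟩
  d :=
    { toFun := fun p => (C.d p.1 + c • C.act h (C.act h p.2), C.act h p.1 - C.d p.2)
      map_add' := by
        rintro ⟨a, b⟩ ⟨a', b'⟩
        apply Prod.ext
        · simp only [Prod.mk_add_mk, map_add, smul_add]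
          abel
        · simp only [Prod.mk_add_mk, map_add]
          abel
      map_smul' := by
        rintro r ⟨a, b⟩
        apply Prod.ext
        · simp only [Prod.smul_mk, map_smul, smul_add, RingHom.id_apply]
          rw [smul_comm c r]
        · simp only [Prod.smul_mk, map_smul, smul_sub, RingHom.id_apply] }
  dd := by
    rintro ⟨a, b⟩
    apply Prod.ext
    · show C.d (C.d a + c • C.act h (C.act h b)) +
        c • C.act h (C.act h (C.act h a - C.d b)) = 0
      simp only [map_add, map_sub, map_smul, C.dd, C.act_cube, C.act_d, smul_sub, smul_zero]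
      abel
    · show C.act h (C.d a + c • C.act h (C.act h b)) - C.d (C.act h a - C.d b) = 0
      simp only [map_add, map_sub, map_smul, C.dd, C.act_cube, C.act_d, smul_zero]
      abel
  dF := by
    rintro u ⟨a, b⟩ ⟨ha, hb⟩
    refine ⟨?_, ?_⟩
    · refine Submodule.add_mem _ (C.dF ha) (Submodule.smul_mem _ _ ?_)
      have h1 := C.act_F h (C.act_F h hb)
      have h2 : u - 1 + 2 + 2 = u + 3 := by ring
      rw [h2] at h1
      exact h1
    · have h1 := C.act_F h ha
      have h2 := C.dF hb
      have e1 : u + 3 - 1 = u + 2 := by ring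
      have e2 : u - 1 + 3 = u + 2 := by ring
      rw [e2] at h2
      show _ ∈ C.F (u + 3 - 1)
      rw [e1]
      exact Submodule.sub_mem _ h1 h2
  act k := LinearMap.prodMap (C.act k) (C.act k)
  act_add := by
    rintro h h' ⟨a, b⟩
    simp [C.act_add]
  act_smul := by
    rintro c h ⟨a, b⟩
    simp [C.act_smul]
  act_comm := by
    rintro h h' ⟨a, b⟩
    simp [C.act_comm h h']
  act_d := by
    rintro k ⟨a, b⟩
    apply Prod.ext
    · show C.act k (C.d a + c • C.act h (C.act h b)) =
        C.d (C.act k a) + c • C.act h (C.act h (C.act k b))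
      simp only [map_add, map_smul, C.act_d]
      rw [C.act_comm k h (C.act h b), C.act_comm k h b]
    · show C.act k (C.act h a - C.d b) = C.act h (C.act k a) - C.d (C.act k b)
      simp only [map_sub, C.act_d]
      rw [C.act_comm k h a]
  act_F := by
    rintro k u ⟨a, b⟩ ⟨ha, hb⟩
    refine ⟨C.act_F k ha, ?_⟩
    have h1 := C.act_F k hb
    have e1 : u - 1 + 2 = u + 2 - 1 := by ring
    rw [e1] at h1
    exact h1
  act_cube := by
    rintro h ⟨a, b⟩
    simp [C.act_cube]

@[simp] theorem cone_d (C : HM K H A) (h : H) (c : A) (a b : C.X) :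
    (C.cone h c).d (a, b) = (C.d a + c • C.act h (C.act h b), C.act h a - C.d b) := rfl

@[simp] theorem cone_act (C : HM K H A) (h : H) (c : A) (k : H) (a b : C.X) :
    (C.cone h c).act k (a, b) = (C.act k a, C.act k b) := rfl

theorem mem_cone_F (C : HM K H A) (h : H) (c : A) (u : ℤ) (a b : C.X) :
    (show (C.cone h c).X from (a, b)) ∈ (C.cone h c).F u ↔ a ∈ C.F u ∧ b ∈ C.F (u - 1) :=
  Iff.rfl

/-- iterated cones, the first element of the list is innermost -/
def HM.kon (C : HM K H A) : List (H × A) → HM K H A
  | [] => C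
  | p :: l => HM.kon (C.cone p.1 p.2) l

/-- Koszul complexes: iterated cones with `w = 0` -/
def HM.kos (C : HM K H A) (l : List H) : HM K H A := C.kon (l.map fun h => (h, 0))

/-- null-homotopic operators -/
def HM.NH (C : HM K H A) (k : H) : Prop :=
  ∃ s : C.X →ₗ[A] C.X, (∀ (u : ℤ) x, x ∈ C.F u → s x ∈ C.F (u - 1)) ∧
    (∀ x, C.d (s x) + s (C.d x) = C.act k x) ∧ (∀ h x, s (C.act h x) = C.act h (s x))

/-- tensor product with `K[x]/(x^2)`, `h` acting by `h + e h * x` -/
def HM.Om [CharP K 3] (C : HM K H A) (e : H →ₗ[K] K) : HM K H A where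
  X := C.X × C.X
  ag := inferInstance
  md := inferInstance
  F u := (C.F (u + 1)).prod (C.F (u - 1))
  anti := by
    intro u v huv x hx
    exact ⟨C.anti (by omega) hx.1, C.anti (by omega) hx.2⟩
  d := LinearMap.prodMap C.d C.d
  dd := by
    rintro ⟨a, b⟩
    simp [C.dd]
  dF := by
    rintro u ⟨a, b⟩ ⟨ha, hb⟩
    refine ⟨?_, ?_⟩
    · have := C.dF ha
      have e1 : u + 1 + 3 = u + 3 + 1 := by ring
      rw [e1] at this
      exact this
    · have := C.dF hb
      have e1 : u - 1 + 3 = u + 3 - 1 := by ring
      rw [e1] at this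
      exact this
  act h :=
    { toFun := fun p => (C.act h p.1, C.act h p.2 + algebraMap K A (e h) • p.1)
      map_add' := by
        rintro ⟨a, b⟩ ⟨a', b'⟩
        apply Prod.ext
        · simp only [Prod.mk_add_mk, map_add]
        · simp only [Prod.mk_add_mk, map_add, smul_add]
          abel
      map_smul' := by
        rintro r ⟨a, b⟩
        apply Prod.ext
        · simp only [Prod.smul_mk, map_smul, RingHom.id_apply]
        · simp only [Prod.smul_mk, map_smul, smul_add, RingHom.id_apply]
          rw [smul_comm _ r] }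
  act_add := by
    rintro h h' ⟨a, b⟩
    apply Prod.ext
    · exact C.act_add h h' a
    · show C.act (h + h') b + algebraMap K A (e (h + h')) • a =
        (C.act h b + algebraMap K A (e h) • a) + (C.act h' b + algebraMap K A (e h') • a)
      rw [C.act_add, map_add, map_add, add_smul]
      abel
  act_smul := by
    rintro c h ⟨a, b⟩
    apply Prod.ext
    · exact C.act_smul c h a
    · show C.act (c • h) b + algebraMap K A (e (c • h)) • a =
        algebraMap K A c • (C.act h b + algebraMap K A (e h) • a)
      rw [C.act_smul, map_smul, smul_eq_mul, map_mul, mul_smul, smul_add]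
  act_comm := by
    rintro h h' ⟨a, b⟩
    apply Prod.ext
    · exact C.act_comm h h' a
    · show C.act h (C.act h' b + algebraMap K A (e h') • a) + algebraMap K A (e h) • C.act h' a =
        C.act h' (C.act h b + algebraMap K A (e h) • a) + algebraMap K A (e h') • C.act h a
      rw [map_add, map_add, map_smul, map_smul, C.act_comm h h' b]
      abel
  act_d := by
    rintro h ⟨a, b⟩
    apply Prod.ext
    · exact C.act_d h a
    · show C.act h (C.d b) + algebraMap K A (e h) • C.d a =
        C.d (C.act h b + algebraMap K A (e h) • a)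
      rw [map_add, map_smul, C.act_d]
  act_F := by
    rintro h u ⟨a, b⟩ ⟨ha, hb⟩
    refine ⟨?_, ?_⟩
    · have := C.act_F h ha
      have e1 : u + 1 + 2 = u + 2 + 1 := by ring
      rw [e1] at this
      exact this
    · have h1 := C.act_F h hb
      have e1 : u - 1 + 2 = u + 2 - 1 := by ring
      rw [e1] at h1
      refine Submodule.add_mem _ h1 (Submodule.smul_mem _ _ ?_)
      exact C.anti (by omega) ha
  act_cube := by
    rintro h ⟨a, b⟩
    apply Prod.ext
    · exact C.act_cube h a
    · show C.act h (C.act h (C.act h b + algebraMap K A (e h) • a) +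
        algebraMap K A (e h) • C.act h a) + algebraMap K A (e h) • C.act h (C.act h a) = 0
      have h30 : (3 : K) = 0 := by exact_mod_cast CharP.cast_eq_zero K 3
      have h3 : (3 : A) = 0 := by
        have : (3 : A) = algebraMap K A 3 := (map_ofNat (algebraMap K A) 3).symm
        rw [this, h30, map_zero]
      simp only [map_add, map_smul, C.act_cube, zero_add]
      rw [show algebraMap K A (e h) • C.act h (C.act h a) +
        algebraMap K A (e h) • C.act h (C.act h a) +
        algebraMap K A (e h) • C.act h (C.act h a) =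
        (3 : A) • (algebraMap K A (e h) • C.act h (C.act h a)) by
          rw [show (3 : A) = 1 + 1 + 1 by norm_num, add_smul, add_smul, one_smul], h3, zero_smul]

@[simp] theorem Om_d [CharP K 3] (C : HM K H A) (e : H →ₗ[K] K) (a b : C.X) :
    (C.Om e).d (a, b) = (C.d a, C.d b) := rfl

@[simp] theorem Om_act [CharP K 3] (C : HM K H A) (e : H →ₗ[K] K) (h : H) (a b : C.X) :
    (C.Om e).act h (a, b) = (C.act h a, C.act h b + algebraMap K A (e h) • a) := rfl

theorem mem_Om_F [CharP K 3] (C : HM K H A) (e : H →ₗ[K] K) (u : ℤ) (a b : C.X) :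
    (show (C.Om e).X from (a, b)) ∈ (C.Om e).F u ↔ a ∈ C.F (u + 1) ∧ b ∈ C.F (u - 1) :=
  Iff.rfl

/-- the one-point module -/
def ptm (K H : Type) [Field K] [AddCommGroup H] [Module K H] : HM K H K where
  X := K
  ag := inferInstance
  md := inferInstance
  F u := if u ≤ 0 then ⊤ else ⊥
  anti := by
    intro u v huv
    by_cases h2 : v ≤ 0
    · have h1 : u ≤ 0 := by omega
      simp [h1, h2]
    · simp [h2]
  d := 0
  dd := by simp
  dF := by
    intro u x _
    simp
  act _ := 0
  act_add := by simp
  act_smul := by simp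
  act_comm := by simp
  act_d := by simp
  act_F := by
    intro h u x _
    simp
  act_cube := by simp

/-- the module `M_L`, `L` a list of functionals on `H` -/
def ML {K H : Type} [Field K] [CharP K 3] [AddCommGroup H] [Module K H] :
    List (H →ₗ[K] K) → HM K H K
  | [] => ptm K H
  | e :: L => (ML L).Om e

/-- product of the squares of the operators in a list -/
def HM.sq (C : HM K H A) : List H → C.X → C.X
  | [], m => m
  | h :: l, m => C.act h (C.act h (C.sq l m))

/-- vectors killed by all functionals in a list -/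
def perp (Z : List (H →ₗ[K] K)) : Submodule K H where
  carrier := {h | ∀ e ∈ Z, e h = 0}
  add_mem' := by
    intro a b ha hb e he
    rw [map_add, ha e he, hb e he, add_zero]
  zero_mem' := by
    intro e _
    exact map_zero e
  smul_mem' := by
    intro c a ha e he
    rw [map_smul, ha e he, smul_zero]

/-- `Z` is unfree with respect to the subspace `W` -/
def Unfree [CharP K 3] (Z : List (H →ₗ[K] K)) (W : Submodule K H) : Prop :=
  ∀ f : List H, (∀ x ∈ f, x ∈ W) → W ≤ Submodule.span K {x | x ∈ f} ⊔ perp Z →
    ∀ m : (ML Z).X, (ML Z).sq f m = 0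

/-- every nonempty sublist not spanning the dual of `W` is unfree -/
def JJ [CharP K 3] (L : List (H →ₗ[K] K)) (W : Submodule K H) : Prop :=
  ∀ Z : List (H →ₗ[K] K), Z.Sublist L → Z ≠ [] → (∃ w ∈ W, w ≠ 0 ∧ w ∈ perp Z) → Unfree Z W

end

section poly

variable {K H A : Type} [Field K] [AddCommGroup H] [Module K H] [CommRing A] [Algebra K A]

/-- coefficientwise extension of a linear map to polynomials -/
noncomputable def pmap {M : Type} [AddCommGroup M] [Module A M] (f : M →ₗ[A] M) :
    PolynomialModule A M →ₗ[A[X]] PolynomialModule A M :=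
  { toFun := PolynomialModule.map A f
    map_add' := by
      intro x y
      exact map_add _ _ _
    map_smul' := by
      intro p x
      rw [PolynomialModule.map_smul]
      simp }

theorem pmap_coeff {M : Type} [AddCommGroup M] [Module A M] (f : M →ₗ[A] M)
    (p : PolynomialModule A M) (n : ℕ) : (pmap f p).coeff n = f (p.coeff n) := by
  rfl

theorem C_smul_coeff {M : Type} [AddCommGroup M] [Module A M] (a : A)
    (p : PolynomialModule A M) (n : ℕ) : (Polynomial.C a • p).coeff n = a • p.coeff n := by
  rw [← Polynomial.monomial_zero_left, PolynomialModule.monomial_smul_apply]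
  simp

theorem X_smul_coeff_zero {M : Type} [AddCommGroup M] [Module A M]
    (p : PolynomialModule A M) : ((X : A[X]) • p).coeff 0 = 0 := by
  rw [← Polynomial.monomial_one_one_eq_X, PolynomialModule.monomial_smul_apply]
  simp

theorem X_smul_coeff_succ {M : Type} [AddCommGroup M] [Module A M]
    (p : PolynomialModule A M) (n : ℕ) : ((X : A[X]) • p).coeff (n + 1) = p.coeff n := by
  rw [← Polynomial.monomial_one_one_eq_X, PolynomialModule.monomial_smul_apply]
  simp

/-- polynomials with coefficients in `C` -/
noncomputable def HM.Poly (C : HM K H A) : HM K H A[X] where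
  X := PolynomialModule A C.X
  ag := inferInstance
  md := inferInstance
  F u :=
    { carrier := {p | ∀ n : ℕ, p.coeff n ∈ C.F u}
      add_mem' := by
        intro a b ha hb n
        exact Submodule.add_mem _ (ha n) (hb n)
      zero_mem' := by
        intro n
        exact Submodule.zero_mem _
      smul_mem' := by
        intro c p hp n
        rw [PolynomialModule.smul_apply]
        exact Submodule.sum_mem _ fun i _ => Submodule.smul_mem _ _ (hp _) }
  anti := by
    intro u v huv x hx n
    exact C.anti huv (hx n)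
  d := pmap C.d
  dd := by
    intro x
    ext n
    rw [pmap_coeff, pmap_coeff, C.dd]
    rfl
  dF := by
    intro u x hx n
    rw [pmap_coeff]
    exact C.dF (hx n)
  act h := pmap (C.act h)
  act_add := by
    intro h h' x
    ext n
    rw [pmap_coeff, C.act_add]
    rfl
  act_smul := by
    intro c h x
    ext n
    rw [pmap_coeff, C.act_smul, Polynomial.algebraMap_apply, C_smul_coeff, pmap_coeff]
  act_comm := by
    intro h h' x
    ext n
    rw [pmap_coeff, pmap_coeff, pmap_coeff, pmap_coeff, C.act_comm]
  act_d := by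
    intro h x
    ext n
    rw [pmap_coeff, pmap_coeff, pmap_coeff, pmap_coeff, C.act_d]
  act_F := by
    intro h u x hx n
    rw [pmap_coeff]
    exact C.act_F h (hx n)
  act_cube := by
    intro h x
    ext n
    rw [pmap_coeff, pmap_coeff, pmap_coeff, C.act_cube]
    rfl

theorem Poly_d (C : HM K H A) (p : C.Poly.X) (n : ℕ) :
    PolynomialModule.coeff (C.Poly.d p) n = C.d (PolynomialModule.coeff p n) := rfl

theorem Poly_act (C : HM K H A) (h : H) (p : C.Poly.X) (n : ℕ) :
    PolynomialModule.coeff (C.Poly.act h p) n = C.act h (PolynomialModule.coeff p n) := rfl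

theorem mem_Poly_F (C : HM K H A) (u : ℤ) (p : C.Poly.X) :
    p ∈ C.Poly.F u ↔ ∀ n : ℕ, PolynomialModule.coeff p n ∈ C.F u := Iff.rfl

/-- iterated cones with coefficients in `K`, the first element of the list is innermost -/
def HM.konK (C : HM K H A) (l : List (H × K)) : HM K H A :=
  C.kon (l.map fun p => (p.1, algebraMap K A p.2))

/-- short exact sequences with shifts of the filtration -/
structure HM.Ses (C' C C'' : HM K H A) where
  i : C'.X →ₗ[A] C.X
  p : C.X →ₗ[A] C''.X
  i_inj : Function.Injective i
  p_i : ∀ x, p (i x) = 0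
  exact : ∀ x, p x = 0 → ∃ y, i y = x
  i_d : ∀ x, i (C'.d x) = C.d (i x)
  p_d : ∀ x, p (C.d x) = C''.d (p x)
  i_act : ∀ h x, i (C'.act h x) = C.act h (i x)
  p_act : ∀ h x, p (C.act h x) = C''.act h (p x)
  i_F : ∀ (u : ℤ) x, x ∈ C'.F u ↔ i x ∈ C.F (u + 1)
  p_F : ∀ (u : ℤ) x, x ∈ C.F u → p x ∈ C''.F (u + 2)
  p_F' : ∀ (u : ℤ) y, y ∈ C''.F (u + 2) → ∃ x ∈ C.F u, p x = y

/-- `D` over `A[X]` specialises to `C` over `A` at `X = c` -/
structure HM.Spec (D : HM K H A[X]) (C : HM K H A) (c : A) where
  ev : D.X →+ C.X
  ev_smul : ∀ (p : A[X]) (x : D.X), ev (p • x) = p.eval c • ev x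
  ev_d : ∀ x, ev (D.d x) = C.d (ev x)
  ev_act : ∀ h x, ev (D.act h x) = C.act h (ev x)
  ev_F : ∀ (u : ℤ) x, x ∈ D.F u → ev x ∈ C.F u
  lift : ∀ (u : ℤ) y, y ∈ C.F u → ∃ x ∈ D.F u, ev x = y
  ker : ∀ (u : ℤ) x, x ∈ D.F u → ev x = 0 → ∃ z ∈ D.F u, x = (Polynomial.X - Polynomial.C c : A[X]) • z
  inj : ∀ x : D.X, (Polynomial.X - Polynomial.C c : A[X]) • x = 0 → x = 0

/-- exactness up to a set `S` of harmless cycles -/
structure HM.SEx (C : HM K H A) (S : C.X → Prop) (v : ℤ) : Prop where
  cyc : ∀ x, S x → C.d x = 0
  act : ∀ h x, S x → S (C.act h x)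
  zero : S 0
  bd : ∀ x, S x → ∀ w, C.d w = x → x = 0
  ex : ∀ u : ℤ, v ≤ u → ∀ x ∈ C.F u, C.d x = 0 → ∃ w ∈ C.F (u - 3), ∃ y, S y ∧ x = C.d w + y

end poly

/-- a module with its coefficient ring -/
structure BM (K H : Type) [Field K] [AddCommGroup H] [Module K H] where
  A : Type
  cr : CommRing A
  al : Algebra K A
  M : HM K H A

attribute [instance] BM.cr BM.al

section tower

variable {K H : Type} [Field K] [AddCommGroup H] [Module K H]

/-- towers: adjoin a variable and take the cone of `(h, X)`; the head is outermost -/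
noncomputable def tow (C : HM K H K) : List H → BM K H
  | [] => { A := K, cr := inferInstance, al := inferInstance, M := C }
  | h :: l =>
    { A := Polynomial (tow C l).A
      cr := inferInstance
      al := inferInstance
      M := (tow C l).M.Poly.cone h X }

/-- constants in the tower -/
noncomputable def cst (C : HM K H K) : (l : List H) → C.X → (tow C l).M.X
  | [], m => m
  | _ :: l, m => (PolynomialModule.single (tow C l).A 0 (cst C l m), 0)

/-- the harmless cycles in the tower -/
def Sg (C : HM K H K) (l : List H) (x : (tow C l).M.X) : Prop :=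
  ∃ m : C.X, x = cst C l (C.sq l m)

/-- good flags -/
def Flag [CharP K 3] (L : List (H →ₗ[K] K)) : List H → Prop
  | [] => True
  | h :: l => JJ L (Submodule.span K {x | x ∈ h :: l}) ∧ h ∉ Submodule.span K {x | x ∈ l} ∧
      Flag L l

end tower

end Pool.Agent.Lib.MP_d9da44_co.FC
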